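import Pool.Agent.Work.MP_cd91b4_al.B4

/-! # The two statements used by the final assembly -/

namespace Pool.Agent.Tach

open CategoryTheory IsLocalRing RingTheory.Sequence

variable {A : Type} [CommRing A] [HasExt.{0} (ModuleCat.{0} A)]

section B5

variable [IsNoetherianRing A] [IsLocalRing A]

/-- `A ⧸ (I • ⊤) ≃ A ⧸ I`. -/
noncomputable def b5_equiv (I : Ideal A) : (A ⧸ (I • (⊤ : Submodule A A))) ≃ₗ[A] (A ⧸ I) :=
  Submodule.quotEquivOfEq _ _ (by rw [smul_eq_mul, Ideal.mul_top])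

theorem partII (rs : List A) (hm : ∀ r ∈ rs, r ∈ maximalIdeal A) (hw : IsWeaklyRegular A rs)
    {k : Type} [Field k] [Algebra k (A ⧸ Ideal.ofList rs)]
    [Module.Finite k (A ⧸ Ideal.ofList rs)]
    (hk : ∀ r : A ⧸ Ideal.ofList rs, ∃ c : k, ¬ IsUnit (r - algebraMap k _ c))
    {ω : Type} [AddCommGroup ω] [Module A ω] [Module.Finite A ω]
    (xs : List A) (hxm : ∀ x ∈ xs, x ∈ maximalIdeal A) (hxw : IsWeaklyRegular ω xs)
    (hxl : xs.length = rs.length)
    (hx1 : Nonempty ((ResidueField A →ₗ[A] (ω ⧸ (Ideal.ofList xs • (⊤ : Submodule A ω))))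
          ≃ₗ[A] ResidueField A))
    (hinj : ∃ n : ℕ, ∀ i : ℕ, n < i → EZ A (ResidueField A) ω i) (m : ℕ)
    (hext : ∀ j : ℕ, 0 < j → j ≤ rs.length + m → EZ A ω A j) :
    (∀ j, rs.length < j → j ≤ rs.length + m → EZ A (Du k (A ⧸ Ideal.ofList rs)) A j) ∧
    (Nonempty (Du k (A ⧸ Ideal.ofList rs) ≃ₗ[A] (A ⧸ Ideal.ofList rs)) →
      ∃ n : ℕ, ∀ i : ℕ, n < i → EZ A (ResidueField A) A i) := by
  obtain ⟨hωr, ⟨e⟩⟩ := dual_iso rs hm hw hk xs hxm hxw hxl hx1 hinj
  constructor
  · intro j hj hj'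
    have h := ez_quot_left rs hωr (N := 0) (N' := rs.length + m) hext j (by omega) hj'
    exact ez_congr e (LinearEquiv.refl A A) h
  · rintro ⟨e'⟩
    obtain ⟨n, hn⟩ := hinj
    refine ⟨n, fun i hi => ?_⟩
    have h1 := ez_quot rs hωr hn i hi
    refine ez_of_quot rs hw ?_ (ez_congr (LinearEquiv.refl A _)
      ((e.trans e').trans (b5_equiv (Ideal.ofList rs)).symm) h1)
    intro r hr y
    obtain ⟨z, rfl⟩ := IsLocalRing.residue_surjective y
    rw [Algebra.smul_def]
    have : algebraMap A (ResidueField A) r = 0 := by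
      rw [IsLocalRing.ResidueField.algebraMap_eq, IsLocalRing.residue_eq_zero_iff]
      exact hm r hr
    rw [this, zero_mul]

/-- The syzygy step. -/
theorem step (rs : List A) (hw : IsWeaklyRegular A rs) {F M : Type}
    [AddCommGroup F] [Module A F] [Module (A ⧸ Ideal.ofList rs) F]
    [IsScalarTower A (A ⧸ Ideal.ofList rs) F]
    [Module.Free (A ⧸ Ideal.ofList rs) F] [Module.Finite (A ⧸ Ideal.ofList rs) F]
    [AddCommGroup M] [Module A M] [Module (A ⧸ Ideal.ofList rs) M]
    [IsScalarTower A (A ⧸ Ideal.ofList rs) M]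
    (π : F →ₗ[A ⧸ Ideal.ofList rs] M) (hπ : Function.Surjective π) (m : ℕ)
    (h : ∀ j, rs.length < j → j ≤ rs.length + (m + 1) → EZ A M A j) :
    (∀ j, rs.length < j → j ≤ rs.length + m → EZ A (LinearMap.ker π) A j) ∧
    ∀ u : LinearMap.ker π →ₗ[A ⧸ Ideal.ofList rs] (A ⧸ Ideal.ofList rs),
      ∃ v : F →ₗ[A ⧸ Ideal.ofList rs] (A ⧸ Ideal.ofList rs), ∀ x : LinearMap.ker π,
        v x = u x := by
  have hinj : Function.Injective ((LinearMap.ker π).subtype.restrictScalars A) :=
    Subtype.val_injective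
  have hsur : Function.Surjective (π.restrictScalars A) := hπ
  have hex : Function.Exact ((LinearMap.ker π).subtype.restrictScalars A)
      (π.restrictScalars A) := by
    intro x
    constructor
    · intro hx
      exact ⟨⟨x, hx⟩, rfl⟩
    · rintro ⟨y, rfl⟩
      exact y.2
  have kill : ∀ (X : Type) [AddCommGroup X] [Module A X] [Module (A ⧸ Ideal.ofList rs) X]
      [IsScalarTower A (A ⧸ Ideal.ofList rs) X], ∀ r ∈ rs, ∀ x : X, r • x = 0 := by
    intro X _ _ _ _ r hr x
    rw [← algebraMap_smul (A ⧸ Ideal.ofList rs) r x]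
    have : algebraMap A (A ⧸ Ideal.ofList rs) r = 0 := by
      rw [Ideal.Quotient.algebraMap_eq, Ideal.Quotient.eq_zero_iff_mem]
      exact Ideal.subset_span hr
    rw [this, zero_smul]
  constructor
  · intro j hj hj'
    exact ez_ct3 hinj hsur hex (ez_free_quot rs hw hj) (h (j + 1) (by omega) (by omega))
  · intro u
    obtain ⟨v, hv⟩ := surj_hom rs hw ((LinearMap.ker π).subtype.restrictScalars A)
      (π.restrictScalars A) hinj hsur hex (kill _) (kill _) (h (rs.length + 1) (by omega)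
        (by omega))
      ((b5_equiv (Ideal.ofList rs)).symm.toLinearMap ∘ₗ u.restrictScalars A)
    let v' : F →ₗ[A] (A ⧸ Ideal.ofList rs) := (b5_equiv (Ideal.ofList rs)).toLinearMap ∘ₗ v
    refine ⟨{ toFun := v', map_add' := map_add v', map_smul' := ?_ }, ?_⟩
    · intro r x
      obtain ⟨a, rfl⟩ := Ideal.Quotient.mk_surjective r
      rw [← Ideal.Quotient.algebraMap_eq, algebraMap_smul, map_smul, RingHom.id_apply,
        algebraMap_smul]
    · intro x
      have h1 := LinearMap.congr_fun hv x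
      change b5_equiv (Ideal.ofList rs) (v x) = u x
      have h2 : v x = (b5_equiv (Ideal.ofList rs)).symm (u x) := h1
      rw [h2, LinearEquiv.apply_symm_apply]

end B5

end Pool.Agent.Tach
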