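import Pool.Agent.Work.MP_cd91b4_al.PartI
import Pool.Agent.Work.MP_cd91b4_al.B5

/-! # Assembly -/

namespace Pool.Agent.Tach

open CategoryTheory IsLocalRing RingTheory.Sequence

section aux

/-- Compatible module structures are unique. -/
theorem module_unique {A R X : Type} [CommRing A] [CommRing R] [Algebra A R] [AddCommGroup X]
    [Module R X] (i1 i2 : Module A X) (h1 : @IsScalarTower A R X _ _ i1.toSMul)
    (h2 : @IsScalarTower A R X _ _ i2.toSMul) : i1 = i2 := by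
  refine Module.ext' i1 i2 fun a x => ?_
  have e1 : @HSMul.hSMul A X X (@instHSMul A X i1.toSMul) a x = algebraMap A R a • x :=
    (@algebraMap_smul A _ R _ _ X _ _ i1 h1 a x).symm
  have e2 : @HSMul.hSMul A X X (@instHSMul A X i2.toSMul) a x = algebraMap A R a • x :=
    (@algebraMap_smul A _ R _ _ X _ _ i2 h2 a x).symm
  exact e1.trans e2.symm

theorem ez_transfer {A R X V : Type} [CommRing A] [HasExt.{0} (ModuleCat.{0} A)] [CommRing R]
    [Algebra A R] [AddCommGroup X] [Module R X] [AddCommGroup V] [Module A V]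
    (i1 i2 : Module A X) (h1 : @IsScalarTower A R X _ _ i1.toSMul)
    (h2 : @IsScalarTower A R X _ _ i2.toSMul) {j : ℕ}
    (h : @EZ A _ _ X V _ i1 _ _ j) : @EZ A _ _ X V _ i2 _ _ j := by
  have e := module_unique i1 i2 h1 h2
  subst e
  exact h

variable {k R : Type} [Field k] [CommRing R] [Algebra k R] (𝒜 : ℕ → Submodule k R)
  [GradedAlgebra 𝒜]

theorem piR_zero_eq (h0 : 𝒜 0 = 1) (r : R) : ∃ a : k, piR 𝒜 0 r = algebraMap k R a := by
  have h := piR_mem 𝒜 0 r
  rw [h0, Submodule.mem_one] at h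
  obtain ⟨a, ha⟩ := h
  exact ⟨a, ha.symm⟩

theorem exists_not_isUnit [Nontrivial R] (h0 : 𝒜 0 = 1) (r : R) :
    ∃ a : k, ¬ IsUnit (r - algebraMap k R a) := by
  obtain ⟨a, ha⟩ := piR_zero_eq 𝒜 h0 r
  refine ⟨a, fun hu => ?_⟩
  have h1 := hu.map (GradedRing.projZeroRingHom 𝒜)
  have h2 : GradedRing.projZeroRingHom 𝒜 (r - algebraMap k R a) = 0 := by
    have e : ∀ x : R, GradedRing.projZeroRingHom 𝒜 x = piR 𝒜 0 x := fun _ => rfl
    rw [e, map_sub, ha, piR_of_mem 𝒜 (j := 0), if_pos rfl, sub_self]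
    rw [h0, Submodule.mem_one]
    exact ⟨a, rfl⟩
  rw [h2] at h1
  exact not_isUnit_zero h1

theorem hR_zero [Nontrivial R] (h0 : 𝒜 0 = 1) : hR 𝒜 0 = 1 := by
  unfold hR
  have e : LinearMap.range (piR 𝒜 0) = Submodule.span k {(1 : R)} := by
    apply le_antisymm
    · rintro _ ⟨r, rfl⟩
      obtain ⟨a, ha⟩ := piR_zero_eq 𝒜 h0 r
      rw [ha, Algebra.algebraMap_eq_smul_one]
      exact Submodule.smul_mem _ _ (Submodule.mem_span_singleton_self _)
    · rw [Submodule.span_singleton_le_iff_mem]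
      refine ⟨1, ?_⟩
      rw [piR_of_mem 𝒜 (SetLike.GradedOne.one_mem), if_pos rfl]
  rw [e]
  exact finrank_span_singleton one_ne_zero

end aux

theorem main (A : Type) [CommRing A] [IsNoetherianRing A] [IsLocalRing A]
    [HasExt.{0} (ModuleCat.{0} A)] (rs : List A) (hm : ∀ r ∈ rs, r ∈ maximalIdeal A)
    (hw : IsWeaklyRegular A rs) (k : Type) [Field k] [Algebra k (A ⧸ Ideal.ofList rs)]
    [Module.Finite k (A ⧸ Ideal.ofList rs)] (𝒜 : ℕ → Submodule k (A ⧸ Ideal.ofList rs))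
    [GradedAlgebra 𝒜] (h2 : (2 : k) ≠ 0) (h0 : 𝒜 0 = 1) (c : ℕ) (hc : ∀ i, c < i → 𝒜 i = ⊥)
    (ω : Type) [AddCommGroup ω] [Module A ω] [Module.Finite A ω]
    (xs : List A) (hxm : ∀ x ∈ xs, x ∈ maximalIdeal A) (hxw : IsWeaklyRegular ω xs)
    (hxl : xs.length = rs.length)
    (hx1 : Nonempty ((ResidueField A →ₗ[A] (ω ⧸ (Ideal.ofList xs • (⊤ : Submodule A ω))))
          ≃ₗ[A] ResidueField A))
    (hinj : ∃ n : ℕ, ∀ i : ℕ, n < i → EZ A (ResidueField A) ω i)
    (hext : ∀ j : ℕ, 0 < j → j ≤ rs.length + (4 * c + 2) → EZ A ω A j) :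
    ∃ n : ℕ, ∀ i : ℕ, n < i → EZ A (ResidueField A) A i := by
  have hI : Ideal.ofList rs ≤ maximalIdeal A := by
    rw [Ideal.ofList, Ideal.span_le]
    exact hm
  have : Nontrivial (A ⧸ Ideal.ofList rs) :=
    Ideal.Quotient.nontrivial_iff.2 fun h => (maximalIdeal.isMaximal A).ne_top
      (top_le_iff.1 (h ▸ hI))
  have : IsLocalRing (A ⧸ Ideal.ofList rs) :=
    IsLocalRing.of_surjective' (Ideal.Quotient.mk _) Ideal.Quotient.mk_surjective
  obtain ⟨hD, hconcl⟩ := partII rs hm hw (exists_not_isUnit 𝒜 h0) xs hxm hxw hxl hx1 hinj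
    (4 * c + 2) hext
  apply hconcl
  let E : ℕ → ∀ (X : Type) [AddCommGroup X] [Module (A ⧸ Ideal.ofList rs) X], Prop :=
    fun m X _ _ => ∀ (i : Module A X) (_ : IsScalarTower A (A ⧸ Ideal.ofList rs) X),
      ∀ j, rs.length < j → j ≤ rs.length + m → EZ A X A j
  have key : Nonempty (Du k (A ⧸ Ideal.ofList rs) ≃ₗ[A ⧸ Ideal.ofList rs]
      (A ⧸ Ideal.ofList rs)) := by
    refine partI (c := c) h2 (hR_zero 𝒜 h0) hc E ?_ ?_
    · intro m F M _ _ _ _ _ _ π hπ hM
      let : Module A F := Module.compHom F (algebraMap A (A ⧸ Ideal.ofList rs))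
      let : Module A M := Module.compHom M (algebraMap A (A ⧸ Ideal.ofList rs))
      have : IsScalarTower A (A ⧸ Ideal.ofList rs) F :=
        IsScalarTower.of_algebraMap_smul fun _ _ => rfl
      have : IsScalarTower A (A ⧸ Ideal.ofList rs) M :=
        IsScalarTower.of_algebraMap_smul fun _ _ => rfl
      obtain ⟨s1, s2⟩ := step rs hw π hπ m (hM inferInstance inferInstance)
      refine ⟨?_, s2⟩
      have ht : IsScalarTower A (A ⧸ Ideal.ofList rs) (LinearMap.ker π) := inferInstance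
      intro i hi j hj hj'
      exact ez_transfer _ i ht hi (s1 j hj hj')
    · have ht : IsScalarTower A (A ⧸ Ideal.ofList rs) (Du k (A ⧸ Ideal.ofList rs)) :=
        inferInstance
      intro i hi j hj hj'
      exact ez_transfer _ i ht hi (hD j hj hj')
  obtain ⟨e⟩ := key
  exact ⟨e.restrictScalars A⟩

end Pool.Agent.Tach
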