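import Pool.Agent.Work.MP_cd91b4_al.Du

/-! # MP_cd91b4_al, block B1: basic long exact sequence lemmas for `Ext` over `A`. -/

namespace Pool.Agent.Tach

open CategoryTheory IsLocalRing RingTheory.Sequence
open scoped Pointwise

variable {A : Type} [CommRing A] [HasExt.{0} (ModuleCat.{0} A)]

section B1

theorem b1_subs {C : Type 1} [Category.{0} C] [Abelian C] [HasExt.{0} C] {X Y : C} {j : ℕ}
    (h : ∀ e : Abelian.Ext X Y j, e = 0) : Subsingleton (Abelian.Ext X Y j) :=
  subsingleton_of_forall_eq 0 h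

section gen

variable {C : Type 1} [Category.{0} C] [Abelian C] [HasExt.{0} C]

open Abelian

theorem b1_iso_left {X X' Y : C} (e : X ≅ X') {j : ℕ}
    (h : Subsingleton (Ext X Y j)) : Subsingleton (Ext X' Y j) := by
  refine b1_subs fun a => ?_
  have h1 : (Ext.mk₀ e.hom).comp a (zero_add j) = 0 := Subsingleton.elim _ _
  have h2 : (Ext.mk₀ e.inv).comp ((Ext.mk₀ e.hom).comp a (zero_add j)) (zero_add j) = a := by
    simp
  rw [← h2, h1, Ext.comp_zero]

theorem b1_iso_right {X Y Y' : C} (e : Y ≅ Y') {j : ℕ}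
    (h : Subsingleton (Ext X Y j)) : Subsingleton (Ext X Y' j) := by
  refine b1_subs fun a => ?_
  have h1 : a.comp (Ext.mk₀ e.inv) (add_zero j) = 0 := Subsingleton.elim _ _
  have h2 : (a.comp (Ext.mk₀ e.inv) (add_zero j)).comp (Ext.mk₀ e.hom) (add_zero j) = a := by
    rw [Ext.comp_assoc_of_third_deg_zero, Ext.mk₀_comp_mk₀, e.inv_hom_id, Ext.comp_mk₀_id]
  rw [← h2, h1, Ext.zero_comp]

variable {S : ShortComplex C} (hS : S.ShortExact)

include hS

theorem b1_co1 (X : C) {j : ℕ} (h3 : Subsingleton (Ext X S.X₃ j))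
    (h2 : Subsingleton (Ext X S.X₂ (j + 1))) : Subsingleton (Ext X S.X₁ (j + 1)) := by
  refine b1_subs fun a => ?_
  obtain ⟨b, rfl⟩ := Ext.covariant_sequence_exact₁ X hS a (Subsingleton.elim _ _) rfl
  rw [Subsingleton.elim b 0, Ext.zero_comp]

theorem b1_co2 (X : C) {j : ℕ} (h1 : Subsingleton (Ext X S.X₁ j))
    (h3 : Subsingleton (Ext X S.X₃ j)) : Subsingleton (Ext X S.X₂ j) := by
  refine b1_subs fun a => ?_
  obtain ⟨b, rfl⟩ := Ext.covariant_sequence_exact₂ X hS a (Subsingleton.elim _ _)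
  rw [Subsingleton.elim b 0, Ext.zero_comp]

theorem b1_co3 (X : C) {j : ℕ} (h2 : Subsingleton (Ext X S.X₂ j))
    (h1 : Subsingleton (Ext X S.X₁ (j + 1))) : Subsingleton (Ext X S.X₃ j) := by
  refine b1_subs fun a => ?_
  obtain ⟨b, rfl⟩ := Ext.covariant_sequence_exact₃ X hS a rfl (Subsingleton.elim _ _)
  rw [Subsingleton.elim b 0, Ext.zero_comp]

theorem b1_ct1 (Y : C) {j : ℕ} (h1 : Subsingleton (Ext S.X₁ Y j))
    (h2 : Subsingleton (Ext S.X₂ Y (j + 1))) : Subsingleton (Ext S.X₃ Y (j + 1)) := by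
  refine b1_subs fun a => ?_
  obtain ⟨b, rfl⟩ := Ext.contravariant_sequence_exact₃ hS Y a (Subsingleton.elim _ _)
    (add_comm 1 j)
  rw [Subsingleton.elim b 0, Ext.comp_zero]

theorem b1_ct2 (Y : C) {j : ℕ} (h1 : Subsingleton (Ext S.X₁ Y j))
    (h3 : Subsingleton (Ext S.X₃ Y j)) : Subsingleton (Ext S.X₂ Y j) := by
  refine b1_subs fun a => ?_
  obtain ⟨b, rfl⟩ := Ext.contravariant_sequence_exact₂ hS Y a (Subsingleton.elim _ _)
  rw [Subsingleton.elim b 0, Ext.comp_zero]

theorem b1_ct3 (Y : C) {j : ℕ} (h2 : Subsingleton (Ext S.X₂ Y j))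
    (h3 : Subsingleton (Ext S.X₃ Y (j + 1))) : Subsingleton (Ext S.X₁ Y j) := by
  refine b1_subs fun a => ?_
  obtain ⟨b, rfl⟩ := Ext.contravariant_sequence_exact₁ hS Y a (add_comm 1 j)
    (Subsingleton.elim _ _)
  rw [Subsingleton.elim b 0, Ext.comp_zero]

end gen

variable {X X' V V' : Type} [AddCommGroup X] [Module A X] [AddCommGroup X'] [Module A X']
  [AddCommGroup V] [Module A V] [AddCommGroup V'] [Module A V']

theorem ez_congr (e : X ≃ₗ[A] X') (e' : V ≃ₗ[A] V') {j : ℕ} (h : EZ A X V j) :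
    EZ A X' V' j :=
  b1_iso_right (e'.toModuleIso) (b1_iso_left (e.toModuleIso) h)

variable {V1 V2 V3 : Type} [AddCommGroup V1] [Module A V1] [AddCommGroup V2] [Module A V2]
  [AddCommGroup V3] [Module A V3] {f : V1 →ₗ[A] V2} {g : V2 →ₗ[A] V3}

/-- the short complex of a short exact sequence of modules -/
abbrev b1_sc (he : Function.Exact f g) : ShortComplex (ModuleCat.{0} A) :=
  ModuleCat.shortComplexOfCompEqZero f g he.linearMap_comp_eq_zero

omit [HasExt.{0} (ModuleCat.{0} A)] in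
theorem b1_se (hf : Function.Injective f) (hg : Function.Surjective g)
    (he : Function.Exact f g) : (b1_sc he).ShortExact :=
  ModuleCat.shortComplex_shortExact _ he hf hg

theorem ez_co1 (hf : Function.Injective f) (hg : Function.Surjective g)
    (he : Function.Exact f g) {j : ℕ} (h3 : EZ A X V3 j) (h2 : EZ A X V2 (j + 1)) :
    EZ A X V1 (j + 1) := b1_co1 (b1_se hf hg he) (ModuleCat.of A X) h3 h2

theorem ez_co2 (hf : Function.Injective f) (hg : Function.Surjective g)
    (he : Function.Exact f g) {j : ℕ} (h1 : EZ A X V1 j) (h3 : EZ A X V3 j) :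
    EZ A X V2 j := b1_co2 (b1_se hf hg he) (ModuleCat.of A X) h1 h3

theorem ez_co3 (hf : Function.Injective f) (hg : Function.Surjective g)
    (he : Function.Exact f g) {j : ℕ} (h2 : EZ A X V2 j) (h1 : EZ A X V1 (j + 1)) :
    EZ A X V3 j := b1_co3 (b1_se hf hg he) (ModuleCat.of A X) h2 h1

theorem ez_ct1 (hf : Function.Injective f) (hg : Function.Surjective g)
    (he : Function.Exact f g) {j : ℕ} (h1 : EZ A V1 V j) (h2 : EZ A V2 V (j + 1)) :
    EZ A V3 V (j + 1) := b1_ct1 (b1_se hf hg he) (ModuleCat.of A V) h1 h2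

theorem ez_ct2 (hf : Function.Injective f) (hg : Function.Surjective g)
    (he : Function.Exact f g) {j : ℕ} (h1 : EZ A V1 V j) (h3 : EZ A V3 V j) :
    EZ A V2 V j := b1_ct2 (b1_se hf hg he) (ModuleCat.of A V) h1 h3

theorem ez_ct3 (hf : Function.Injective f) (hg : Function.Surjective g)
    (he : Function.Exact f g) {j : ℕ} (h2 : EZ A V2 V j) (h3 : EZ A V3 V (j + 1)) :
    EZ A V1 V j := b1_ct3 (b1_se hf hg he) (ModuleCat.of A V) h2 h3

theorem ez_free [Module.Free A X] (j : ℕ) : EZ A X V (j + 1) := by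
  have : Projective (ModuleCat.of A X) :=
    (IsProjective.iff_projective (R := A) X).mp inferInstance
  exact Abelian.Ext.subsingleton_of_projective _ _ j

/-- `x` kills `X`: `x` acts as zero on `Ext(X,V)`. -/
theorem b1_kill {x : A} (hk : ∀ y : X, x • y = 0) {j : ℕ}
    (a : Abelian.Ext (ModuleCat.of A X) (ModuleCat.of A V) j) : x • a = 0 := by
  have h0 : x • 𝟙 (ModuleCat.of A X) = 0 := by
    ext y
    exact hk y
  have : x • a = (Abelian.Ext.mk₀ (x • 𝟙 (ModuleCat.of A X))).comp a (zero_add j) := by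
    simp [Abelian.Ext.mk₀_smul]
  rw [this, h0, Abelian.Ext.mk₀_zero, Abelian.Ext.zero_comp]

omit [HasExt.{0} (ModuleCat.{0} A)] in
theorem b1_ofHom_lsmul (x : A) :
    ModuleCat.ofHom (LinearMap.lsmul A V x) = x • 𝟙 (ModuleCat.of A V) := rfl

theorem b1_comp_lsmul (x : A) {j : ℕ}
    (a : Abelian.Ext (ModuleCat.of A X) (ModuleCat.of A V) j) :
    a.comp (Abelian.Ext.mk₀ (ModuleCat.ofHom (LinearMap.lsmul A V x))) (add_zero j) = x • a := by
  rw [b1_ofHom_lsmul, Abelian.Ext.smul_eq_comp_mk₀]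

theorem b1_lsmul_comp (x : A) {j : ℕ}
    (a : Abelian.Ext (ModuleCat.of A X) (ModuleCat.of A V) j) :
    (Abelian.Ext.mk₀ (ModuleCat.ofHom (LinearMap.lsmul A X x))).comp a (zero_add j) = x • a := by
  rw [b1_ofHom_lsmul]
  simp [Abelian.Ext.mk₀_smul]

omit [HasExt.{0} (ModuleCat.{0} A)] in
theorem b1_xse {x : A} (hx : IsSMulRegular V x) :
    (b1_sc (LinearMap.exact_lsmul_mkQ_smul_top V x)).ShortExact :=
  b1_se (f := LinearMap.lsmul A V x) hx (Submodule.mkQ_surjective _) _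

/-- `x` kills `X` and is regular on `V`: `Ext^{j+1}(X,V)` is a quotient of `Ext^j(X,V/xV)`. -/
theorem ez_up {x : A} (hx : IsSMulRegular V x) (hk : ∀ y : X, x • y = 0) {j : ℕ}
    (h : EZ A X (QuotSMulTop x V) j) : EZ A X V (j + 1) := by
  refine b1_subs fun a => ?_
  have hS := b1_xse hx
  obtain ⟨b, hb⟩ := Abelian.Ext.covariant_sequence_exact₁ (ModuleCat.of A X) hS a
    ((b1_comp_lsmul x a).trans (b1_kill hk a)) rfl
  have hh : Subsingleton (Abelian.Ext (ModuleCat.of A X)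
    (ModuleCat.of A (V ⧸ (x • (⊤ : Submodule A V)))) j) := h
  rw [← hb, Subsingleton.elim b 0, Abelian.Ext.zero_comp]

theorem ez_zero {x : A} (hx : IsSMulRegular V x) (hk : ∀ y : X, x • y = 0) : EZ A X V 0 := by
  have h1 : Subsingleton (X →ₗ[A] V) := by
    refine subsingleton_of_forall_eq 0 fun φ => ?_
    ext y
    apply hx
    simp only [LinearMap.zero_apply, smul_zero]
    rw [← map_smul, hk, map_zero]
  exact (Abelian.Ext.addEquiv₀.trans ModuleCat.homAddEquiv).subsingleton_congr.mpr h1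

/-- `x` kills `X` and is regular on `V`: `Ext^j(X,V)` embeds in `Ext^j(X,V/xV)`. -/
theorem ez_same {x : A} (hx : IsSMulRegular V x) (hk : ∀ y : X, x • y = 0) {j : ℕ}
    (h : EZ A X (QuotSMulTop x V) j) : EZ A X V j := by
  refine b1_subs fun a => ?_
  have hS := b1_xse hx
  have hh : Subsingleton (Abelian.Ext (ModuleCat.of A X)
    (ModuleCat.of A (V ⧸ (x • (⊤ : Submodule A V)))) j) := h
  obtain ⟨b, hb⟩ := Abelian.Ext.covariant_sequence_exact₂ (ModuleCat.of A X) hS a
    (Subsingleton.elim _ _)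
  rw [← hb]
  exact (b1_comp_lsmul x b).trans (b1_kill hk b)

/-- Nakayama. -/
theorem ez_nak [IsNoetherianRing A] [IsLocalRing A] [Module.Finite A X] [Module.Finite A V]
    {x : A} (hxm : x ∈ maximalIdeal A) (hx : IsSMulRegular X x) {j : ℕ}
    (h : EZ A (QuotSMulTop x X) V (j + 1)) : EZ A X V j := by
  have hS := b1_xse hx
  have hh : Subsingleton (Abelian.Ext (ModuleCat.of A (X ⧸ (x • (⊤ : Submodule A X))))
    (ModuleCat.of A V) (j + 1)) := h
  have hfin : Module.Finite A (Abelian.Ext (ModuleCat.of A X) (ModuleCat.of A V) j) :=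
    ModuleCat.finite_ext A (ModuleCat.of A X) (ModuleCat.of A V) j
  have hsurj : ∀ a : Abelian.Ext (ModuleCat.of A X) (ModuleCat.of A V) j,
      ∃ b : Abelian.Ext (ModuleCat.of A X) (ModuleCat.of A V) j, x • b = a := by
    intro a
    obtain ⟨b, hb⟩ := Abelian.Ext.contravariant_sequence_exact₁ hS (ModuleCat.of A V)
      a (add_comm 1 j) (Subsingleton.elim _ _)
    exact ⟨b, (b1_lsmul_comp x b).symm.trans hb⟩
  have htop : (⊤ : Submodule A (Abelian.Ext (ModuleCat.of A X) (ModuleCat.of A V) j)) = ⊥ := by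
    refine Submodule.eq_bot_of_le_smul_of_le_jacobson_bot (maximalIdeal A) ⊤ hfin.1 ?_ ?_
    · intro a _
      obtain ⟨b, rfl⟩ := hsurj a
      exact Submodule.smul_mem_smul hxm Submodule.mem_top
    · exact IsLocalRing.maximalIdeal_le_jacobson _
  refine b1_subs fun a => ?_
  have : a ∈ (⊤ : Submodule A (Abelian.Ext (ModuleCat.of A X) (ModuleCat.of A V) j)) :=
    Submodule.mem_top
  rw [htop] at this
  exact this

end B1

end Pool.Agent.Tach
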