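import Pool.Agent.Work.MP_cd91b4_al.B1

/-! # B2: along a weakly regular sequence -/

namespace Pool.Agent.Tach

open CategoryTheory IsLocalRing RingTheory.Sequence

variable {A : Type} [CommRing A] [HasExt.{0} (ModuleCat.{0} A)]

section B2

variable {X W : Type} [AddCommGroup X] [Module A X] [AddCommGroup W] [Module A W]

omit [HasExt.{0} (ModuleCat.{0} A)] in
theorem b2_inj {r : A} (hr : IsSMulRegular W r) :
    Function.Injective (LinearMap.lsmul A W r) := hr

omit [HasExt.{0} (ModuleCat.{0} A)] in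
open scoped Pointwise in
theorem b2_exact (r : A) : Function.Exact (LinearMap.lsmul A W r)
    (r • (⊤ : Submodule A W)).mkQ := LinearMap.exact_lsmul_mkQ_smul_top W r

omit [HasExt.{0} (ModuleCat.{0} A)] in
theorem b2_nil_eq : (Ideal.ofList ([] : List A) • (⊤ : Submodule A W)) = ⊥ := by
  rw [Ideal.ofList_nil, Submodule.bot_smul]

/-- covariant: vanishing above `N` passes from `W` to `W/rsW` -/
theorem ez_quot (rs : List A) (hw : IsWeaklyRegular W rs) {N : ℕ}
    (h : ∀ j, N < j → EZ A X W j) :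
    ∀ j, N < j → EZ A X (W ⧸ (Ideal.ofList rs • (⊤ : Submodule A W))) j := by
  induction rs generalizing W with
  | nil =>
    intro j hj
    exact ez_congr (LinearEquiv.refl A X) (Submodule.quotEquivOfEqBot _ b2_nil_eq).symm (h j hj)
  | cons r rs ih =>
    rw [isWeaklyRegular_cons_iff] at hw
    intro j hj
    refine ez_congr (LinearEquiv.refl A X)
      (Submodule.quotOfListConsSMulTopEquivQuotSMulTopInner W r rs).symm ?_
    refine ih hw.2 (fun i hi => ?_) j hj
    exact ez_co3 (b2_inj hw.1) (Submodule.mkQ_surjective _) (b2_exact r) (h i hi)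
      (h (i + 1) (by omega))

/-- and back when `rs` kills `X` -/
theorem ez_of_quot (rs : List A) (hw : IsWeaklyRegular W rs)
    (hk : ∀ r ∈ rs, ∀ y : X, r • y = 0) {j : ℕ}
    (h : EZ A X (W ⧸ (Ideal.ofList rs • (⊤ : Submodule A W))) j) : EZ A X W j := by
  induction rs generalizing W with
  | nil =>
    exact ez_congr (LinearEquiv.refl A X) (Submodule.quotEquivOfEqBot _ b2_nil_eq) h
  | cons r rs ih =>
    rw [isWeaklyRegular_cons_iff] at hw
    have h1 := ez_congr (LinearEquiv.refl A X)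
      (Submodule.quotOfListConsSMulTopEquivQuotSMulTopInner W r rs) h
    exact ez_same hw.1 (hk r List.mem_cons_self)
      (ih hw.2 (fun s hs => hk s (List.mem_cons_of_mem _ hs)) h1)

/-- contravariant: `Ext^j(W,V)=0` for `N < j ≤ N'` gives `Ext^j(W/rsW,V)=0` for
`N + length rs < j ≤ N'` -/
theorem ez_quot_left (rs : List A) (hw : IsWeaklyRegular W rs) {V : Type} [AddCommGroup V]
    [Module A V] {N N' : ℕ} (h : ∀ j, N < j → j ≤ N' → EZ A W V j) :
    ∀ j, N + rs.length < j → j ≤ N' →
      EZ A (W ⧸ (Ideal.ofList rs • (⊤ : Submodule A W))) V j := by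
  induction rs generalizing W N with
  | nil =>
    intro j hj hj'
    exact ez_congr (Submodule.quotEquivOfEqBot _ b2_nil_eq).symm (LinearEquiv.refl A V)
      (h j (by simpa using hj) hj')
  | cons r rs ih =>
    rw [isWeaklyRegular_cons_iff] at hw
    intro j hj hj'
    refine ez_congr (Submodule.quotOfListConsSMulTopEquivQuotSMulTopInner W r rs).symm
      (LinearEquiv.refl A V) ?_
    rw [List.length_cons] at hj
    refine ih hw.2 (N := N + 1) (fun i hi hi' => ?_) j (by omega) hj'
    obtain ⟨i, rfl⟩ : ∃ i', i = i' + 1 := ⟨i - 1, by omega⟩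
    exact ez_ct1 (b2_inj hw.1) (Submodule.mkQ_surjective _) (b2_exact r) (h i (by omega) (by omega))
      (h (i + 1) (by omega) hi')

/-- depth: `Ext^i(X,W)=0` for `i < length rs` if `rs` kills `X` -/
theorem ez_depth (rs : List A) (hw : IsWeaklyRegular W rs)
    (hk : ∀ r ∈ rs, ∀ y : X, r • y = 0) {j : ℕ} (hj : j < rs.length) : EZ A X W j := by
  induction rs generalizing W j with
  | nil => simp at hj
  | cons r rs ih =>
    rw [isWeaklyRegular_cons_iff] at hw
    cases j with
    | zero => exact ez_zero hw.1 (hk r List.mem_cons_self)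
    | succ j =>
      refine ez_up hw.1 (hk r List.mem_cons_self) ?_
      exact ih hw.2 (fun s hs => hk s (List.mem_cons_of_mem _ hs)) (by simpa using hj)

open Abelian in
/-- if `r` kills `X` it kills `Ext(X,W)` -/
theorem b2_kill {r : A} (hk : ∀ y : X, r • y = 0) {n : ℕ}
    (e : Ext (ModuleCat.of A X) (ModuleCat.of A W) n) :
    e.comp (Ext.mk₀ (ModuleCat.smulShortComplex (ModuleCat.of A W) r).f) (add_zero n) = 0 := by
  have h1 : e.comp (Ext.mk₀ (r • 𝟙 (ModuleCat.of A W))) (add_zero n) =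
      (Ext.mk₀ (r • 𝟙 (ModuleCat.of A X))).comp e (zero_add n) := by
    rw [Ext.mk₀_smul, Ext.mk₀_smul, Ext.comp_smul, Ext.smul_comp, Ext.comp_mk₀_id, Ext.mk₀_id_comp]
  have h2 : r • 𝟙 (ModuleCat.of A X) = 0 := by
    ext y
    exact hk y
  have h3 : e.comp (Ext.mk₀ (r • 𝟙 (ModuleCat.of A W))) (add_zero n) = 0 := by
    rw [h1, h2, Ext.mk₀_zero, Ext.zero_comp]
  exact h3

open Abelian in
/-- the connecting map is onto -/
theorem b2_conn_surj {r : A} (hr : IsSMulRegular W r) (hk : ∀ y : X, r • y = 0) {n : ℕ}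
    (e : Ext (ModuleCat.of A X) (ModuleCat.of A W) (n + 1)) :
    ∃ e' : Ext (ModuleCat.of A X) (ModuleCat.of A (QuotSMulTop r W)) n,
      e'.comp (IsSMulRegular.smulShortComplex_shortExact (M := ModuleCat.of A W) hr).extClass
        (rfl : n + 1 = n + 1) = e :=
  Ext.covariant_sequence_exact₁ (ModuleCat.of A X)
    (IsSMulRegular.smulShortComplex_shortExact (M := ModuleCat.of A W) hr) e (b2_kill hk e) rfl

open Abelian in
/-- the connecting map is injective -/
theorem b2_conn_inj {r : A} (hr : IsSMulRegular W r) {n : ℕ} (h0 : EZ A X W n)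
    (e : Ext (ModuleCat.of A X) (ModuleCat.of A (QuotSMulTop r W)) n)
    (he : e.comp (IsSMulRegular.smulShortComplex_shortExact (M := ModuleCat.of A W) hr).extClass
        (rfl : n + 1 = n + 1) = 0) : e = 0 := by
  obtain ⟨e', he'⟩ := Ext.covariant_sequence_exact₃ (ModuleCat.of A X)
    (IsSMulRegular.smulShortComplex_shortExact (M := ModuleCat.of A W) hr) e rfl he
  have h1 : e' = 0 := h0.elim _ _
  subst h1
  exact he'.symm.trans (Ext.zero_comp _ _ _ _ _)

/-- `Hom(X,W/rsW) ≃ Ext^d(X,W)`, `A`-linearly -/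
theorem hom_equiv_ext (rs : List A) (hw : IsWeaklyRegular W rs)
    (hk : ∀ r ∈ rs, ∀ y : X, r • y = 0) :
    Nonempty ((X →ₗ[A] (W ⧸ (Ideal.ofList rs • (⊤ : Submodule A W)))) ≃ₗ[A]
      (Abelian.Ext (ModuleCat.of A X) (ModuleCat.of A W) rs.length)) := by
  induction rs generalizing W with
  | nil =>
    exact ⟨(LinearEquiv.congrRight (Submodule.quotEquivOfEqBot _ b2_nil_eq)).trans
      ((ModuleCat.homLinearEquiv (S := A) (M := ModuleCat.of A X) (N := ModuleCat.of A W)).symm.trans
        (Abelian.Ext.linearEquiv₀ (R := A)).symm)⟩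
  | cons r rs ih =>
    have hd := ez_depth (r :: rs) hw hk (j := rs.length) (by simp)
    rw [isWeaklyRegular_cons_iff] at hw
    obtain ⟨e⟩ := ih hw.2 (fun s hs => hk s (List.mem_cons_of_mem _ hs))
    have hr := hk r List.mem_cons_self
    let c := Abelian.Ext.postcompOfLinear
      (IsSMulRegular.smulShortComplex_shortExact (M := ModuleCat.of A W) hw.1).extClass A
      (ModuleCat.of A X) (rfl : rs.length + 1 = rs.length + 1)
    have hc : Function.Bijective c := by
      constructor
      · rw [injective_iff_map_eq_zero]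
        intro a ha
        exact b2_conn_inj hw.1 hd a ha
      · intro a
        obtain ⟨b, hb⟩ := b2_conn_surj hw.1 hr a
        exact ⟨b, hb⟩
    exact ⟨((LinearEquiv.congrRight
      (Submodule.quotOfListConsSMulTopEquivQuotSMulTopInner W r rs)).trans e).trans
        (LinearEquiv.ofBijective c hc)⟩

variable {Y Z : Type} [AddCommGroup Y] [Module A Y] [AddCommGroup Z] [Module A Z]

open Abelian in
/-- `Ext^n(Y,W) → Ext^n(X,W)` is onto -/
def b2_S (f : X →ₗ[A] Y) (W : Type) [AddCommGroup W] [Module A W] (n : ℕ) : Prop :=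
  ∀ e : Ext (ModuleCat.of A X) (ModuleCat.of A W) n,
    ∃ e' : Ext (ModuleCat.of A Y) (ModuleCat.of A W) n,
      (Ext.mk₀ (ModuleCat.ofHom f)).comp e' (zero_add n) = e

open Abelian in
theorem b2_S_step {f : X →ₗ[A] Y} {r : A} (hr : IsSMulRegular W r) (hY : ∀ y : Y, r • y = 0)
    {n : ℕ} (h0 : EZ A X W n) (h : b2_S f W (n + 1)) : b2_S f (QuotSMulTop r W) n := by
  intro e
  have hS := IsSMulRegular.smulShortComplex_shortExact (M := ModuleCat.of A W) hr
  let e0 : Ext (ModuleCat.of A X) (ModuleCat.of A W) (n + 1) := e.comp hS.extClass rfl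
  obtain ⟨e1, he1⟩ := h e0
  obtain ⟨e2, he2⟩ := b2_conn_surj hr hY e1
  refine ⟨e2, ?_⟩
  rw [← sub_eq_zero, sub_eq_add_neg]
  refine b2_conn_inj hr h0 _ ?_
  have h1 : ((Ext.mk₀ (ModuleCat.ofHom f)).comp e2 (zero_add n)).comp hS.extClass
      (rfl : n + 1 = n + 1) = e.comp hS.extClass rfl := by
    rw [Ext.comp_assoc _ e2 hS.extClass (zero_add n) (rfl : n + 1 = n + 1) (by omega)]
    have : e2.comp hS.extClass (rfl : n + 1 = n + 1) = e1 := he2
    rw [this]
    exact he1
  rw [Ext.add_comp, Ext.neg_comp, ← sub_eq_add_neg]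
  exact sub_eq_zero.2 h1

open Abelian in
theorem b2_surj_aux (rs : List A) (hw : IsWeaklyRegular W rs) (f : X →ₗ[A] Y)
    (hX : ∀ r ∈ rs, ∀ x : X, r • x = 0) (hY : ∀ r ∈ rs, ∀ y : Y, r • y = 0)
    (hS : b2_S f W rs.length) (u : X →ₗ[A] (W ⧸ (Ideal.ofList rs • (⊤ : Submodule A W)))) :
    ∃ v : Y →ₗ[A] (W ⧸ (Ideal.ofList rs • (⊤ : Submodule A W))), v ∘ₗ f = u := by
  induction rs generalizing W with
  | nil =>
    let q : (W ⧸ (Ideal.ofList ([] : List A) • (⊤ : Submodule A W))) ≃ₗ[A] W :=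
      Submodule.quotEquivOfEqBot _ b2_nil_eq
    obtain ⟨e', he'⟩ := hS (Ext.mk₀ (ModuleCat.ofHom (q.toLinearMap ∘ₗ u)))
    obtain ⟨g, rfl⟩ := Ext.addEquiv₀.symm.surjective e'
    have h1 : (Ext.mk₀ (ModuleCat.ofHom f)).comp (Ext.mk₀ g) (zero_add 0) =
      Ext.mk₀ (ModuleCat.ofHom (q.toLinearMap ∘ₗ u)) := he'
    rw [Ext.mk₀_comp_mk₀] at h1
    have h2 : ModuleCat.ofHom f ≫ g = ModuleCat.ofHom (q.toLinearMap ∘ₗ u) :=
      Ext.addEquiv₀.symm.injective h1
    refine ⟨q.symm.toLinearMap ∘ₗ g.hom, ?_⟩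
    ext x
    have h3 := congrArg (fun t => t.hom x) h2
    simp only [LinearMap.comp_apply]
    have h4 : g.hom (f x) = q (u x) := h3
    rw [h4]
    exact q.symm_apply_apply _
  | cons r rs ih =>
    have hd := ez_depth (r :: rs) hw hX (j := rs.length) (by simp)
    rw [isWeaklyRegular_cons_iff] at hw
    let q := Submodule.quotOfListConsSMulTopEquivQuotSMulTopInner W r rs
    obtain ⟨v, hv⟩ := ih hw.2 (fun s hs => hX s (List.mem_cons_of_mem _ hs))
      (fun s hs => hY s (List.mem_cons_of_mem _ hs))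
      (b2_S_step hw.1 (hY r List.mem_cons_self) hd hS) (q.toLinearMap ∘ₗ u)
    refine ⟨q.symm.toLinearMap ∘ₗ v, ?_⟩
    rw [LinearMap.comp_assoc, hv]
    ext x
    exact q.symm_apply_apply _

/-- extension of homomorphisms (naturality in `X` of the connecting maps) -/
theorem surj_hom (rs : List A) (hw : IsWeaklyRegular W rs) (f : X →ₗ[A] Y) (g : Y →ₗ[A] Z)
    (hf : Function.Injective f) (hg : Function.Surjective g) (he : Function.Exact f g)
    (hX : ∀ r ∈ rs, ∀ x : X, r • x = 0) (hY : ∀ r ∈ rs, ∀ y : Y, r • y = 0)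
    (hZ : EZ A Z W (rs.length + 1))
    (u : X →ₗ[A] (W ⧸ (Ideal.ofList rs • (⊤ : Submodule A W)))) :
    ∃ v : Y →ₗ[A] (W ⧸ (Ideal.ofList rs • (⊤ : Submodule A W))), v ∘ₗ f = u := by
  refine b2_surj_aux rs hw f hX hY ?_ u
  intro e
  let S : ShortComplex (ModuleCat.{0} A) :=
    ModuleCat.shortComplexOfCompEqZero f g he.linearMap_comp_eq_zero
  have hS : S.ShortExact :=
    { exact := ModuleCat.shortComplex_exact _ he
      mono_f := (ModuleCat.mono_iff_injective _).2 hf
      epi_g := (ModuleCat.epi_iff_surjective _).2 hg }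
  exact Abelian.Ext.contravariant_sequence_exact₁ hS (ModuleCat.of A W) e
    (add_comm 1 rs.length) (hZ.elim _ _)

/-- finite free modules over `A/(rs)` -/
theorem ez_free_quot (rs : List A) (hw : IsWeaklyRegular A rs) {F : Type} [AddCommGroup F]
    [Module A F] [Module (A ⧸ Ideal.ofList rs) F] [IsScalarTower A (A ⧸ Ideal.ofList rs) F]
    [Module.Free (A ⧸ Ideal.ofList rs) F] [Module.Finite (A ⧸ Ideal.ofList rs) F]
    {V : Type} [AddCommGroup V] [Module A V] {j : ℕ} (hj : rs.length < j) : EZ A F V j := by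
  have h1 : EZ A (A ⧸ Ideal.ofList rs) V j := by
    have h2 := ez_quot_left (V := V) rs hw (N := 0) (N' := j) (fun i hi _ => by
      obtain ⟨i, rfl⟩ : ∃ i', i = i' + 1 := ⟨i - 1, by omega⟩
      exact ez_free i) j (by omega) le_rfl
    refine ez_congr (Submodule.quotEquivOfEq _ _ ?_) (LinearEquiv.refl A V) h2
    rw [smul_eq_mul, Ideal.mul_top]
  have h3 : ∀ n : ℕ, EZ A (Fin n → A ⧸ Ideal.ofList rs) V j := by
    intro n
    induction n with
    | zero =>
      obtain ⟨i, rfl⟩ : ∃ i', j = i' + 1 := ⟨j - 1, by omega⟩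
      exact ez_free i
    | succ n ih =>
      refine ez_ct2 (f := LinearMap.single A (fun _ : Fin (n + 1) => A ⧸ Ideal.ofList rs) 0)
        (g := LinearMap.funLeft A (A ⧸ Ideal.ofList rs) Fin.succ) ?_ ?_ ?_ h1 ih
      · exact fun a b hab => Pi.single_injective (0 : Fin (n + 1)) hab
      · exact LinearMap.funLeft_surjective_of_injective _ _ _ (Fin.succ_injective n)
      · intro y
        constructor
        · intro hy
          refine ⟨y 0, ?_⟩
          ext i
          refine Fin.cases ?_ (fun i => ?_) i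
          · simp
          · have := congrFun hy i
            simpa [LinearMap.funLeft] using this.symm
        · rintro ⟨a, rfl⟩
          ext i
          simp [LinearMap.funLeft]
  let b := Module.Free.chooseBasis (A ⧸ Ideal.ofList rs) F
  let b' := b.reindex (Fintype.equivFin _)
  exact ez_congr (b'.equivFun.restrictScalars A).symm (LinearEquiv.refl A V) (h3 _)

end B2

end Pool.Agent.Tach
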