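import Pool.Agent.Work.MP_cd91b4_al.B2

/-! # B3: finite length modules and transfer of regularity -/

namespace Pool.Agent.Tach

open CategoryTheory IsLocalRing RingTheory.Sequence
open scoped Pointwise

variable {A : Type} [CommRing A] [HasExt.{0} (ModuleCat.{0} A)]

section B3

theorem b3_subsingleton {V X : Type} [AddCommGroup V] [Module A V] [AddCommGroup X] [Module A X]
    [Subsingleton X] (j : ℕ) : EZ A X V j := by
  have hz : ModuleCat.of A X ⟶ ModuleCat.of A X := 𝟙 _
  have h0 : (𝟙 (ModuleCat.of A X)) = 0 := by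
    ext x
    exact Subsingleton.elim _ _
  refine ⟨fun a b => ?_⟩
  have key : ∀ a : Abelian.Ext (ModuleCat.of A X) (ModuleCat.of A V) j, a = 0 := by
    intro a
    rw [← Abelian.Ext.mk₀_id_comp a, h0, Abelian.Ext.mk₀_zero, Abelian.Ext.zero_comp]
  rw [key a, key b]

variable [IsLocalRing A]

theorem b3_simple {S : Type} [AddCommGroup S] [Module A S] (h : IsSimpleModule A S) :
    Nonempty (S ≃ₗ[A] ResidueField A) := by
  obtain ⟨I, hI, ⟨e⟩⟩ := isSimpleModule_iff_quot_maximal.1 h
  have : I = maximalIdeal A := IsLocalRing.eq_maximalIdeal hI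
  subst this
  exact ⟨e⟩

theorem ez_finiteLength {V : Type} [AddCommGroup V] [Module A V] {j : ℕ}
    (h : EZ A (ResidueField A) V j) {X : Type} [AddCommGroup X] [Module A X]
    (hX : IsFiniteLength A X) : EZ A X V j := by
  induction hX with
  | of_subsingleton => exact b3_subsingleton j
  | @of_simple_quotient M _ _ N hs hN ih =>
    obtain ⟨e⟩ := b3_simple hs
    have h3 : EZ A (M ⧸ N) V j := ez_congr e.symm (LinearEquiv.refl A V) h
    refine ez_ct2 (f := N.subtype) (g := N.mkQ) N.injective_subtype N.mkQ_surjective ?_ ih h3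
    rw [LinearMap.exact_iff, Submodule.ker_mkQ, Submodule.range_subtype]

variable [IsNoetherianRing A]

/-- the injective dimension is at most `length rs` -/
theorem ez_top (rs : List A) (hm : ∀ r ∈ rs, r ∈ maximalIdeal A) (hw : IsWeaklyRegular A rs)
    (hR : IsFiniteLength A (A ⧸ Ideal.ofList rs)) {V : Type} [AddCommGroup V] [Module A V]
    (hV : ∃ n : ℕ, ∀ i, n < i → EZ A (ResidueField A) V i) :
    ∀ i, rs.length < i → EZ A (ResidueField A) V i := by
  obtain ⟨n, hn⟩ := hV
  -- a simple submodule of `A / (rs)`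
  have hI : Ideal.ofList rs ≤ maximalIdeal A := by
    rw [Ideal.ofList, Ideal.span_le]
    exact hm
  have hnt : Nontrivial (A ⧸ Ideal.ofList rs) :=
    Ideal.Quotient.nontrivial_iff.2 fun h => (maximalIdeal.isMaximal A).ne_top
      (top_le_iff.1 (h ▸ hI))
  have hart : IsArtinian A (A ⧸ Ideal.ofList rs) :=
    (isFiniteLength_iff_isNoetherian_isArtinian.1 hR).2
  obtain ⟨S, hS⟩ := IsAtomic.exists_atom (Submodule A (A ⧸ Ideal.ofList rs))
  have hSs : IsSimpleModule A S := isSimpleModule_iff_isAtom.2 hS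
  obtain ⟨e⟩ := b3_simple hSs
  have hC : IsFiniteLength A ((A ⧸ Ideal.ofList rs) ⧸ S) := hR.of_surjective S.mkQ_surjective
  have step : ∀ i, rs.length < i → (∀ j, i < j → EZ A (ResidueField A) V j) →
      EZ A (ResidueField A) V i := by
    intro i hi hj
    have h1 : EZ A ((A ⧸ Ideal.ofList rs) ⧸ S) V (i + 1) :=
      ez_finiteLength (hj (i + 1) (by omega)) hC
    have h2 : EZ A (A ⧸ Ideal.ofList rs) V i := ez_free_quot rs hw hi
    have h3 : EZ A S V i := by
      refine ez_ct3 (f := S.subtype) (g := S.mkQ) S.injective_subtype S.mkQ_surjective ?_ h2 h1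
      rw [LinearMap.exact_iff, Submodule.ker_mkQ, Submodule.range_subtype]
    exact ez_congr e (LinearEquiv.refl A V) h3
  -- downward induction
  have down : ∀ t i, rs.length < i → n < i + t → EZ A (ResidueField A) V i := by
    intro t
    induction t with
    | zero => intro i _ h; exact hn i (by omega)
    | succ t ih =>
      intro i hi h
      refine step i hi fun j hj => ?_
      exact ih j (by omega) (by omega)
  intro i hi
  exact down (n + 1) i hi (by omega)

theorem b3_eqlist (ps : List A) (x : A) (U : Type) [AddCommGroup U] [Module A U] :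
    Nonempty (QuotSMulTop x (U ⧸ (Ideal.ofList ps • (⊤ : Submodule A U))) ≃ₗ[A]
      (U ⧸ (Ideal.ofList (ps ++ [x]) • (⊤ : Submodule A U)))) := by
  have h : (Ideal.ofList (x :: ps) • (⊤ : Submodule A U)) =
      (Ideal.ofList (ps ++ [x]) • (⊤ : Submodule A U)) := by
    rw [Ideal.ofList_append, Ideal.ofList_singleton, Ideal.ofList_cons, sup_comm]
  exact ⟨(Submodule.quotOfListConsSMulTopEquivQuotSMulTopOuter U x ps).symm.trans
    (Submodule.quotEquivOfEq _ _ h)⟩

/-- Peeling off from the end: if `ps ++ qs` is weakly regular on `U` and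
`Ext^j(U/(ps ++ qs)U,V)=0` for `j < length` then the same holds for the prefix `ps`. -/
theorem b3_peel {V : Type} [AddCommGroup V] [Module A V] [Module.Finite A V]
    {U : Type} [AddCommGroup U] [Module A U] [Module.Finite A U] (ps qs : List A)
    (hm : ∀ r ∈ ps ++ qs, r ∈ maximalIdeal A) (hw : IsWeaklyRegular U (ps ++ qs))
    (h : ∀ j, j < (ps ++ qs).length →
        EZ A (U ⧸ (Ideal.ofList (ps ++ qs) • (⊤ : Submodule A U))) V j) :
    ∀ j, j < ps.length → EZ A (U ⧸ (Ideal.ofList ps • (⊤ : Submodule A U))) V j := by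
  induction qs using List.reverseRecOn with
  | nil =>
    rw [List.append_nil] at h
    exact h
  | append_singleton qs x ih =>
    rw [← List.append_assoc] at hm hw h
    obtain ⟨w1, w2⟩ := (isWeaklyRegular_append_iff U (ps ++ qs) [x]).1 hw
    rw [isWeaklyRegular_singleton_iff] at w2
    refine ih (fun r hr => hm r (by simp at hr ⊢; tauto)) w1 fun j hj => ?_
    refine ez_nak (x := x) (hm x (by simp)) w2 ?_
    obtain ⟨e⟩ := b3_eqlist (ps ++ qs) x U
    exact ez_congr e.symm (LinearEquiv.refl A V) (h (j + 1) (by simp at hj ⊢; omega))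

theorem b3_hom {X V : Type} [AddCommGroup X] [Module A X] [AddCommGroup V] [Module A V]
    (h : EZ A X V 0) (f : X →ₗ[A] V) : f = 0 := by
  have h' : Subsingleton (Abelian.Ext (ModuleCat.of A X) (ModuleCat.of A V) 0) := h
  have : Subsingleton (X →ₗ[A] V) :=
    ((Abelian.Ext.addEquiv₀ (X := ModuleCat.of A X) (Y := ModuleCat.of A V)).trans
      ModuleCat.homAddEquiv).symm.subsingleton
  exact Subsingleton.elim _ _

theorem b3_main (rs : List A) : ∀ {U V : Type} [AddCommGroup U] [Module A U] [Module.Finite A U]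
    [AddCommGroup V] [Module A V] [Module.Finite A V],
    (∀ v : V, ∃ φ : U →ₗ[A] V, (∃ u, φ u = v) ∧ ∀ y, ∃ a : A, φ y = a • v) →
    (∀ r ∈ rs, r ∈ maximalIdeal A) → IsWeaklyRegular U rs →
    (∀ j, j < rs.length → EZ A (U ⧸ (Ideal.ofList rs • (⊤ : Submodule A U))) V j) →
    IsWeaklyRegular V rs := by
  induction rs with
  | nil => intros; exact IsWeaklyRegular.nil A _
  | cons r rs ih =>
    intro U V _ _ _ _ _ _ hC hm hw h
    have hw' := (isWeaklyRegular_cons_iff U r rs).1 hw
    -- `Hom(U/rU,V)=0`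
    have h0 := b3_peel (V := V) [r] rs hm hw h 0 (by simp)
    have h0' : EZ A (QuotSMulTop r U) V 0 := by
      have e : (Ideal.ofList [r] • (⊤ : Submodule A U)) = r • (⊤ : Submodule A U) := by
        rw [Ideal.ofList_singleton, Submodule.ideal_span_singleton_smul]
      exact ez_congr (Submodule.quotEquivOfEq _ _ e) (LinearEquiv.refl A V) h0
    have hreg : IsSMulRegular V r := by
      rw [isSMulRegular_iff_right_eq_zero_of_smul]
      intro v hv
      obtain ⟨φ, ⟨u, hu⟩, hy⟩ := hC v
      have hk : (r • (⊤ : Submodule A U)) ≤ LinearMap.ker φ := by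
        intro y hy'
        obtain ⟨z, -, rfl⟩ := (Submodule.mem_smul_pointwise_iff_exists y r ⊤).1 hy'
        obtain ⟨a, ha⟩ := hy z
        rw [LinearMap.mem_ker, map_smul, ha, smul_comm, hv, smul_zero]
      have h1 := b3_hom h0' (Submodule.liftQ _ φ hk)
      have h2 := LinearMap.congr_fun h1 (Submodule.Quotient.mk u)
      rw [Submodule.liftQ_apply, hu] at h2
      exact h2
    refine (isWeaklyRegular_cons_iff V r rs).2 ⟨hreg, ?_⟩
    refine ih (U := QuotSMulTop r U) (V := QuotSMulTop r V) ?_
      (fun s hs => hm s (List.mem_cons_of_mem _ hs)) hw'.2 ?_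
    · intro v
      obtain ⟨v, rfl⟩ := Submodule.Quotient.mk_surjective _ v
      obtain ⟨φ, ⟨u, hu⟩, hy⟩ := hC v
      refine ⟨QuotSMulTop.map r φ, ⟨Submodule.Quotient.mk u, ?_⟩, ?_⟩
      · rw [QuotSMulTop.map_apply_mk, hu]
      · intro y
        obtain ⟨y, rfl⟩ := Submodule.Quotient.mk_surjective _ y
        obtain ⟨a, ha⟩ := hy y
        refine ⟨a, ?_⟩
        rw [QuotSMulTop.map_apply_mk, ha]
        rfl
    · intro j hj
      have e := Submodule.quotOfListConsSMulTopEquivQuotSMulTopInner U r rs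
      have h1 := ez_congr e (LinearEquiv.refl A V) (h j (by simp; omega))
      have h2 := ez_congr e (LinearEquiv.refl A V) (h (j + 1) (by simp; omega))
      exact ez_co3 (f := LinearMap.lsmul A V r) (g := (r • (⊤ : Submodule A V)).mkQ)
        hreg (Submodule.mkQ_surjective _) (LinearMap.exact_lsmul_mkQ_smul_top V r) h1 h2

/-- a maximal `A`-regular sequence is regular on maximal Cohen-Macaulay modules -/
theorem weaklyRegular_transfer (rs : List A) (hm : ∀ r ∈ rs, r ∈ maximalIdeal A)
    (hw : IsWeaklyRegular A rs) (hR : IsFiniteLength A (A ⧸ Ideal.ofList rs))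
    {V : Type} [AddCommGroup V] [Module A V] [Module.Finite A V]
    (hV : ∀ i, i < rs.length → EZ A (ResidueField A) V i) : IsWeaklyRegular V rs := by
  refine b3_main rs (U := A) ?_ hm hw ?_
  · intro v
    refine ⟨LinearMap.toSpanSingleton A V v, ⟨1, by simp⟩, fun y => ⟨y, by simp⟩⟩
  · intro j hj
    have e : (A ⧸ (Ideal.ofList rs • (⊤ : Submodule A A))) ≃ₗ[A] (A ⧸ Ideal.ofList rs) :=
      Submodule.quotEquivOfEq _ _ (by rw [smul_eq_mul, Ideal.mul_top])
    exact ez_finiteLength (hV j hj) (e.symm.isFiniteLength hR)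

end B3

end Pool.Agent.Tach
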