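import Pool.Agent.Work.MP_cd91b4_al.B3

/-! # B4: `ω/rsω` is the dual module -/

namespace Pool.Agent.Tach

open CategoryTheory IsLocalRing RingTheory.Sequence

variable {A : Type} [CommRing A] [HasExt.{0} (ModuleCat.{0} A)]

section B4

variable [IsNoetherianRing A] [IsLocalRing A]

omit [HasExt.{0} (ModuleCat.{0} A)] [IsLocalRing A] in
theorem finiteLength_of_algebra (rs : List A) {k : Type} [Field k]
    [Algebra k (A ⧸ Ideal.ofList rs)] [Module.Finite k (A ⧸ Ideal.ofList rs)]
    {X : Type} [AddCommGroup X] [Module A X] [Module (A ⧸ Ideal.ofList rs) X]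
    [IsScalarTower A (A ⧸ Ideal.ofList rs) X] [Module.Finite (A ⧸ Ideal.ofList rs) X] :
    IsFiniteLength A X := by
  rw [isFiniteLength_iff_isNoetherian_isArtinian]
  have h1 : IsArtinianRing (A ⧸ Ideal.ofList rs) := IsArtinianRing.of_finite k _
  have h2 : Module.Finite A X := Module.Finite.trans (A ⧸ Ideal.ofList rs) X
  exact ⟨inferInstance, isArtinian_of_surjective_algebraMap (R := A ⧸ Ideal.ofList rs)
    Ideal.Quotient.mk_surjective⟩

omit [HasExt.{0} (ModuleCat.{0} A)] [IsNoetherianRing A] in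
/-- a nonzero submodule of an artinian module contains a nonzero element killed by `m` -/
theorem b4_socle {X : Type} [AddCommGroup X] [Module A X] (hX : IsFiniteLength A X)
    {N : Submodule A X} (hN : N ≠ ⊥) :
    ∃ t ∈ N, t ≠ 0 ∧ ∀ a ∈ maximalIdeal A, a • t = 0 := by
  rw [isFiniteLength_iff_isNoetherian_isArtinian] at hX
  obtain ⟨_, _⟩ := hX
  obtain ⟨S, hS, hSN⟩ := (eq_bot_or_exists_atom_le N).resolve_left hN
  obtain ⟨t, htS, ht0⟩ := Submodule.exists_mem_ne_zero_of_ne_bot hS.1
  refine ⟨t, hSN htS, ht0, fun a ha => ?_⟩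
  by_contra hat
  have h1 : Submodule.span A {a • t} ≤ S := by
    rw [Submodule.span_singleton_le_iff_mem]
    exact S.smul_mem a htS
  have h2 : Submodule.span A {a • t} = S := by
    rcases hS.le_iff.1 h1 with h | h
    · exact absurd ((Submodule.span_singleton_eq_bot).1 h) hat
    · exact h
  have h3 : t ∈ Submodule.span A {a • t} := by rw [h2]; exact htS
  obtain ⟨b, hb⟩ := Submodule.mem_span_singleton.1 h3
  have h4 : (1 - b * a) • t = 0 := by
    rw [sub_smul, one_smul, mul_smul, hb, sub_self]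
  have h5 : IsUnit (1 - b * a) := by
    have : b * a ∈ maximalIdeal A := Ideal.mul_mem_left _ _ ha
    exact IsLocalRing.isUnit_one_sub_self_of_mem_nonunits _ this
  exact ht0 (h5.smul_eq_zero.1 h4)

omit [HasExt.{0} (ModuleCat.{0} A)] [IsNoetherianRing A] in
/-- the map from the residue field given by an element killed by the maximal ideal -/
theorem b4_hom {M : Type} [AddCommGroup M] [Module A M] {t : M}
    (ht : ∀ a ∈ maximalIdeal A, a • t = 0) :
    ∃ φ : ResidueField A →ₗ[A] M, φ 1 = t := by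
  refine ⟨Submodule.liftQ (maximalIdeal A) (LinearMap.toSpanSingleton A M t) ?_, ?_⟩
  · intro a ha
    rw [LinearMap.mem_ker, LinearMap.toSpanSingleton_apply]
    exact ht a ha
  · have := Submodule.liftQ_apply (maximalIdeal A) (LinearMap.toSpanSingleton A M t)
      (h := fun a ha => by
        rw [LinearMap.mem_ker, LinearMap.toSpanSingleton_apply]; exact ht a ha) (1 : A)
    exact this.trans (by rw [LinearMap.toSpanSingleton_apply, one_smul])

omit [HasExt.{0} (ModuleCat.{0} A)] [IsNoetherianRing A] in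
theorem b4_hom_ext {M : Type} [AddCommGroup M] [Module A M]
    {φ ψ : ResidueField A →ₗ[A] M} (h : φ 1 = ψ 1) : φ = ψ := by
  ext x
  obtain ⟨a, rfl⟩ := IsLocalRing.residue_surjective x
  have : residue A a = a • (1 : ResidueField A) := by
    rw [Algebra.smul_def, mul_one]; rfl
  rw [this, map_smul, map_smul, h]

omit [HasExt.{0} (ModuleCat.{0} A)] [IsNoetherianRing A] in
/-- if `Hom(κ,M) ≅ κ` then the socle of `M` is one-dimensional -/
theorem b4_one {M : Type} [AddCommGroup M] [Module A M]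
    (e : (ResidueField A →ₗ[A] M) ≃ₗ[A] ResidueField A) :
    (∃ s : M, s ≠ 0 ∧ ∀ a ∈ maximalIdeal A, a • s = 0) ∧
    ∀ s t : M, s ≠ 0 → (∀ a ∈ maximalIdeal A, a • s = 0) →
      (∀ a ∈ maximalIdeal A, a • t = 0) → ∃ a : A, t = a • s := by
  constructor
  · refine ⟨e.symm 1 1, fun h => ?_, fun a ha => ?_⟩
    · have h1 : e.symm 1 = 0 := b4_hom_ext (by rw [h]; rfl)
      have h2 : (1 : ResidueField A) = 0 := by
        rw [← e.apply_symm_apply 1, h1, map_zero]
      exact one_ne_zero h2
    · rw [← map_smul]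
      have : a • (1 : ResidueField A) = 0 := by
        rw [Algebra.smul_def, mul_one]
        exact (IsLocalRing.residue_eq_zero_iff a).2 ha
      rw [this, map_zero]
  · intro s t hs hsm htm
    obtain ⟨φ, hφ⟩ := b4_hom hsm
    obtain ⟨ψ, hψ⟩ := b4_hom htm
    have h1 : e φ ≠ 0 := by
      intro h
      have : φ = 0 := by
        apply e.injective
        rw [h, map_zero]
      apply hs
      rw [← hφ, this]; rfl
    obtain ⟨a, ha⟩ := IsLocalRing.residue_surjective (e ψ / e φ)
    refine ⟨a, ?_⟩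
    have h2 : a • e φ = e ψ := by
      have : a • e φ = residue A a * e φ := by
        rw [Algebra.smul_def]; rfl
      rw [this, ha, div_mul_cancel₀ _ h1]
    have h3 : a • φ = ψ := by
      apply e.injective
      rw [map_smul, h2]
    rw [← hψ, ← h3, ← hφ]; rfl

section dualpart

variable {k B : Type} [Field k] [CommRing B] [Algebra k B]

omit [HasExt.{0} (ModuleCat.{0} A)] [IsNoetherianRing A] [IsLocalRing A] in
theorem b4_finite_Du [Module.Finite k B] : Module.Finite k (Du k B) := by
  let e : (B →ₗ[k] k) ≃ₗ[k] Du k B :=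
    { toFun := Du.mk
      map_add' := fun f g => rfl
      map_smul' := fun c f => by
        ext x
        rw [Du.fn_ksmul]
        rfl
      invFun := Du.fn
      left_inv := fun f => rfl
      right_inv := fun f => rfl }
  exact Module.Finite.equiv e

variable [Algebra A B] {M : Type} [AddCommGroup M] [Module A M] [Module B M]
  [IsScalarTower A B M]

omit [HasExt.{0} (ModuleCat.{0} A)] [IsNoetherianRing A] [IsLocalRing A] in
/-- the map to the dual module given by a functional -/
theorem b4_phi (s : M) (hs : s ≠ 0) :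
    ∃ Φ : M →ₗ[A] Du k B, (Φ s).fn 1 ≠ 0 := by
  let _ : Module k M := Module.compHom M (algebraMap k B)
  have : IsScalarTower k B M := ⟨fun c b m => by
    change (c • b) • m = algebraMap k B c • (b • m)
    rw [Algebra.smul_def, mul_smul]⟩
  have h1 : ∃ l : Module.Dual k M, l s ≠ 0 := by
    by_contra h
    push Not at h
    exact hs ((Module.forall_dual_apply_eq_zero_iff k s).1 h)
  obtain ⟨l, hl⟩ := h1
  refine ⟨{ toFun := fun m => Du.mk
              { toFun := fun x => l (x • m)
                map_add' := fun x y => by rw [add_smul, map_add]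
                map_smul' := fun c x => by rw [smul_assoc, map_smul, RingHom.id_apply] }
            map_add' := fun x y => ?_
            map_smul' := fun a x => ?_ }, ?_⟩
  · ext b
    rw [Du.fn_add]
    change l (b • (x + y)) = l (b • x) + l (b • y)
    rw [smul_add, map_add]
  · ext b
    rw [RingHom.id_apply, Du.fn_smul]
    change l (b • a • x) = l ((a • b) • x)
    rw [smul_assoc]
    congr 1
    have : a • x = (algebraMap A B a) • x := by rw [algebraMap_smul]
    rw [this, ← mul_smul, mul_comm, mul_smul, algebraMap_smul]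
  · change l ((1 : B) • s) ≠ 0
    rwa [one_smul]

end dualpart

theorem dual_iso (rs : List A) (hm : ∀ r ∈ rs, r ∈ maximalIdeal A) (hw : IsWeaklyRegular A rs)
    {k : Type} [Field k] [Algebra k (A ⧸ Ideal.ofList rs)]
    [Module.Finite k (A ⧸ Ideal.ofList rs)]
    (hk : ∀ r : A ⧸ Ideal.ofList rs, ∃ c : k, ¬ IsUnit (r - algebraMap k _ c))
    {ω : Type} [AddCommGroup ω] [Module A ω] [Module.Finite A ω]
    (xs : List A) (hxm : ∀ x ∈ xs, x ∈ maximalIdeal A) (hxw : IsWeaklyRegular ω xs)
    (hxl : xs.length = rs.length)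
    (hx1 : Nonempty ((ResidueField A →ₗ[A] (ω ⧸ (Ideal.ofList xs • (⊤ : Submodule A ω))))
          ≃ₗ[A] ResidueField A))
    (hinj : ∃ n : ℕ, ∀ i : ℕ, n < i → EZ A (ResidueField A) ω i) :
    IsWeaklyRegular ω rs ∧
    Nonempty ((ω ⧸ (Ideal.ofList rs • (⊤ : Submodule A ω))) ≃ₗ[A]
      Du k (A ⧸ Ideal.ofList rs)) := by
  have hkill : ∀ a ∈ maximalIdeal A, ∀ y : ResidueField A, a • y = 0 := by
    intro a ha y
    rw [Algebra.smul_def]
    have : algebraMap A (ResidueField A) a = 0 := (IsLocalRing.residue_eq_zero_iff a).2 ha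
    rw [this, zero_mul]
  have hfinR : IsFiniteLength A (A ⧸ Ideal.ofList rs) := finiteLength_of_algebra rs (k := k)
  have hV : ∀ i, i < rs.length → EZ A (ResidueField A) ω i := fun i hi =>
    ez_depth xs hxw (fun r hr => hkill r (hxm r hr)) (by rw [hxl]; exact hi)
  have hwω : IsWeaklyRegular ω rs := weaklyRegular_transfer rs hm hw hfinR hV
  refine ⟨hwω, ?_⟩
  -- `Hom(κ, ω/rsω) ≅ κ`
  obtain ⟨e1⟩ := hom_equiv_ext (X := ResidueField A) rs hwω (fun r hr => hkill r (hm r hr))
  obtain ⟨e2⟩ := hom_equiv_ext (X := ResidueField A) xs hxw (fun r hr => hkill r (hxm r hr))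
  obtain ⟨e3⟩ := hx1
  rw [hxl] at e2
  have e : (ResidueField A →ₗ[A] (ω ⧸ (Ideal.ofList rs • (⊤ : Submodule A ω)))) ≃ₗ[A]
      ResidueField A := e1.trans (e2.symm.trans e3)
  obtain ⟨⟨s, hs0, hsm⟩, hone⟩ := b4_one e
  -- finite length
  have hfinW : IsFiniteLength A (ω ⧸ (Ideal.ofList rs • (⊤ : Submodule A ω))) := by
    have : Module.Finite (A ⧸ Ideal.ofList rs) (ω ⧸ (Ideal.ofList rs • (⊤ : Submodule A ω))) :=
      Module.Finite.of_restrictScalars_finite A _ _
    exact finiteLength_of_algebra rs (k := k)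
  have : Module.Finite k (Du k (A ⧸ Ideal.ofList rs)) := b4_finite_Du
  have hfinD : IsFiniteLength A (Du k (A ⧸ Ideal.ofList rs)) := by
    have : Module.Finite (A ⧸ Ideal.ofList rs) (Du k (A ⧸ Ideal.ofList rs)) :=
      Module.Finite.of_restrictScalars_finite k _ _
    exact finiteLength_of_algebra rs (k := k)
  -- the map
  obtain ⟨Φ, hΦ⟩ := b4_phi (A := A) (k := k) (B := A ⧸ Ideal.ofList rs) s hs0
  have hinjΦ : Function.Injective Φ := by
    rw [← LinearMap.ker_eq_bot]
    by_contra hN
    obtain ⟨t, htN, ht0, htm⟩ := b4_socle hfinW hN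
    obtain ⟨a, rfl⟩ := hone t s ht0 htm hsm
    rw [LinearMap.mem_ker] at htN
    rw [map_smul, htN, smul_zero] at hΦ
    exact hΦ rfl
  have hcoker : IsFiniteLength A (Du k (A ⧸ Ideal.ofList rs) ⧸ LinearMap.range Φ) :=
    hfinD.of_surjective (f := (LinearMap.range Φ).mkQ) (Submodule.mkQ_surjective _)
  have hZ : EZ A (Du k (A ⧸ Ideal.ofList rs) ⧸ LinearMap.range Φ) ω (rs.length + 1) :=
    ez_finiteLength (ez_top rs hm hw hfinR hinj _ (Nat.lt_succ_self _)) hcoker
  have hBk : ∀ r ∈ rs, ∀ b : A ⧸ Ideal.ofList rs, r • b = 0 := by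
    intro r hr b
    obtain ⟨b, rfl⟩ := Ideal.Quotient.mk_surjective b
    have h0 : (Ideal.Quotient.mk (Ideal.ofList rs)) r = 0 :=
      Ideal.Quotient.eq_zero_iff_mem.2 (Ideal.subset_span hr)
    rw [Algebra.smul_def, Ideal.Quotient.algebraMap_eq, h0, zero_mul]
  have hXk : ∀ r ∈ rs, ∀ x : ω ⧸ (Ideal.ofList rs • (⊤ : Submodule A ω)), r • x = 0 := by
    intro r hr x
    obtain ⟨x, rfl⟩ := Submodule.mkQ_surjective _ x
    rw [← map_smul, Submodule.mkQ_apply, Submodule.Quotient.mk_eq_zero]
    exact Submodule.smul_mem_smul (Ideal.subset_span hr) Submodule.mem_top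
  have hYk : ∀ r ∈ rs, ∀ y : Du k (A ⧸ Ideal.ofList rs), r • y = 0 := by
    intro r hr y
    ext b
    rw [Du.fn_smul, hBk r hr, map_zero, Du.fn_zero]
  obtain ⟨v, hv⟩ := surj_hom rs hwω Φ (LinearMap.range Φ).mkQ hinjΦ (Submodule.mkQ_surjective _)
    (LinearMap.exact_map_mkQ_range Φ) hXk hYk hZ LinearMap.id
  have hv' : ∀ x, v (Φ x) = x := fun x => LinearMap.congr_fun hv x
  have hinjv : Function.Injective v := by
    rw [← LinearMap.ker_eq_bot]
    by_contra hN
    obtain ⟨t, htN, ht0, htm⟩ := b4_socle hfinD hN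
    rw [LinearMap.mem_ker] at htN
    -- elements killed by `m` are determined by the value at one
    have hB : ∀ b : A ⧸ Ideal.ofList rs, ∃ c : k, ∀ f : Du k (A ⧸ Ideal.ofList rs),
        (∀ a ∈ maximalIdeal A, a • f = 0) → f.fn b = c * f.fn 1 := by
      intro b
      obtain ⟨c, hc⟩ := hk b
      refine ⟨c, fun f hf => ?_⟩
      obtain ⟨a, ha⟩ := Ideal.Quotient.mk_surjective (b - algebraMap k _ c)
      have ham : a ∈ maximalIdeal A := by
        rw [mem_maximalIdeal, mem_nonunits_iff]
        intro hu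
        apply hc
        rw [← ha]
        exact hu.map _
      have h1 : b = c • (1 : A ⧸ Ideal.ofList rs) + a • (1 : A ⧸ Ideal.ofList rs) := by
        rw [Algebra.smul_def, Algebra.smul_def, mul_one, mul_one, Ideal.Quotient.algebraMap_eq,
          ha]
        ring
      have h2 : f.fn (a • (1 : A ⧸ Ideal.ofList rs)) = 0 := by
        rw [← Du.fn_smul, hf a ham, Du.fn_zero]
      rw [h1, map_add, h2, add_zero, map_smul, smul_eq_mul]
    have hΦm : ∀ a ∈ maximalIdeal A, a • Φ s = 0 := fun a ha => by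
      rw [← map_smul, hsm a ha, map_zero]
    obtain ⟨a, ha⟩ := Ideal.Quotient.mk_surjective
      (algebraMap k (A ⧸ Ideal.ofList rs) (t.fn 1 / (Φ s).fn 1))
    have h3 : t = a • Φ s := by
      ext b
      obtain ⟨c, hc⟩ := hB b
      have h4 : a • b = (t.fn 1 / (Φ s).fn 1) • b := by
        rw [Algebra.smul_def, Algebra.smul_def, Ideal.Quotient.algebraMap_eq, ha]
      rw [Du.fn_smul, h4, map_smul, hc t htm, hc (Φ s) hΦm, smul_eq_mul]
      field_simp
    apply ht0
    have h5 : a • s = 0 := by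
      rw [← hv' s, ← map_smul, ← h3, htN]
    rw [h3, ← map_smul, h5, map_zero]
  refine ⟨LinearEquiv.ofBijective Φ ⟨hinjΦ, fun y => ⟨v y, hinjv (hv' _)⟩⟩⟩

end B4

end Pool.Agent.Tach
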