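import Mathlib

/-! # MP_cd91b4_al, Balance.lean -/

namespace Pool.Agent.Tach

open TensorProduct Module

section balance

variable {R : Type} [CommRing R]

/-- `Tor₁(M,X)=0` computed on either side -/
theorem balance {M' F M Y G X : Type} [AddCommGroup M'] [Module R M'] [AddCommGroup F] [Module R F]
    [AddCommGroup M] [Module R M] [AddCommGroup Y] [Module R Y] [AddCommGroup G] [Module R G]
    [AddCommGroup X] [Module R X] [Module.Flat R F] [Module.Flat R G]
    (ι : M' →ₗ[R] F) (π : F →ₗ[R] M) (hι : Function.Injective ι) (hπ : Function.Surjective π)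
    (e1 : Function.Exact ι π) (κ : Y →ₗ[R] G) (ρ : G →ₗ[R] X) (hκ : Function.Injective κ)
    (hρ : Function.Surjective ρ) (e2 : Function.Exact κ ρ)
    (h : Function.Injective (TensorProduct.map ι (LinearMap.id : X →ₗ[R] X))) :
    Function.Injective (TensorProduct.map (LinearMap.id : M →ₗ[R] M) κ) := by
  rw [injective_iff_map_eq_zero]
  intro z hz
  -- lift to F ⊗ Y
  obtain ⟨z1, rfl⟩ := LinearMap.rTensor_surjective Y hπ z
  -- commuting squares
  have sq : ∀ {A B C D : Type} [AddCommGroup A] [Module R A] [AddCommGroup B] [Module R B]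
      [AddCommGroup C] [Module R C] [AddCommGroup D] [Module R D] (f : A →ₗ[R] B) (g : C →ₗ[R] D)
      (x : A ⊗[R] C), LinearMap.lTensor B g (LinearMap.rTensor C f x) =
        LinearMap.rTensor D f (LinearMap.lTensor A g x) := by
    intro A B C D _ _ _ _ _ _ _ _ f g x
    rw [← LinearMap.comp_apply, ← LinearMap.comp_apply, LinearMap.lTensor_comp_rTensor,
      LinearMap.rTensor_comp_lTensor]
  have hz' : LinearMap.rTensor G π (LinearMap.lTensor F κ z1) = 0 := by
    rw [← sq]
    exact hz
  obtain ⟨w, hw⟩ := (rTensor_exact G e1 hπ _).1 hz'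
  have h1 : LinearMap.rTensor X ι (LinearMap.lTensor M' ρ w) = 0 := by
    rw [← sq, hw]
    have := (lTensor_exact F e2 hρ).apply_apply_eq_zero z1
    exact this
  have h2 : LinearMap.lTensor M' ρ w = 0 := by
    apply h
    rw [map_zero]
    exact h1
  obtain ⟨v, hv⟩ := (lTensor_exact M' e2 hρ _).1 h2
  have h3 : LinearMap.lTensor F κ z1 = LinearMap.lTensor F κ (LinearMap.rTensor Y ι v) := by
    rw [sq, hv, hw]
  have h4 : z1 = LinearMap.rTensor Y ι v :=
    Module.Flat.lTensor_preserves_injective_linearMap κ hκ h3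
  rw [h4]
  exact (rTensor_exact Y e1 hπ).apply_apply_eq_zero v

/-- from `Tor₁(M_a,M_0)=0`, `a ≤ m`, to `Tor₁(M_a,M_b)=0`, `a+b ≤ m`
(induction on `b`; `Tor₁(M_{a+1},M_b)=0 → Tor₁(M_a,M_{b+1})=0` by `balance` and flatness of `F b`) -/
theorem T_all (M F : ℕ → Type) [∀ n, AddCommGroup (M n)] [∀ n, Module R (M n)]
    [∀ n, AddCommGroup (F n)] [∀ n, Module R (F n)] [∀ n, Module.Flat R (F n)]
    (ι : ∀ n, M (n + 1) →ₗ[R] F n) (π : ∀ n, F n →ₗ[R] M n)
    (hι : ∀ n, Function.Injective (ι n)) (hπ : ∀ n, Function.Surjective (π n))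
    (he : ∀ n, Function.Exact (ι n) (π n)) (m : ℕ)
    (h : ∀ a, a ≤ m → Function.Injective (TensorProduct.map (ι a) (LinearMap.id : M 0 →ₗ[R] M 0))) :
    ∀ b a, a + b ≤ m →
      Function.Injective (TensorProduct.map (ι a) (LinearMap.id : M b →ₗ[R] M b)) := by
  intro b
  induction b with
  | zero => intro a ha; exact h a ha
  | succ b ih =>
    intro a ha
    have h1 := balance (ι (a + 1)) (π (a + 1)) (hι _) (hπ _) (he _) (ι b) (π b) (hι _) (hπ _)
      (he _) (ih (a + 1) (by omega))
    have h2 : Function.Injective (LinearMap.rTensor (F b) (ι a)) :=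
      Module.Flat.rTensor_preserves_injective_linearMap (ι a) (hι a)
    have h3 : Function.Injective ((LinearMap.rTensor (F b) (ι a)) ∘ₗ
        (LinearMap.lTensor (M (a + 1)) (ι b))) := h2.comp h1
    rw [LinearMap.rTensor_comp_lTensor, ← LinearMap.lTensor_comp_rTensor] at h3
    exact Function.Injective.of_comp h3

theorem T_swap {N F X : Type} [AddCommGroup N] [Module R N] [AddCommGroup F] [Module R F]
    [AddCommGroup X] [Module R X] (ι : N →ₗ[R] F)
    (h : Function.Injective (TensorProduct.map ι (LinearMap.id : X →ₗ[R] X))) :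
    Function.Injective (TensorProduct.map (LinearMap.id : X →ₗ[R] X) ι) := by
  have h1 : TensorProduct.map (LinearMap.id : X →ₗ[R] X) ι =
      (TensorProduct.comm R F X).toLinearMap ∘ₗ (TensorProduct.map ι (LinearMap.id : X →ₗ[R] X)) ∘ₗ
        (TensorProduct.comm R X N).toLinearMap := by
    ext x y
    simp
  rw [h1]
  exact (TensorProduct.comm R F X).injective.comp (h.comp (TensorProduct.comm R X N).injective)

end balance

end Pool.Agent.Tach
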