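import Mathlib

/-! # The dual module `Hom_k(R,k)` -/

namespace Pool.Agent.Tach

open CategoryTheory

/-- `Ext^j_A(X,V) = 0`. -/
def EZ (A : Type) [CommRing A] [HasExt.{0} (ModuleCat.{0} A)] (X V : Type) [AddCommGroup X]
    [Module A X] [AddCommGroup V] [Module A V] (j : ℕ) : Prop :=
  Subsingleton (Abelian.Ext (ModuleCat.of A X) (ModuleCat.of A V) j)

/-- The dual module `Hom_k(R,k)`; every `R`-algebra source `A` acts by `(a • f) x = f (a • x)`. -/
def Du (k R : Type) [Field k] [CommRing R] [Algebra k R] : Type := R →ₗ[k] k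

section

variable {k R : Type} [Field k] [CommRing R] [Algebra k R]

instance : AddCommGroup (Du k R) := inferInstanceAs (AddCommGroup (R →ₗ[k] k))

/-- The underlying functional. -/
def Du.fn (f : Du k R) : R →ₗ[k] k := f

/-- Build an element from a functional. -/
def Du.mk (f : R →ₗ[k] k) : Du k R := f

@[simp] theorem Du.fn_mk (f : R →ₗ[k] k) : (Du.mk f : Du k R).fn = f := rfl
@[simp] theorem Du.mk_fn (f : Du k R) : Du.mk f.fn = f := rfl
@[simp] theorem Du.fn_add (f g : Du k R) (x : R) : (f + g).fn x = f.fn x + g.fn x := rfl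
@[simp] theorem Du.fn_zero (x : R) : (0 : Du k R).fn x = 0 := rfl
@[simp] theorem Du.fn_neg (f : Du k R) (x : R) : (-f).fn x = -f.fn x := rfl
@[simp] theorem Du.fn_sub (f g : Du k R) (x : R) : (f - g).fn x = f.fn x - g.fn x := rfl

@[ext] theorem Du.ext {f g : Du k R} (h : ∀ x, f.fn x = g.fn x) : f = g :=
  LinearMap.ext (f := f.fn) (g := g.fn) h

variable {A : Type} [CommRing A] [Algebra A R]

instance : SMul A (Du k R) where
  smul a f := Du.mk (f.fn ∘ₗ LinearMap.mulLeft k (algebraMap A R a))

@[simp] theorem Du.fn_smul (a : A) (f : Du k R) (x : R) : (a • f).fn x = f.fn (a • x) := by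
  rw [Algebra.smul_def]; rfl

instance : Module A (Du k R) where
  one_smul f := by ext x; simp
  mul_smul a b f := by ext x; simp [mul_comm a b, mul_smul]
  smul_zero a := by ext x; simp
  smul_add a f g := by ext x; simp
  add_smul a b f := by ext x; simp [add_smul]
  zero_smul f := by ext x; simp

instance {B : Type} [CommRing B] [Algebra B R] [Algebra A B] [IsScalarTower A B R] :
    IsScalarTower A B (Du k R) where
  smul_assoc a b f := by
    ext x
    simp only [Du.fn_smul, smul_assoc]
    congr 1
    rw [← smul_comm]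

theorem Du.fn_ksmul (c : k) (f : Du k R) (x : R) : (c • f).fn x = c * f.fn x := by
  rw [Du.fn_smul, map_smul, smul_eq_mul]

end

end Pool.Agent.Tach
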