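import Pool.Agent.Work.MP_cd91b4_al.Stage
import Pool.Agent.Work.MP_cd91b4_al.Du

/-! # The dual module: Tor vanishing and grading -/

namespace Pool.Agent.Tach

open TensorProduct Module

section dual

variable {k R : Type} [Field k] [CommRing R] [Algebra k R] [Module.Finite k R]

variable (k R) in
/-- `Du k R` as a vector space is the dual. -/
noncomputable def duEquiv : Du k R ≃ₗ[k] Module.Dual k R where
  toFun f := f.fn
  invFun f := Du.mk f
  map_add' _ _ := rfl
  map_smul' c f := by
    refine LinearMap.ext fun x => ?_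
    rw [Du.fn_ksmul]
    rfl
  left_inv _ := rfl
  right_inv _ := rfl

theorem finrank_Du : finrank k (Du k R) = finrank k R := by
  rw [(duEquiv k R).finrank_eq]
  exact Subspace.dual_finrank_eq

instance : Module.Finite k (Du k R) := Module.Finite.equiv (duEquiv k R).symm

/-- Functionals on `Du k R` are evaluations. -/
theorem exists_eval (μ : Du k R →ₗ[k] k) : ∃ r : R, ∀ f : Du k R, μ f = f.fn r := by
  obtain ⟨r, hr⟩ := (Module.evalEquiv k R).surjective (μ ∘ₗ (duEquiv k R).symm)
  refine ⟨r, fun f => ?_⟩
  have := LinearMap.congr_fun hr (f.fn)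
  rw [Module.evalEquiv_apply] at this
  exact this.symm

theorem eval_unique {r s : R} (h : ∀ f : Du k R, f.fn r = f.fn s) : r = s := by
  apply (Module.evalEquiv k R).injective
  refine LinearMap.ext fun f => ?_
  exact h (Du.mk f)

/-- If every map `X → R` extends to `F → R` then `X ⊗ Hom_k(R,k) → F ⊗ Hom_k(R,k)` is injective. -/
theorem dual_T {X F : Type} [AddCommGroup X] [Module R X] [AddCommGroup F] [Module R F]
    (ι : X →ₗ[R] F) (h : ∀ u : X →ₗ[R] R, ∃ v : F →ₗ[R] R, ∀ x, v (ι x) = u x) :
    Function.Injective (TensorProduct.map ι (LinearMap.id : Du k R →ₗ[R] Du k R)) := by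
  rw [injective_iff_map_eq_zero]
  intro z hz
  by_contra hne
  -- `k`-structures
  let : Module k (X ⊗[R] Du k R) := Module.compHom _ (algebraMap k R)
  have : IsScalarTower k R (X ⊗[R] Du k R) := IsScalarTower.of_algebraMap_smul fun _ _ => rfl
  obtain ⟨lam, hlam⟩ : ∃ lam : X ⊗[R] Du k R →ₗ[k] k, lam z ≠ 0 := by
    by_contra hcon
    push Not at hcon
    exact hne ((Module.forall_dual_apply_eq_zero_iff k z).1 hcon)
  -- the map `g : X → R`
  have ev : ∀ x : X, ∃ r : R, ∀ f : Du k R, lam (x ⊗ₜ f) = f.fn r := by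
    intro x
    refine exists_eval
      { toFun := fun f => lam (x ⊗ₜ f)
        map_add' := fun f g => by rw [TensorProduct.tmul_add, map_add]
        map_smul' := fun c f => ?_ }
    rw [← algebraMap_smul R c f, TensorProduct.tmul_smul, RingHom.id_apply, ← map_smul]
    rw [algebraMap_smul]
  choose g hg using ev
  let u : X →ₗ[R] R :=
    { toFun := g
      map_add' := fun x y => eval_unique (k := k) fun f => by
        rw [← hg, TensorProduct.add_tmul, map_add, hg, hg, map_add]
      map_smul' := fun r x => eval_unique (k := k) fun f => by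
        rw [← hg, TensorProduct.smul_tmul, hg, Du.fn_smul]
        rfl }
  obtain ⟨v, hv⟩ := h u
  -- the functional on `F ⊗ Du`
  let Λ : F ⊗[R] Du k R →+ k := TensorProduct.liftAddHom
    { toFun := fun y =>
        { toFun := fun f => f.fn (v y)
          map_zero' := rfl
          map_add' := fun _ _ => rfl }
      map_zero' := by ext f; simp
      map_add' := fun a b => by ext f; simp }
    (fun r y f => by simp)
  have hΛ : ∀ w : X ⊗[R] Du k R, Λ (TensorProduct.map ι LinearMap.id w) = lam w := by
    intro w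
    induction w using TensorProduct.induction_on with
    | zero => simp
    | add a b ha hb => rw [map_add, map_add, ha, hb, map_add]
    | tmul x f =>
      rw [TensorProduct.map_tmul, hg]
      change f.fn (v (ι x)) = _
      rw [hv]
      rfl
  apply hlam
  rw [← hΛ, hz, map_zero]

variable (𝒜 : ℕ → Submodule k R) [GradedAlgebra 𝒜]

/-- The grading of the dual: `(P j f) x = f (piR (c - j) x)`. -/
noncomputable def dP (c j : ℕ) : Du k R →ₗ[k] Du k R where
  toFun f := if j ≤ c then Du.mk (f.fn ∘ₗ piR 𝒜 (c - j)) else 0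
  map_add' f g := by
    split_ifs
    · ext x; rfl
    · rw [add_zero]
  map_smul' a f := by
    split_ifs
    · ext x
      rw [RingHom.id_apply, Du.fn_ksmul]
      change (a • f).fn _ = _
      rw [Du.fn_ksmul]
      rfl
    · rw [smul_zero]

omit [Module.Finite k R] in
theorem dP_apply {c j : ℕ} (h : j ≤ c) (f : Du k R) (x : R) :
    (dP 𝒜 c j f).fn x = f.fn (piR 𝒜 (c - j) x) := by
  change (if j ≤ c then Du.mk (f.fn ∘ₗ piR 𝒜 (c - j)) else 0 : Du k R).fn x = _
  rw [if_pos h]
  rfl

omit [Module.Finite k R] in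
theorem dP_zero {c j : ℕ} (h : ¬ j ≤ c) (f : Du k R) : dP 𝒜 c j f = 0 := by
  change (if j ≤ c then Du.mk (f.fn ∘ₗ piR 𝒜 (c - j)) else 0 : Du k R) = 0
  rw [if_neg h]

omit [Module.Finite k R] in
theorem dP_isGrMod {c : ℕ} (hc : ∀ i, c < i → 𝒜 i = ⊥) :
    IsGrMod 𝒜 (M := Du k R) (dP 𝒜 c) where
  orth := by
    intro i j f
    have hR := piR_isGrMod 𝒜 hc
    by_cases hi : i ≤ c
    · ext x
      rw [dP_apply 𝒜 hi]
      by_cases hj : j ≤ c
      · rw [dP_apply 𝒜 hj, hR.orth]
        split_ifs with h1 h2 h2
        · rw [dP_apply 𝒜 hi, h1]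
        · exfalso; omega
        · exfalso; omega
        · rw [map_zero, Du.fn_zero]
      · rw [dP_zero 𝒜 hj, if_neg (by omega), Du.fn_zero, Du.fn_zero]
    · rw [dP_zero 𝒜 hi, dP_zero 𝒜 hi, ite_self]
  tot := by
    refine ⟨c, fun j hj => ?_, fun f => ?_⟩
    · refine LinearMap.ext fun f => ?_
      rw [dP_zero 𝒜 (by omega), LinearMap.zero_apply]
    · ext x
      have hR := (piR_isGrMod 𝒜 hc)
      have h0 : ∀ j, c < j → piR 𝒜 j = 0 := by
        intro j hj
        refine LinearMap.ext fun r => ?_
        have := piR_mem 𝒜 j r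
        rw [hc j hj, Submodule.mem_bot] at this
        exact this
      obtain ⟨N, hN⟩ := hR.toIsGr.sum_large
      have hx : ∑ j ∈ Finset.range (c + 1), piR 𝒜 j x = x := by
        conv_rhs => rw [← hN (max c N) (le_max_right _ _) x]
        have hsub : Finset.range (c + 1) ⊆ Finset.range (max c N + 1) :=
          Finset.range_mono (Nat.succ_le_succ (le_max_left c N))
        refine Finset.sum_subset (f := fun j => piR 𝒜 j x) hsub fun j _ hj => ?_
        rw [h0 j (by simpa using hj)]
        rfl
      have e : (∑ j ∈ Finset.range (c + 1), dP 𝒜 c j f).fn x =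
          ∑ j ∈ Finset.range (c + 1), (dP 𝒜 c j f).fn x := by
        let ev : Du k R →+ k :=
          { toFun := fun f => f.fn x
            map_zero' := rfl
            map_add' := fun _ _ => rfl }
        exact map_sum ev _ _
      rw [e]
      have e2 : ∀ j ∈ Finset.range (c + 1), (dP 𝒜 c j f).fn x = f.fn (piR 𝒜 (c - j) x) := by
        intro j hj
        rw [dP_apply 𝒜 (by rw [Finset.mem_range] at hj; omega)]
      rw [Finset.sum_congr rfl e2, ← map_sum]
      have e3 : ∑ j ∈ Finset.range (c + 1), piR 𝒜 (c - j) x = x := by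
        have h1 := Finset.sum_range_reflect (fun j => piR 𝒜 j x) (c + 1)
        simp only [Nat.add_sub_cancel] at h1
        rw [h1]
        exact hx
      rw [e3]
  smul := by
    intro d r hr j f
    have hR := piR_isGrMod 𝒜 hc
    by_cases hj : j ≤ c
    · split_ifs with hd
      · ext x
        rw [dP_apply 𝒜 hj, Du.fn_smul, Du.fn_smul, dP_apply 𝒜 (by omega), hR.smul d r hr,
          if_pos (by omega), show c - (j - d) - d = c - j by omega]
      · ext x
        rw [dP_apply 𝒜 hj, Du.fn_smul]
        have h1 : r • piR 𝒜 (c - j) x ∈ 𝒜 (d + (c - j)) :=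
          SetLike.GradedMul.mul_mem hr (piR_mem 𝒜 _ x)
        rw [hc _ (by omega), Submodule.mem_bot] at h1
        rw [h1, map_zero, Du.fn_zero]
    · rw [dP_zero 𝒜 hj]
      split_ifs with hd
      · by_cases hjd : j - d ≤ c
        · ext x
          rw [Du.fn_smul, dP_apply 𝒜 hjd, hR.smul d r hr, if_neg (by omega), map_zero,
            Du.fn_zero]
        · rw [dP_zero 𝒜 hjd, smul_zero]
      · rfl

end dual

end Pool.Agent.Tach
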