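import Mathlib

/-! # MP_cd91b4_al, Series.lean (purely numerical) -/

namespace Pool.Agent.Tach

section series

open PowerSeries in
/-- generating series of a sequence of natural numbers -/
noncomputable def se_ser (f : ℕ → ℕ) : ℤ⟦X⟧ := PowerSeries.mk fun j => (f j : ℤ)

theorem se_coeff (f : ℕ → ℕ) (j : ℕ) : PowerSeries.coeff j (se_ser f) = (f j : ℤ) :=
  PowerSeries.coeff_mk _ _

theorem se_coeff_mul (f g : ℕ → ℕ) (j : ℕ) :
    PowerSeries.coeff j (se_ser f * se_ser g) =
      ((∑ p ∈ Finset.HasAntidiagonal.antidiagonal j, f p.1 * g p.2 : ℕ) : ℤ) := by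
  rw [PowerSeries.coeff_mul]
  push_cast
  simp only [se_coeff]

/-- the polynomial of a sequence vanishing above `N` -/
noncomputable def se_pol (N : ℕ) (f : ℕ → ℕ) : Polynomial ℤ :=
  ∑ j ∈ Finset.range (N + 1), Polynomial.monomial j (f j : ℤ)

theorem se_pol_coeff (N : ℕ) (f : ℕ → ℕ) (j : ℕ) :
    (se_pol N f).coeff j = if j ≤ N then (f j : ℤ) else 0 := by
  rw [se_pol, Polynomial.finsetSum_coeff]
  simp only [Polynomial.coeff_monomial]
  rw [Finset.sum_ite_eq']
  simp

theorem se_pol_coe (N : ℕ) (f : ℕ → ℕ) (hf : ∀ j, N < j → f j = 0) :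
    ((se_pol N f : Polynomial ℤ) : PowerSeries ℤ) = se_ser f := by
  ext j
  rw [Polynomial.coeff_coe, se_pol_coeff, se_ser, PowerSeries.coeff_mk]
  split_ifs with h
  · rfl
  · rw [hf j (by omega)]
    rfl

theorem se_pol_deg (N : ℕ) (f : ℕ → ℕ) : (se_pol N f).natDegree ≤ N := by
  rw [Polynomial.natDegree_le_iff_coeff_eq_zero]
  intro j hj
  rw [se_pol_coeff, if_neg (by omega)]

theorem se_pol_eval (N : ℕ) (f : ℕ → ℕ) :
    (se_pol N f).eval 1 = ((∑ j ∈ Finset.range (N + 1), f j : ℕ) : ℤ) := by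
  rw [se_pol, Polynomial.eval_finsetSum]
  push_cast
  refine Finset.sum_congr rfl fun j _ => ?_
  rw [Polynomial.eval_monomial]
  simp

theorem se_expand_coe (p : Polynomial ℤ) :
    ((Polynomial.expand ℤ 2 p : Polynomial ℤ) : PowerSeries ℤ) =
      PowerSeries.expand 2 two_ne_zero (p : PowerSeries ℤ) := by
  ext j
  rw [Polynomial.coeff_coe, Polynomial.coeff_expand two_pos, PowerSeries.coeff_expand]
  simp only [Polynomial.coeff_coe]

open Finset.HasAntidiagonal in
/-- `h` = Hilbert function of `R`, `g n` = Hilbert function of `M_n`, `wp n`, `wm n` = symmetric and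
antisymmetric part of `M_n ⊗ M_n`, `sp n`, `sm n` = the same for `M_n ⊗[k] M_n`.
Proof: in `ℤ⟦X⟧` put `E n = (wp n + wm n) h - (g n)^2`, `Ψ n = (wp n - wm n) h(X²) - h (g n)(X²)`
(`PowerSeries.expand`-like substitution, or define the series `h(X²)` by its coefficients);
`E (n+1) = E n`, `Ψ (n+1) = - Ψ n` for `n < S`; both are divisible by `X^(2n)`; `E 0`, `Ψ 0` have no
coefficients above `4c`: so `E 0 = Ψ 0 = 0` as `4c < 2S`. All series for `n=0` are
polynomials; evaluate at `1`: `(Wp + Wm) L = L^2`, `(Wp - Wm) L = L L`, `L = ∑ h > 0`; so the sum of all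
`wm 0 j` is zero. -/
theorem series_key (c S : ℕ) (hS : 2 * c < S) (h : ℕ → ℕ) (g wp wm sp sm : ℕ → ℕ → ℕ)
    (h0 : h 0 = 1) (hc : ∀ j, c < j → h j = 0) (gc : ∀ j, c < j → g 0 j = 0)
    (wc : ∀ j, 2 * c < j → wp 0 j = 0 ∧ wm 0 j = 0)
    (R1 : ∀ n < S, ∀ j, ∑ p ∈ antidiagonal j, h p.1 * g n p.2 = g (n + 1) j + g n j)
    (R2 : ∀ n < S, ∀ j, wm (n + 1) j + ∑ p ∈ antidiagonal j, h p.1 * sp n p.2 =
      ∑ p ∈ antidiagonal j, g (n + 1) p.1 * g n p.2 + wp n j)
    (R3 : ∀ n < S, ∀ j, wp (n + 1) j + ∑ p ∈ antidiagonal j, h p.1 * sm n p.2 =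
      ∑ p ∈ antidiagonal j, g (n + 1) p.1 * g n p.2 + wm n j)
    (S1 : ∀ n j, sp n j + sm n j = ∑ p ∈ antidiagonal j, g n p.1 * g n p.2)
    (S2 : ∀ n j, (sp n j : ℤ) - sm n j = if 2 ∣ j then (g n (j / 2) : ℤ) else 0)
    (V : ∀ n ≤ S, ∀ j < 2 * n, wp n j = 0 ∧ wm n j = 0)
    (htot : ∑ j ∈ Finset.range (c + 1), g 0 j = ∑ j ∈ Finset.range (c + 1), h j) :
    ∀ j, wm 0 j = 0 := by
  -- the series
  set H : PowerSeries ℤ := se_ser h with hH
  set G : ℕ → PowerSeries ℤ := fun n => se_ser (g n) with hG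
  set P : ℕ → PowerSeries ℤ := fun n => se_ser (wp n) with hP
  set M : ℕ → PowerSeries ℤ := fun n => se_ser (wm n) with hM
  set Q : ℕ → PowerSeries ℤ := fun n => se_ser (sp n) with hQ
  set N : ℕ → PowerSeries ℤ := fun n => se_ser (sm n) with hN
  set ex : PowerSeries ℤ →ₐ[ℤ] PowerSeries ℤ := PowerSeries.expand 2 two_ne_zero with hex
  have r1 : ∀ n < S, H * G n = G (n + 1) + G n := by
    intro n hn
    ext j
    rw [hH, hG, se_coeff_mul, R1 n hn j, map_add]
    simp only [se_coeff]
    push_cast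
    rfl
  have r2 : ∀ n < S, M (n + 1) + H * Q n = G (n + 1) * G n + P n := by
    intro n hn
    ext j
    rw [map_add, map_add, hH, hG, hQ, se_coeff_mul, se_coeff_mul, hM, hP, se_coeff, se_coeff]
    have := R2 n hn j
    have h2 : ((wm (n + 1) j : ℕ) : ℤ) + ((∑ p ∈ antidiagonal j, h p.1 * sp n p.2 : ℕ) : ℤ) =
      ((∑ p ∈ antidiagonal j, g (n + 1) p.1 * g n p.2 : ℕ) : ℤ) + ((wp n j : ℕ) : ℤ) := by
      exact_mod_cast this
    exact h2
  have r3 : ∀ n < S, P (n + 1) + H * N n = G (n + 1) * G n + M n := by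
    intro n hn
    ext j
    rw [map_add, map_add, hH, hG, hN, se_coeff_mul, se_coeff_mul, hM, hP, se_coeff, se_coeff]
    have := R3 n hn j
    have h2 : ((wp (n + 1) j : ℕ) : ℤ) + ((∑ p ∈ antidiagonal j, h p.1 * sm n p.2 : ℕ) : ℤ) =
      ((∑ p ∈ antidiagonal j, g (n + 1) p.1 * g n p.2 : ℕ) : ℤ) + ((wm n j : ℕ) : ℤ) := by
      exact_mod_cast this
    exact h2
  have s1 : ∀ n, Q n + N n = G n * G n := by
    intro n
    ext j
    rw [hG, se_coeff_mul, ← S1 n j, map_add, hQ, hN, se_coeff, se_coeff]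
    push_cast
    rfl
  have s2 : ∀ n, Q n - N n = ex (G n) := by
    intro n
    ext j
    rw [hex, PowerSeries.coeff_expand, map_sub, hQ, hN, hG, se_coeff, se_coeff, se_coeff]
    exact S2 n j
  -- invariants
  set E : ℕ → PowerSeries ℤ := fun n => (P n + M n) * H - G n * G n with hE
  set F : ℕ → PowerSeries ℤ := fun n => (P n - M n) * ex H - H * ex (G n) with hF
  have eE : ∀ n < S, E (n + 1) = E n := by
    intro n hn
    have a1 := r1 n hn
    have a2 := r2 n hn
    have a3 := r3 n hn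
    have a4 := s1 n
    have b1 : G (n + 1) = H * G n - G n := by rw [a1]; ring
    simp only [hE]
    rw [b1] at a2 a3 ⊢
    linear_combination H * a2 + H * a3 - H * H * a4
  have eF : ∀ n < S, F (n + 1) = - F n := by
    intro n hn
    have a1 := r1 n hn
    have a2 := r2 n hn
    have a3 := r3 n hn
    have a4 := s2 n
    have b1 : G (n + 1) = H * G n - G n := by rw [a1]; ring
    have b2 : ex (G (n + 1)) = ex H * ex (G n) - ex (G n) := by rw [b1, map_sub, map_mul]
    simp only [hF]
    rw [b2]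
    linear_combination ex H * a3 - ex H * a2 + H * ex H * a4
  have gE : ∀ n ≤ S, E n = E 0 := by
    intro n
    induction n with
    | zero => intro _; rfl
    | succ n ih =>
      intro hn
      rw [eE n (by omega), ih (by omega)]
  have gF : ∀ n ≤ S, F n = F 0 ∨ F n = - F 0 := by
    intro n
    induction n with
    | zero => intro _; left; rfl
    | succ n ih =>
      intro hn
      rw [eF n (by omega)]
      rcases ih (by omega) with h | h
      · right; rw [h]
      · left; rw [h, neg_neg]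
  -- divisibility
  have dG : ∀ n ≤ S, (PowerSeries.X : PowerSeries ℤ) ^ n ∣ G n := by
    intro n
    induction n with
    | zero => intro _; simp
    | succ n ih =>
      intro hn
      have a1 := r1 n (by omega)
      have b1 : G (n + 1) = (H - 1) * G n := by
        linear_combination -a1
      have b2 : (PowerSeries.X : PowerSeries ℤ) ∣ H - 1 := by
        rw [PowerSeries.X_dvd_iff, map_sub, map_one]
        rw [← PowerSeries.coeff_zero_eq_constantCoeff_apply, hH, se_coeff, h0]
        simp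
      rw [b1, pow_succ, mul_comm]
      exact mul_dvd_mul b2 (ih (by omega))
  have dW : (PowerSeries.X : PowerSeries ℤ) ^ (2 * S) ∣ P S ∧
      (PowerSeries.X : PowerSeries ℤ) ^ (2 * S) ∣ M S := by
    constructor
    · rw [PowerSeries.X_pow_dvd_iff]
      intro m hm
      rw [hP, se_coeff, (V S le_rfl m hm).1]
      rfl
    · rw [PowerSeries.X_pow_dvd_iff]
      intro m hm
      rw [hM, se_coeff, (V S le_rfl m hm).2]
      rfl
  have dE : (PowerSeries.X : PowerSeries ℤ) ^ (2 * S) ∣ E 0 := by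
    rw [← gE S le_rfl]
    refine dvd_sub ((dW.1.add dW.2).mul_right _) ?_
    rw [two_mul, pow_add]
    exact mul_dvd_mul (dG S le_rfl) (dG S le_rfl)
  have dF : (PowerSeries.X : PowerSeries ℤ) ^ (2 * S) ∣ F 0 := by
    have h1 : (PowerSeries.X : PowerSeries ℤ) ^ (2 * S) ∣ F S := by
      refine dvd_sub ((dW.1.sub dW.2).mul_right _) (Dvd.dvd.mul_left ?_ _)
      obtain ⟨q, hq⟩ := dG S le_rfl
      rw [hq, map_mul, map_pow, hex, PowerSeries.expand_X, ← pow_mul]
      exact dvd_mul_right _ _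
    rcases gF S le_rfl with h | h
    · rwa [h] at h1
    · rwa [h, dvd_neg] at h1
  -- polynomials
  have cH : ((se_pol c h : Polynomial ℤ) : PowerSeries ℤ) = H := se_pol_coe c h hc
  have cG : ((se_pol c (g 0) : Polynomial ℤ) : PowerSeries ℤ) = G 0 := se_pol_coe c (g 0) gc
  have cP : ((se_pol (2 * c) (wp 0) : Polynomial ℤ) : PowerSeries ℤ) = P 0 :=
    se_pol_coe (2 * c) (wp 0) fun j hj => (wc j hj).1
  have cM : ((se_pol (2 * c) (wm 0) : Polynomial ℤ) : PowerSeries ℤ) = M 0 :=
    se_pol_coe (2 * c) (wm 0) fun j hj => (wc j hj).2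
  have key : ∀ p : Polynomial ℤ, p.natDegree ≤ 4 * c →
      (PowerSeries.X : PowerSeries ℤ) ^ (2 * S) ∣ (p : PowerSeries ℤ) → p = 0 := by
    intro p hp hd
    ext j
    rw [Polynomial.coeff_zero]
    by_cases hj : j < 2 * S
    · have := (PowerSeries.X_pow_dvd_iff.1 hd) j hj
      rwa [Polynomial.coeff_coe] at this
    · exact Polynomial.coeff_eq_zero_of_natDegree_lt (by omega)
  have dh := se_pol_deg c h
  have dg := se_pol_deg c (g 0)
  have dp := se_pol_deg (2 * c) (wp 0)
  have dm := se_pol_deg (2 * c) (wm 0)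
  have k1 : (se_pol (2 * c) (wp 0) + se_pol (2 * c) (wm 0)) * se_pol c h -
      se_pol c (g 0) * se_pol c (g 0) = 0 := by
    apply key
    · refine (Polynomial.natDegree_sub_le _ _).trans (max_le ?_ ?_)
      · refine (Polynomial.natDegree_mul_le).trans ?_
        have := Polynomial.natDegree_add_le (se_pol (2 * c) (wp 0)) (se_pol (2 * c) (wm 0))
        have h3 := this.trans (max_le dp dm)
        omega
      · refine (Polynomial.natDegree_mul_le).trans ?_
        omega
    · rw [Polynomial.coe_sub, Polynomial.coe_mul, Polynomial.coe_mul, Polynomial.coe_add, cH, cG,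
        cP, cM]
      exact dE
  have k2 : (se_pol (2 * c) (wp 0) - se_pol (2 * c) (wm 0)) * Polynomial.expand ℤ 2 (se_pol c h) -
      se_pol c h * Polynomial.expand ℤ 2 (se_pol c (g 0)) = 0 := by
    apply key
    · refine (Polynomial.natDegree_sub_le _ _).trans (max_le ?_ ?_)
      · refine (Polynomial.natDegree_mul_le).trans ?_
        have := Polynomial.natDegree_sub_le (se_pol (2 * c) (wp 0)) (se_pol (2 * c) (wm 0))
        have h3 := this.trans (max_le dp dm)
        rw [Polynomial.natDegree_expand]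
        omega
      · refine (Polynomial.natDegree_mul_le).trans ?_
        rw [Polynomial.natDegree_expand]
        omega
    · rw [Polynomial.coe_sub, Polynomial.coe_mul, Polynomial.coe_mul, Polynomial.coe_sub,
        se_expand_coe, se_expand_coe, cH, cG, cP, cM]
      exact dF
  -- evaluation at one
  have l1 := congrArg (Polynomial.eval 1) k1
  have l2 := congrArg (Polynomial.eval 1) k2
  simp only [Polynomial.eval_sub, Polynomial.eval_mul, Polynomial.eval_add,
    Polynomial.expand_eval, one_pow, se_pol_eval, Polynomial.eval_zero, htot] at l1 l2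
  set L : ℤ := ((∑ j ∈ Finset.range (c + 1), h j : ℕ) : ℤ) with hL
  have hLpos : 0 < L := by
    have : 0 < ∑ j ∈ Finset.range (c + 1), h j := by
      apply Finset.sum_pos'
      · intro i _; exact Nat.zero_le _
      · exact ⟨0, by simp, by rw [h0]; exact one_pos⟩
    rw [hL]
    exact_mod_cast this
  have l3 : (2 * ((∑ j ∈ Finset.range (2 * c + 1), wm 0 j : ℕ) : ℤ)) * L = 0 := by
    linear_combination l1 - l2
  have l4 : ((∑ j ∈ Finset.range (2 * c + 1), wm 0 j : ℕ) : ℤ) = 0 := by
    rcases mul_eq_zero.1 l3 with h | h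
    · omega
    · exact absurd h hLpos.ne'
  have l5 : ∑ j ∈ Finset.range (2 * c + 1), wm 0 j = 0 := by exact_mod_cast l4
  intro j
  by_cases hj : 2 * c < j
  · exact (wc j hj).2
  · exact (Finset.sum_eq_zero_iff.1 l5) j (Finset.mem_range.2 (by omega))

end series

end Pool.Agent.Tach
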