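import Pool.Agent.Work.MP_cd91b4_al.Ranks
import Pool.Agent.Work.MP_cd91b4_al.DualT
import Pool.Agent.Work.MP_cd91b4_al.Series

/-! # The sequence of syzygies as bundled graded modules -/

namespace Pool.Agent.Tach

open TensorProduct Module

/-- Bundled finite dimensional graded modules. -/
structure GM (k R : Type) [Field k] [CommRing R] [Algebra k R] (𝒜 : ℕ → Submodule k R) where
  V : Type
  [acg : AddCommGroup V]
  [modk : Module k V]
  [modR : Module R V]
  [tow : IsScalarTower k R V]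
  [fin : Module.Finite k V]
  P : ℕ → V →ₗ[k] V
  gr : IsGrMod 𝒜 P

attribute [instance] GM.acg GM.modk GM.modR GM.tow GM.fin

section

variable {k R : Type} [Field k] [CommRing R] [Algebra k R] [Module.Finite k R]
  {𝒜 : ℕ → Submodule k R} [GradedAlgebra 𝒜] {c : ℕ}

/-- The syzygy of a bundled module. -/
noncomputable def GM.next (hc : ∀ i, c < i → 𝒜 i = ⊥) (M : GM k R 𝒜) : GM k R 𝒜 where
  V := Syz k R M.V
  P := sQ 𝒜 M.gr
  gr := syz_isGr 𝒜 hc M.gr

/-- The sequence of syzygies. -/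
noncomputable def GM.seq (hc : ∀ i, c < i → 𝒜 i = ⊥) (M : GM k R 𝒜) : ℕ → GM k R 𝒜
  | 0 => M
  | n + 1 => (GM.seq hc M n).next hc

variable (hc : ∀ i, c < i → 𝒜 i = ⊥) (M : GM k R 𝒜)

/-- The inclusion of the next syzygy. -/
noncomputable def GM.ι (n : ℕ) : (M.seq hc (n + 1)).V →ₗ[R] Cov k R (M.seq hc n).V :=
  syzι k R (M.seq hc n).V

/-- The projection of the cover. -/
noncomputable def GM.π (n : ℕ) : Cov k R (M.seq hc n).V →ₗ[R] (M.seq hc n).V :=
  covπ k R (M.seq hc n).V

theorem GM.ι_injective (n : ℕ) : Function.Injective (M.ι hc n) := syzι_injective k R _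

theorem GM.π_surjective (n : ℕ) : Function.Surjective (M.π hc n) := covπ_surjective k R _

theorem GM.exact (n : ℕ) : Function.Exact (M.ι hc n) (M.π hc n) := cov_exact k R _

theorem GM.ι_comm (n j : ℕ) (x : (M.seq hc (n + 1)).V) :
    M.ι hc n ((M.seq hc (n + 1)).P j x) = cP 𝒜 (M.seq hc n).P j (M.ι hc n x) :=
  syzι_comm 𝒜 (M.seq hc n).gr j x

theorem GM.π_comm (n j : ℕ) (x : Cov k R (M.seq hc n).V) :
    M.π hc n (cP 𝒜 (M.seq hc n).P j x) = (M.seq hc n).P j (M.π hc n x) :=
  covπ_comm 𝒜 (M.seq hc n).gr j x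

/-- Hilbert function. -/
noncomputable def GM.g (M : GM k R 𝒜) (j : ℕ) : ℕ := finrank k (LinearMap.range (M.P j))

/-- Graded dimension of the `ε`-part of `M ⊗[R] M`. -/
noncomputable def GM.w (M : GM k R 𝒜) (ε : k) (j : ℕ) : ℕ :=
  finrank k (LinearMap.range (rT M.gr M.gr j ∘ₗ pm (sw k R M.V) ε))

/-- Graded dimension of the `ε`-part of `M ⊗[k] M`. -/
noncomputable def GM.s (M : GM k R 𝒜) (ε : k) (j : ℕ) : ℕ :=
  finrank k (LinearMap.range (kT M.P M.P j ∘ₗ pm (TensorProduct.comm k M.V M.V).toLinearMap ε))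

variable (𝒜) in
/-- Hilbert function of the ring. -/
noncomputable def hR (j : ℕ) : ℕ := finrank k (LinearMap.range (piR 𝒜 j))

theorem GM.R1 (n j : ℕ) : ∑ p ∈ Finset.HasAntidiagonal.antidiagonal j,
    hR 𝒜 p.1 * (M.seq hc n).g p.2 = (M.seq hc (n + 1)).g j + (M.seq hc n).g j :=
  rank_syz 𝒜 (M.seq hc n).gr hc j

theorem GM.stage (h2 : (2 : k) ≠ 0) {ε : k} (hε : ε * ε = 1) (n j : ℕ)
    (T1 : Function.Injective (TensorProduct.map (M.ι hc n)
      (LinearMap.id : (M.seq hc n).V →ₗ[R] (M.seq hc n).V)))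
    (T2 : Function.Injective (TensorProduct.map
      (LinearMap.id : (M.seq hc (n + 1)).V →ₗ[R] (M.seq hc (n + 1)).V) (M.ι hc n))) :
    (M.seq hc (n + 1)).w (-ε) j +
      ∑ p ∈ Finset.HasAntidiagonal.antidiagonal j, hR 𝒜 p.1 * (M.seq hc n).s ε p.2 =
    ∑ p ∈ Finset.HasAntidiagonal.antidiagonal j, (M.seq hc (n + 1)).g p.1 * (M.seq hc n).g p.2 +
      (M.seq hc n).w ε j := by
  have hF := cov_isGr 𝒜 hc (M.seq hc n).gr.toIsGr
  have h := Pool.Agent.Tach.stage (M.seq hc (n + 1)).gr hF (M.seq hc n).gr (M.ι hc n) (M.π hc n)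
    (M.ι_comm hc n) (M.π_comm hc n) (M.ι_injective hc n) (M.π_surjective hc n) (M.exact hc n)
    T1 T2 h2 ε hε j
  rw [rank_FF 𝒜 h2 hc (M.seq hc n).gr.toIsGr hF hε j,
    rank_NF 𝒜 (M.seq hc (n + 1)).gr (M.seq hc n).gr.toIsGr hF j] at h
  exact h

omit [Module.Finite k R] [GradedAlgebra 𝒜] in
theorem GM.S1 (h2 : (2 : k) ≠ 0) (N : GM k R 𝒜) (j : ℕ) : N.s 1 j + N.s (-1) j =
    ∑ p ∈ Finset.HasAntidiagonal.antidiagonal j, N.g p.1 * N.g p.2 := by
  have h := pm_rank h2 (σ := (TensorProduct.comm k N.V N.V).toLinearMap) comm_comm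
    (kT_isGr N.gr.toIsGr N.gr.toIsGr) kT_comm j
  exact h.trans (kT_rank N.gr.toIsGr N.P N.gr.orth j)

omit [Module.Finite k R] [GradedAlgebra 𝒜] in
theorem GM.S2 (h2 : (2 : k) ≠ 0) (N : GM k R 𝒜) (j : ℕ) : (N.s 1 j : ℤ) - N.s (-1) j =
    if 2 ∣ j then (N.g (j / 2) : ℤ) else 0 :=
  sym_rank N.gr.toIsGr h2 j

omit [Module.Finite k R] [GradedAlgebra 𝒜] in
theorem GM.g_eq_zero {N : GM k R 𝒜} {j : ℕ} (h : N.g j = 0) : N.P j = 0 := by
  unfold GM.g at h
  rwa [Submodule.finrank_eq_zero, LinearMap.range_eq_bot] at h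

omit [Module.Finite k R] [GradedAlgebra 𝒜] in
theorem GM.g_zero {N : GM k R 𝒜} {j : ℕ} (h : N.P j = 0) : N.g j = 0 := by
  unfold GM.g
  rw [h, LinearMap.range_zero, finrank_bot]

theorem GM.w_zero {N : GM k R 𝒜} {j : ℕ} (h : ∀ a b, a + b = j → N.P a = 0 ∨ N.P b = 0) (ε : k) :
    N.w ε j = 0 := by
  unfold GM.w
  have e : rT N.gr N.gr j = 0 := by
    refine LinearMap.ext fun x => ?_
    rw [LinearMap.zero_apply]
    induction x using TensorProduct.induction_on with
    | zero => simp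
    | add x y hx hy => rw [map_add, hx, hy, add_zero]
    | tmul v w =>
      rw [rT_tmul]
      refine Finset.sum_eq_zero ?_
      rintro ⟨a, b⟩ hab
      rw [Finset.HasAntidiagonal.mem_antidiagonal] at hab
      simp only at hab ⊢
      rcases h a b hab with h | h
      · rw [h, LinearMap.zero_apply, TensorProduct.zero_tmul]
      · rw [h, LinearMap.zero_apply, TensorProduct.tmul_zero]
  rw [e, LinearMap.zero_comp, LinearMap.range_zero, finrank_bot]

theorem GM.low (h0 : hR 𝒜 0 = 1) (n : ℕ) : ∀ j < n, (M.seq hc n).g j = 0 := by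
  induction n with
  | zero => intro j hj; omega
  | succ n ih =>
    intro j hj
    have h := M.R1 hc n j
    rw [Finset.sum_eq_single (0, j)] at h
    · simp only [h0, one_mul] at h
      omega
    · rintro ⟨a, b⟩ hab hne
      rw [Finset.HasAntidiagonal.mem_antidiagonal] at hab
      simp only at hab ⊢
      have : a ≠ 0 := by
        rintro rfl
        apply hne
        rw [zero_add] at hab
        rw [hab]
      rw [ih b (by omega), mul_zero]
    · intro hn
      exact absurd (Finset.HasAntidiagonal.mem_antidiagonal.2 (zero_add j)) hn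

/-- Everything together: the swap is the identity on `M ⊗[R] M`. -/
theorem GM.sw_eq (h2 : (2 : k) ≠ 0) (h0 : hR 𝒜 0 = 1) (hM : ∀ j, c < j → M.P j = 0)
    (hdim : finrank k M.V = finrank k R)
    (T : ∀ a b, a + b ≤ 4 * c + 1 → Function.Injective (TensorProduct.map (M.ι hc a)
      (LinearMap.id : (M.seq hc b).V →ₗ[R] (M.seq hc b).V)))
    (T' : ∀ n, Function.Injective (TensorProduct.map (M.ι hc n)
      (LinearMap.id : (M.seq hc (n + 1)).V →ₗ[R] (M.seq hc (n + 1)).V)) →
      Function.Injective (TensorProduct.map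
      (LinearMap.id : (M.seq hc (n + 1)).V →ₗ[R] (M.seq hc (n + 1)).V) (M.ι hc n)))
    (x : M.V ⊗[R] M.V) : sw k R M.V x = x := by
  have hc0 : ∀ j, c < j → piR 𝒜 j = 0 := by
    intro j hj
    refine LinearMap.ext fun r => ?_
    have := piR_mem 𝒜 j r
    rw [hc j hj, Submodule.mem_bot] at this
    exact this
  have key := series_key c (2 * c + 1) (by omega) (hR 𝒜) (fun n j => (M.seq hc n).g j)
    (fun n j => (M.seq hc n).w 1 j) (fun n j => (M.seq hc n).w (-1) j)
    (fun n j => (M.seq hc n).s 1 j) (fun n j => (M.seq hc n).s (-1) j) h0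
    (fun j hj => by unfold hR; rw [hc0 j hj, LinearMap.range_zero, finrank_bot])
    (fun j hj => GM.g_zero (hM j hj))
    (fun j hj => by
      have e : ∀ a b, a + b = j → M.P a = 0 ∨ M.P b = 0 := by
        intro a b hab
        by_cases ha : c < a
        · exact Or.inl (hM a ha)
        · exact Or.inr (hM b (by omega))
      exact ⟨GM.w_zero (N := M) e 1, GM.w_zero (N := M) e (-1)⟩)
    (fun n _ j => M.R1 hc n j)
    (fun n hn j => M.stage hc h2 (one_mul 1) n j (T n n (by omega))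
      (T' n (T n (n + 1) (by omega))))
    (fun n hn j => by
      have := M.stage hc h2 (ε := -1) (by rw [neg_mul_neg, one_mul]) n j (T n n (by omega))
        (T' n (T n (n + 1) (by omega)))
      rwa [neg_neg] at this)
    (fun n j => GM.S1 h2 _ j) (fun n j => GM.S2 h2 _ j)
    (fun n _ j hj => by
      have e : ∀ a b, a + b = j → (M.seq hc n).P a = 0 ∨ (M.seq hc n).P b = 0 := by
        intro a b hab
        by_cases ha : a < n
        · exact Or.inl (GM.g_eq_zero (M.low hc h0 n a ha))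
        · exact Or.inr (GM.g_eq_zero (M.low hc h0 n b (by omega)))
      exact ⟨GM.w_zero e 1, GM.w_zero e (-1)⟩)
    (by
      have e1 := M.gr.toIsGr.rank_total hM
      have e2 := (piR_isGrMod 𝒜 hc).toIsGr.rank_total hc0
      change ∑ j ∈ Finset.range (c + 1), M.g j = ∑ j ∈ Finset.range (c + 1), hR 𝒜 j
      unfold GM.g hR
      rw [e1, e2, hdim])
  have hpm : pm (sw k R M.V) (-1) x = 0 := by
    apply (rT_isGr M.gr M.gr).eq_zero
    intro j
    have h := key j
    change M.w (-1) j = 0 at h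
    unfold GM.w at h
    have := finite_tensor k R M.V M.V
    rw [Submodule.finrank_eq_zero, LinearMap.range_eq_bot] at h
    exact LinearMap.congr_fun h x
  rw [pm_apply] at hpm
  have h3 := congrArg (fun z => (2 : k) • z) hpm
  simp only [smul_smul, mul_inv_cancel₀ h2, one_smul, smul_zero, neg_smul] at h3
  rw [← sub_eq_add_neg, sub_eq_zero] at h3
  exact h3.symm

end

end Pool.Agent.Tach
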