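import Pool.Agent.Work.MP_cd91b4_al.Stage

/-! # The cover and the syzygy as opaque types (with canonical instances) -/

namespace Pool.Agent.Tach

open TensorProduct Module

section types

variable (k R M : Type) [Field k] [CommRing R] [Algebra k R] [AddCommGroup M] [Module k M]

/-- The free cover `R ⊗[k] M`. -/
def Cov : Type := R ⊗[k] M

instance : AddCommGroup (Cov k R M) := inferInstanceAs (AddCommGroup (R ⊗[k] M))
instance : Module k (Cov k R M) := inferInstanceAs (Module k (R ⊗[k] M))
instance : Module R (Cov k R M) := inferInstanceAs (Module R (R ⊗[k] M))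
instance : IsScalarTower k R (Cov k R M) := inferInstanceAs (IsScalarTower k R (R ⊗[k] M))
instance [Module.Finite k R] [Module.Finite k M] : Module.Finite k (Cov k R M) :=
  inferInstanceAs (Module.Finite k (R ⊗[k] M))
instance : Module.Free R (Cov k R M) := inferInstanceAs (Module.Free R (R ⊗[k] M))
instance [Module.Finite k M] : Module.Finite R (Cov k R M) :=
  inferInstanceAs (Module.Finite R (R ⊗[k] M))

variable [Module R M] [IsScalarTower k R M]

/-- The syzygy. -/
def Syz : Type := ↥(LinearMap.ker (act k R M))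

noncomputable instance : AddCommGroup (Syz k R M) := inferInstanceAs (AddCommGroup ↥(LinearMap.ker (act k R M)))
noncomputable instance : Module k (Syz k R M) := inferInstanceAs (Module k ↥(LinearMap.ker (act k R M)))
noncomputable instance : Module R (Syz k R M) := inferInstanceAs (Module R ↥(LinearMap.ker (act k R M)))
instance : IsScalarTower k R (Syz k R M) :=
  inferInstanceAs (IsScalarTower k R ↥(LinearMap.ker (act k R M)))

/-- The inclusion. -/
noncomputable def syzι : Syz k R M →ₗ[R] Cov k R M := (LinearMap.ker (act k R M)).subtype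

/-- The projection. -/
noncomputable def covπ : Cov k R M →ₗ[R] M := act k R M

theorem syzι_injective : Function.Injective (syzι k R M) := Subtype.val_injective

theorem covπ_surjective : Function.Surjective (covπ k R M) := act_surjective

theorem cov_exact : Function.Exact (syzι k R M) (covπ k R M) := by
  intro x
  constructor
  · intro h
    exact ⟨⟨x, h⟩, rfl⟩
  · rintro ⟨y, rfl⟩
    exact y.2

instance [Module.Finite k R] [Module.Finite k M] : Module.Finite k (Syz k R M) :=
  Module.Finite.of_injective ((syzι k R M).restrictScalars k) (syzι_injective k R M)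

end types

section

variable {k : Type} [Field k] {R : Type} [CommRing R] [Algebra k R]
  (𝒜 : ℕ → Submodule k R) [GradedAlgebra 𝒜]
  {M : Type} [AddCommGroup M] [Module k M]

/-- The projections of the cover. -/
noncomputable def cP (P : ℕ → M →ₗ[k] M) (j : ℕ) : Cov k R M →ₗ[k] Cov k R M :=
  kT (piR 𝒜) P j

variable {P : ℕ → M →ₗ[k] M}

theorem cov_isGr {c : ℕ} (hc : ∀ i, c < i → 𝒜 i = ⊥) (hP : IsGr P) :
    IsGrMod 𝒜 (M := Cov k R M) (cP 𝒜 P) := by
  have h1 := cover_isGrMod 𝒜 hc hP
  exact { orth := h1.orth, tot := h1.tot, smul := h1.smul }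

variable [Module R M] [IsScalarTower k R M]

theorem covπ_comm (hP : IsGrMod 𝒜 P) (j : ℕ) (x : Cov k R M) :
    covπ k R M (cP 𝒜 P j x) = P j (covπ k R M x) := act_comm 𝒜 hP j x

/-- The projections of the syzygy. -/
noncomputable def sQ (hP : IsGrMod 𝒜 P) (j : ℕ) : Syz k R M →ₗ[k] Syz k R M := sP 𝒜 hP j

theorem syzι_comm (hP : IsGrMod 𝒜 P) (j : ℕ) (x : Syz k R M) :
    syzι k R M (sQ 𝒜 hP j x) = cP 𝒜 P j (syzι k R M x) := rfl

theorem syz_isGr {c : ℕ} (hc : ∀ i, c < i → 𝒜 i = ⊥) (hP : IsGrMod 𝒜 P) :
    IsGrMod 𝒜 (M := Syz k R M) (sQ 𝒜 hP) := by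
  have h1 := syz_isGrMod 𝒜 hc hP
  exact { orth := h1.orth, tot := h1.tot, smul := h1.smul }

end

end Pool.Agent.Tach
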