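import Pool.Agent.Work.MP_cd91b4_al.RT

/-! # The graded free cover `R ⊗[k] M → M` and its kernel -/

namespace Pool.Agent.Tach

open TensorProduct Module

variable {k : Type} [Field k]

section

variable {R : Type} [CommRing R] [Algebra k R] (𝒜 : ℕ → Submodule k R) [GradedAlgebra 𝒜]

/-- The projections of `R`. -/
noncomputable def piR (j : ℕ) : R →ₗ[k] R := GradedAlgebra.proj 𝒜 j

theorem piR_apply (j : ℕ) (r : R) : piR 𝒜 j r = (DirectSum.decompose 𝒜 r j : R) := rfl

theorem piR_mem (j : ℕ) (r : R) : piR 𝒜 j r ∈ 𝒜 j := by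
  rw [piR_apply]; exact (DirectSum.decompose 𝒜 r j).2

theorem piR_of_mem {i j : ℕ} {r : R} (h : r ∈ 𝒜 j) : piR 𝒜 i r = if i = j then r else 0 := by
  rw [piR_apply]
  split_ifs with hij
  · subst hij
    exact DirectSum.decompose_of_mem_same 𝒜 h
  · exact DirectSum.decompose_of_mem_ne 𝒜 h (Ne.symm hij)

theorem piR_isGrMod {c : ℕ} (hc : ∀ i, c < i → 𝒜 i = ⊥) : IsGrMod 𝒜 (piR 𝒜) where
  orth := by
    intro i j r
    rw [piR_of_mem 𝒜 (piR_mem 𝒜 j r)]
    split_ifs with h
    · rw [h]
    · rfl
  tot := by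
    have h0 : ∀ j, c < j → piR 𝒜 j = 0 := by
      intro j hj
      refine LinearMap.ext fun r => ?_
      have := piR_mem 𝒜 j r
      rw [hc j hj, Submodule.mem_bot] at this
      exact this
    refine ⟨c, h0, fun r => ?_⟩
    classical
    conv_rhs => rw [← DirectSum.sum_support_decompose 𝒜 r]
    symm
    refine Finset.sum_subset_zero_on_sdiff ?_ ?_ ?_
    · intro i hi
      rw [Finset.mem_range]
      by_contra hcon
      rw [DFinsupp.mem_support_toFun] at hi
      apply hi
      have := piR_mem 𝒜 i r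
      rw [hc i (by omega), Submodule.mem_bot] at this
      exact Subtype.ext this
    · intro i hi
      rw [Finset.mem_sdiff, DFinsupp.mem_support_toFun, not_not] at hi
      rw [piR_apply, hi.2]
      rfl
    · intro i _
      rfl
  smul := by
    intro d r hr j m
    rw [smul_eq_mul, piR_apply]
    split_ifs with h
    · rw [DirectSum.coe_decompose_mul_of_left_mem_of_le 𝒜 hr h]
      rfl
    · rw [DirectSum.coe_decompose_mul_of_left_mem_of_not_le 𝒜 hr h]

variable {M : Type} [AddCommGroup M] [Module k M] [Module R M] [IsScalarTower k R M]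

variable (k R M) in
/-- The action map `R ⊗[k] M → M`. -/
noncomputable def act : R ⊗[k] M →ₗ[R] M :=
  AlgebraTensorModule.lift (LinearMap.toSpanSingleton R (M →ₗ[k] M) LinearMap.id)

theorem act_tmul (r : R) (m : M) : act k R M (r ⊗ₜ m) = r • m := by
  simp [act]

theorem act_surjective : Function.Surjective (act k R M) := fun m =>
  ⟨1 ⊗ₜ m, by rw [act_tmul, one_smul]⟩

variable {P : ℕ → M →ₗ[k] M}

theorem act_comm (hP : IsGrMod 𝒜 P) (j : ℕ) (x : R ⊗[k] M) :
    act k R M (kT (piR 𝒜) P j x) = P j (act k R M x) := by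
  induction x using TensorProduct.induction_on with
  | zero => simp
  | add x y hx hy => simp only [map_add, hx, hy]
  | tmul r m =>
    rw [kT_tmul, map_sum, act_tmul]
    simp only [act_tmul]
    induction r using DirectSum.Decomposition.inductionOn 𝒜 with
    | zero => simp
    | @homogeneous d r =>
      rw [hP.smul d _ r.2]
      simp only [piR_of_mem 𝒜 r.2]
      split_ifs with h
      · rw [Finset.sum_eq_single (d, j - d)]
        · simp
        · rintro ⟨a, b⟩ hab hne
          rw [Finset.HasAntidiagonal.mem_antidiagonal] at hab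
          simp only at hab ⊢
          by_cases ha : a = d
          · exfalso
            apply hne
            rw [ha]
            congr 1
            omega
          · rw [if_neg ha, zero_smul]
        · intro hn
          exfalso
          apply hn
          rw [Finset.HasAntidiagonal.mem_antidiagonal]
          simp only
          omega
      · refine Finset.sum_eq_zero ?_
        rintro ⟨a, b⟩ hab
        rw [Finset.HasAntidiagonal.mem_antidiagonal] at hab
        simp only at hab ⊢
        rw [if_neg (by omega), zero_smul]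
    | add r s hr hs =>
      simp only [map_add, add_smul, Finset.sum_add_distrib, hr, hs]

omit [Module R M] [IsScalarTower k R M] in
/-- The cover is a graded module. -/
theorem cover_isGrMod {c : ℕ} (hc : ∀ i, c < i → 𝒜 i = ⊥) (hP : IsGr P) :
    IsGrMod 𝒜 (M := R ⊗[k] M) (kT (piR 𝒜) P) where
  toIsGr := kT_isGr (piR_isGrMod 𝒜 hc).toIsGr hP
  smul := by
    intro d r hr j x
    induction x using TensorProduct.induction_on with
    | zero => simp
    | add x y hx hy =>
      rw [smul_add, map_add, hx, hy]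
      split_ifs
      · rw [map_add, smul_add]
      · rw [add_zero]
    | tmul s m =>
      rw [TensorProduct.smul_tmul', kT_tmul]
      have e : ∀ p : ℕ × ℕ, piR 𝒜 p.1 (r • s) ⊗ₜ[k] P p.2 m =
          if d ≤ p.1 then (r • piR 𝒜 (p.1 - d) s) ⊗ₜ[k] P p.2 m else 0 := by
        intro p
        rw [(piR_isGrMod 𝒜 hc).smul d r hr]
        split_ifs <;> simp
      simp only [e]
      rw [antidiag_shift (fun a b => (r • piR 𝒜 a s) ⊗ₜ[k] P b m)]
      split_ifs
      · rw [kT_tmul, Finset.smul_sum]
        exact Finset.sum_congr rfl fun p _ => by rw [TensorProduct.smul_tmul']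
      · rfl

/-- The projections of the kernel of the action map. -/
noncomputable def sP (hP : IsGrMod 𝒜 P) (j : ℕ) :
    LinearMap.ker (act k R M) →ₗ[k] LinearMap.ker (act k R M) where
  toFun x := ⟨kT (piR 𝒜) P j x.1, by
    rw [LinearMap.mem_ker, act_comm 𝒜 hP, LinearMap.mem_ker.1 x.2, map_zero]⟩
  map_add' x y := Subtype.ext (map_add (kT (piR 𝒜) P j) x.1 y.1)
  map_smul' c x := Subtype.ext (map_smul (kT (piR 𝒜) P j) c x.1)

theorem sP_coe (hP : IsGrMod 𝒜 P) (j : ℕ) (x : LinearMap.ker (act k R M)) :
    (sP 𝒜 hP j x : R ⊗[k] M) = kT (piR 𝒜) P j x.1 := rfl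

theorem syz_isGrMod {c : ℕ} (hc : ∀ i, c < i → 𝒜 i = ⊥) (hP : IsGrMod 𝒜 P) :
    IsGrMod 𝒜 (M := ↥(LinearMap.ker (act k R M))) (sP 𝒜 hP) where
  orth := by
    intro i j x
    apply Subtype.ext
    rw [sP_coe, sP_coe, (cover_isGrMod 𝒜 hc hP.toIsGr).orth]
    split_ifs <;> rfl
  tot := by
    obtain ⟨n, h0, hn⟩ := (cover_isGrMod 𝒜 hc hP.toIsGr).tot
    refine ⟨n, fun j hj => ?_, fun x => ?_⟩
    · refine LinearMap.ext fun x => Subtype.ext ?_
      rw [sP_coe, h0 j hj]
      rfl
    · apply Subtype.ext
      rw [AddSubmonoidClass.coe_finsetSum]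
      simp only [sP_coe]
      exact hn x.1
  smul := by
    intro d r hr j x
    apply Subtype.ext
    have h := (cover_isGrMod 𝒜 hc hP.toIsGr).smul d r hr j x.1
    have e : ((r • x : LinearMap.ker (act k R M)) : R ⊗[k] M) = r • x.1 := rfl
    rw [sP_coe, e, h]
    split_ifs <;> rfl

end

end Pool.Agent.Tach
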