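import Mathlib

/-! # MP_cd91b4_al, Cyclic.lean -/

namespace Pool.Agent.Tach

open TensorProduct Module

section cyclic

variable {R : Type} [CommRing R]

/-- two different basis vectors do not commute in the tensor square -/
theorem cy_basis {κ V : Type} [Field κ] [AddCommGroup V] [Module κ V] {n : ℕ}
    (b : Basis (Fin n) κ V) (i j : Fin n) (h : b i ⊗ₜ[κ] b j = b j ⊗ₜ[κ] b i) : i = j := by
  by_contra hij
  have h1 := congrArg (fun x => (b.tensorProduct b).repr x (i, j)) h
  simp only [Basis.tensorProduct_repr_tmul_apply, Basis.repr_self, Finsupp.single_eq_same,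
    smul_eq_mul, mul_one] at h1
  rw [Finsupp.single_eq_of_ne (Ne.symm (Ne.symm hij))] at h1
  simp at h1

/-- `x ⊗ y = y ⊗ x` on a finite module over a local ring implies cyclic
(pass to `M / mM` over the residue field; two independent vectors do not commute; Nakayama) -/
theorem cyclic_of_sw [IsLocalRing R] {M : Type} [AddCommGroup M] [Module R M] [Module.Finite R M]
    (h : ∀ x y : M, x ⊗ₜ[R] y = y ⊗ₜ[R] x) : ∃ m : M, Submodule.span R {m} = ⊤ := by
  let κ := IsLocalRing.ResidueField R
  let V := κ ⊗[R] M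
  have hsurj : ∀ v : V, ∃ x : M, (1 : κ) ⊗ₜ[R] x = v := by
    intro v
    induction v using TensorProduct.induction_on with
    | zero => exact ⟨0, TensorProduct.tmul_zero _ _⟩
    | tmul a x =>
      obtain ⟨r, rfl⟩ := IsLocalRing.residue_surjective a
      refine ⟨r • x, ?_⟩
      rw [← TensorProduct.smul_tmul, Algebra.smul_def, mul_one]
      rfl
    | add v w hv hw =>
      obtain ⟨x, rfl⟩ := hv
      obtain ⟨y, rfl⟩ := hw
      exact ⟨x + y, TensorProduct.tmul_add _ _ _⟩
  let B : M →ₗ[R] M →ₗ[R] (V ⊗[κ] V) := LinearMap.mk₂ R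
    (fun x y => ((1 : κ) ⊗ₜ[R] x : V) ⊗ₜ[κ] ((1 : κ) ⊗ₜ[R] y : V))
    (fun x x' y => by rw [TensorProduct.tmul_add, TensorProduct.add_tmul])
    (fun r x y => by
      rw [TensorProduct.tmul_smul]
      exact (TensorProduct.smul_tmul' r ((1 : κ) ⊗ₜ[R] x : V) ((1 : κ) ⊗ₜ[R] y : V)).symm)
    (fun x y y' => by rw [TensorProduct.tmul_add, TensorProduct.tmul_add])
    (fun r x y => by
      rw [TensorProduct.tmul_smul]
      rw [← algebraMap_smul κ r ((1 : κ) ⊗ₜ[R] y : V), TensorProduct.tmul_smul, algebraMap_smul])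
  have hB : ∀ v w : V, v ⊗ₜ[κ] w = w ⊗ₜ[κ] v := by
    intro v w
    obtain ⟨x, rfl⟩ := hsurj v
    obtain ⟨y, rfl⟩ := hsurj w
    have := congrArg (TensorProduct.lift B) (h x y)
    rw [TensorProduct.lift.tmul, TensorProduct.lift.tmul] at this
    exact this
  let b : Basis (Fin (finrank κ V)) κ V := finBasis κ V
  have hn : finrank κ V ≤ 1 := by
    by_contra hcon
    push Not at hcon
    have := cy_basis b ⟨0, by omega⟩ ⟨1, by omega⟩ (hB _ _)
    simp at this
  choose f hf using fun i => hsurj (b i)
  have hspan : Submodule.span R (Set.range f) = ⊤ :=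
    IsLocalRing.span_eq_top_of_tmul_eq_basis f b hf
  rcases Nat.lt_or_ge (finrank κ V) 1 with h0 | h1
  · refine ⟨0, ?_⟩
    rw [← hspan]
    have hem : IsEmpty (Fin (finrank κ V)) := by
      rw [Nat.lt_one_iff.1 h0]
      infer_instance
    rw [Set.range_eq_empty f, Submodule.span_empty, Submodule.span_singleton_eq_bot]
  · have heq : finrank κ V = 1 := le_antisymm hn h1
    refine ⟨f ⟨0, by omega⟩, ?_⟩
    rw [← hspan]
    congr 1
    ext x
    simp only [Set.mem_singleton_iff, Set.mem_range]
    constructor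
    · rintro rfl
      exact ⟨_, rfl⟩
    · rintro ⟨i, rfl⟩
      congr 1
      apply Fin.ext
      have := i.2
      simp only
      omega

theorem equiv_of_cyclic {k : Type} [Field k] [Algebra k R] [Module.Finite k R] {M : Type}
    [AddCommGroup M] [Module k M] [Module R M] [IsScalarTower k R M] [Module.Finite k M]
    (h : finrank k M = finrank k R) (hc : ∃ m : M, Submodule.span R {m} = ⊤) :
    Nonempty (M ≃ₗ[R] R) := by
  obtain ⟨m, hm⟩ := hc
  let φ : R →ₗ[R] M := LinearMap.toSpanSingleton R M m
  have hs : Function.Surjective φ := by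
    intro x
    have hx : x ∈ Submodule.span R {m} := by rw [hm]; trivial
    obtain ⟨r, hr⟩ := Submodule.mem_span_singleton.1 hx
    exact ⟨r, hr⟩
  have hi : Function.Injective φ := by
    have := (LinearMap.injective_iff_surjective_of_finrank_eq_finrank (K := k)
      (f := φ.restrictScalars k) h.symm).2 hs
    exact this
  exact ⟨(LinearEquiv.ofBijective φ ⟨hi, hs⟩).symm⟩

end cyclic

end Pool.Agent.Tach
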