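import Pool.Agent.Work.MP_cd91b4_al.Rank

/-! # Gradings by commuting projections -/

namespace Pool.Agent.Tach

open TensorProduct Module

variable {k : Type} [Field k]

/-- A (bounded, non-negative) grading of a vector space, given by its projections. -/
structure IsGr {V : Type} [AddCommGroup V] [Module k V] (P : ℕ → V →ₗ[k] V) : Prop where
  orth : ∀ i j v, P i (P j v) = if i = j then P i v else 0
  tot : ∃ n, (∀ j, n < j → P j = 0) ∧ ∀ v, ∑ j ∈ Finset.range (n + 1), P j v = v

section

variable {V W : Type} [AddCommGroup V] [Module k V] [AddCommGroup W] [Module k W]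
  {P : ℕ → V →ₗ[k] V} {Q : ℕ → W →ₗ[k] W}

theorem IsGr.same (h : IsGr P) (i : ℕ) (v : V) : P i (P i v) = P i v := by
  rw [h.orth, if_pos rfl]

theorem IsGr.diff (h : IsGr P) {i j : ℕ} (hij : i ≠ j) (v : V) : P i (P j v) = 0 := by
  rw [h.orth, if_neg hij]

theorem IsGr.sum_large (h : IsGr P) : ∃ n, ∀ N, n ≤ N → ∀ v,
    ∑ j ∈ Finset.range (N + 1), P j v = v := by
  obtain ⟨n, h0, ht⟩ := h.tot
  refine ⟨n, fun N hN v => ?_⟩
  rw [← Finset.sum_subset (s₁ := Finset.range (n + 1)) (Finset.range_mono (by omega))]
  · exact ht v
  · intro j _ hj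
    rw [h0 j (by simpa using hj)]
    rfl

/-- Extensionality through the graded pieces. -/
theorem IsGr.eq_zero (h : IsGr P) {v : V} (hv : ∀ j, P j v = 0) : v = 0 := by
  obtain ⟨n, _, ht⟩ := h.tot
  rw [← ht v]
  exact Finset.sum_eq_zero fun j _ => hv j

/-- Grading of the tensor product over the field. -/
noncomputable def kT (P : ℕ → V →ₗ[k] V) (Q : ℕ → W →ₗ[k] W) (j : ℕ) :
    V ⊗[k] W →ₗ[k] V ⊗[k] W :=
  ∑ p ∈ Finset.HasAntidiagonal.antidiagonal j, TensorProduct.map (P p.1) (Q p.2)

theorem kT_tmul (j : ℕ) (v : V) (w : W) :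
    kT P Q j (v ⊗ₜ w) = ∑ p ∈ Finset.HasAntidiagonal.antidiagonal j, P p.1 v ⊗ₜ[k] Q p.2 w := by
  simp [kT]

theorem kT_hom (hP : IsGr P) (hQ : IsGr Q) (a b j : ℕ) (v : V) (w : W) :
    kT P Q j (P a v ⊗ₜ[k] Q b w) = if a + b = j then P a v ⊗ₜ[k] Q b w else 0 := by
  rw [kT_tmul]
  split_ifs with h
  · rw [Finset.sum_eq_single (a, b)]
    · rw [hP.same, hQ.same]
    · rintro ⟨c, d⟩ hcd hne
      rw [Finset.HasAntidiagonal.mem_antidiagonal] at hcd
      simp only at hcd ⊢
      by_cases hc : c = a
      · have hd : d ≠ b := by
          rintro rfl; exact hne (by rw [hc])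
        rw [hQ.diff hd, TensorProduct.tmul_zero]
      · rw [hP.diff hc, TensorProduct.zero_tmul]
    · intro hn
      exact absurd (Finset.HasAntidiagonal.mem_antidiagonal.2 h) hn
  · refine Finset.sum_eq_zero ?_
    rintro ⟨c, d⟩ hcd
    rw [Finset.HasAntidiagonal.mem_antidiagonal] at hcd
    simp only at hcd ⊢
    by_cases hc : c = a
    · have hd : d ≠ b := by
        rintro rfl; exact h (by rw [← hc, hcd])
      rw [hQ.diff hd, TensorProduct.tmul_zero]
    · rw [hP.diff hc, TensorProduct.zero_tmul]

theorem kT_isGr (hP : IsGr P) (hQ : IsGr Q) : IsGr (kT P Q) where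
  orth := by
    intro i j x
    induction x using TensorProduct.induction_on with
    | zero => simp
    | add x y hx hy =>
      rw [map_add, map_add, hx, hy]
      split_ifs <;> simp
    | tmul v w =>
      rw [kT_tmul j, map_sum]
      have : ∀ p ∈ Finset.HasAntidiagonal.antidiagonal j, kT P Q i (P p.1 v ⊗ₜ[k] Q p.2 w) =
          if i = j then P p.1 v ⊗ₜ[k] Q p.2 w else 0 := by
        intro p hp
        rw [kT_hom hP hQ, Finset.HasAntidiagonal.mem_antidiagonal.1 hp]
        simp only [eq_comm]
      rw [Finset.sum_congr rfl this]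
      split_ifs with h
      · rw [h, kT_tmul]
      · simp
  tot := by
    obtain ⟨n, hn0, hn⟩ := hP.tot
    obtain ⟨m, hm0, hm⟩ := hQ.tot
    have hzero : ∀ a b, n < a ∨ m < b → TensorProduct.map (P a) (Q b) = 0 := by
      rintro a b (h | h)
      · rw [hn0 a h, TensorProduct.map_zero_left]
      · rw [hm0 b h, TensorProduct.map_zero_right]
    refine ⟨n + m, fun j hj => ?_, fun x => ?_⟩
    · refine Finset.sum_eq_zero ?_
      rintro ⟨a, b⟩ hab
      rw [Finset.HasAntidiagonal.mem_antidiagonal] at hab
      simp only at hab
      exact hzero a b (by omega)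
    · induction x using TensorProduct.induction_on with
      | zero => simp
      | add x y hx hy =>
        simp only [map_add, Finset.sum_add_distrib]
        rw [hx, hy]
      | tmul v w =>
        simp only [kT_tmul]
        have h1 : ∑ j ∈ Finset.range (n + m + 1), ∑ p ∈ Finset.HasAntidiagonal.antidiagonal j,
            P p.1 v ⊗ₜ[k] Q p.2 w =
            ∑ a ∈ Finset.range (n + m + 1), ∑ b ∈ Finset.range (n + m + 1),
              P a v ⊗ₜ[k] Q b w := by
          rw [← Finset.sum_product', Finset.sum_sigma']
          refine Finset.sum_bij_ne_zero (fun x _ _ => x.2) ?_ ?_ ?_ ?_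
          · rintro ⟨j, a, b⟩ h1 _
            simp only [Finset.mem_sigma, Finset.mem_range, Finset.HasAntidiagonal.mem_antidiagonal] at h1
            simp only [Finset.mem_product, Finset.mem_range]
            omega
          · rintro ⟨j, a, b⟩ h1 _ ⟨j', a', b'⟩ h1' _ h
            simp only [Finset.mem_sigma, Finset.mem_range, Finset.HasAntidiagonal.mem_antidiagonal] at h1 h1'
            simp only at h
            obtain ⟨rfl, rfl⟩ := Prod.mk.inj h
            obtain ⟨_, rfl⟩ := h1
            obtain ⟨_, rfl⟩ := h1'
            rfl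
          · rintro ⟨a, b⟩ _ hne
            have ha : a ≤ n := by
              by_contra hc
              apply hne
              simp only
              rw [hn0 a (by omega)]
              simp
            have hb : b ≤ m := by
              by_contra hc
              apply hne
              simp only
              rw [hm0 b (by omega)]
              simp
            refine ⟨⟨a + b, a, b⟩, ?_, hne, rfl⟩
            simp only [Finset.mem_sigma, Finset.mem_range, Finset.HasAntidiagonal.mem_antidiagonal]
            exact ⟨by omega, trivial⟩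
          · rintro ⟨j, a, b⟩ _ _
            rfl
        rw [h1]
        simp only [← TensorProduct.tmul_sum, ← TensorProduct.sum_tmul]
        have h2 : ∑ a ∈ Finset.range (n + m + 1), P a v = v := by
          rw [← Finset.sum_subset (s₁ := Finset.range (n + 1)) (Finset.range_mono (by omega))]
          · exact hn v
          · intro j _ hj
            rw [hn0 j (by simpa using hj)]
            rfl
        have h3 : ∑ a ∈ Finset.range (n + m + 1), Q a w = w := by
          rw [← Finset.sum_subset (s₁ := Finset.range (m + 1)) (Finset.range_mono (by omega))]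
          · exact hm w
          · intro j _ hj
            rw [hm0 j (by simpa using hj)]
            rfl
        rw [h2, h3]

end

section

variable {V W : Type} [AddCommGroup V] [Module k V] [Module.Finite k V]
  [AddCommGroup W] [Module k W] [Module.Finite k W]
  {P : ℕ → V →ₗ[k] V}

/-- Rank of the graded pieces of `V ⊗ W`, with an idempotent family commuting on `W`. -/
theorem kT_rank (hP : IsGr P) (E : ℕ → W →ₗ[k] W)
    (hE : ∀ i j w, E i (E j w) = if i = j then E i w else 0) (j : ℕ) :
    finrank k (LinearMap.range (∑ p ∈ Finset.HasAntidiagonal.antidiagonal j,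
      TensorProduct.map (P p.1) (E p.2))) =
      ∑ p ∈ Finset.HasAntidiagonal.antidiagonal j,
        finrank k (LinearMap.range (P p.1)) * finrank k (LinearMap.range (E p.2)) := by
  classical
  rw [rank_sum]
  · exact Finset.sum_congr rfl fun p _ => rank_map _ _
  · rintro ⟨a, b⟩ hab ⟨c, d⟩ hcd x
    rw [Finset.HasAntidiagonal.mem_antidiagonal] at hab hcd
    simp only at hab hcd ⊢
    induction x using TensorProduct.induction_on with
    | zero => simp
    | add x y hx hy =>
      simp only [map_add]
      rw [hx, hy]
      split_ifs <;> simp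
    | tmul v w =>
      simp only [TensorProduct.map_tmul]
      split_ifs with h
      · obtain ⟨rfl, rfl⟩ := Prod.mk.inj h
        rw [hP.same, hE, if_pos rfl]
      · by_cases hac : a = c
        · have hbd : b ≠ d := by
            rintro rfl; exact h (by rw [hac])
          rw [hE, if_neg hbd, TensorProduct.tmul_zero]
        · rw [hP.diff hac, TensorProduct.zero_tmul]

end

end Pool.Agent.Tach
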