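import Pool.Agent.Work.MP_cd91b4_al.Chain
import Pool.Agent.Work.MP_cd91b4_al.Balance
import Pool.Agent.Work.MP_cd91b4_al.Cyclic

/-! # Part I: the graded Artinian theorem -/

namespace Pool.Agent.Tach

open TensorProduct Module

section

variable {k R : Type} [Field k] [CommRing R] [Algebra k R] [Module.Finite k R]
  {𝒜 : ℕ → Submodule k R} [GradedAlgebra 𝒜] {c : ℕ}

/-- The abstract form: `E m X` stands for the vanishing of Ext^j(X,R) for j between 1 and m. -/
theorem partI [IsLocalRing R] (h2 : (2 : k) ≠ 0) (h0 : hR 𝒜 0 = 1)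
    (hc : ∀ i, c < i → 𝒜 i = ⊥)
    (E : ℕ → ∀ (X : Type) [AddCommGroup X] [Module R X], Prop)
    (hE : ∀ (m : ℕ) (F M : Type) [AddCommGroup F] [Module R F] [Module.Free R F]
      [Module.Finite R F] [AddCommGroup M] [Module R M] (π : F →ₗ[R] M),
      Function.Surjective π → E (m + 1) M → E m (LinearMap.ker π) ∧
        ∀ u : LinearMap.ker π →ₗ[R] R, ∃ v : F →ₗ[R] R, ∀ x : LinearMap.ker π, v x = u x)
    (hD : E (4 * c + 2) (Du k R)) : Nonempty (Du k R ≃ₗ[R] R) := by
  let D : GM k R 𝒜 := { V := Du k R, P := dP 𝒜 c, gr := dP_isGrMod 𝒜 hc }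
  -- vanishing for the syzygies
  have hEn : ∀ a m, a + m = 4 * c + 2 → E m (D.seq hc a).V := by
    intro a
    induction a with
    | zero =>
      intro m hm
      have : m = 4 * c + 2 := by omega
      rw [this]
      exact hD
    | succ a ih =>
      intro m hm
      exact (hE m (Cov k R (D.seq hc a).V) (D.seq hc a).V (D.π hc a) (D.π_surjective hc a)
        (ih (m + 1) (by omega))).1
  have hT0 : ∀ a, a ≤ 4 * c + 1 → Function.Injective (TensorProduct.map (D.ι hc a)
      (LinearMap.id : (D.seq hc 0).V →ₗ[R] (D.seq hc 0).V)) := by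
    intro a ha
    refine dual_T (D.ι hc a) fun u => ?_
    obtain ⟨m, hm⟩ : ∃ m, a + (m + 1) = 4 * c + 2 := ⟨4 * c + 1 - a, by omega⟩
    exact (hE m (Cov k R (D.seq hc a).V) (D.seq hc a).V (D.π hc a) (D.π_surjective hc a)
      (hEn a (m + 1) hm)).2 u
  have hT := T_all (fun n => (D.seq hc n).V) (fun n => Cov k R (D.seq hc n).V)
    (D.ι hc) (D.π hc) (D.ι_injective hc) (D.π_surjective hc) (D.exact hc) (4 * c + 1) hT0
  have hsw := D.sw_eq hc h2 h0 (fun j hj => LinearMap.ext fun f => dP_zero 𝒜 (by omega) f)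
    finrank_Du (fun a b hab => hT b a hab) (fun n h => T_swap _ h)
  have : Module.Finite R (Du k R) := Module.Finite.of_restrictScalars_finite k R _
  refine equiv_of_cyclic (k := k) finrank_Du (cyclic_of_sw fun x y => ?_)
  have h := hsw (x ⊗ₜ[R] y)
  exact h.symm

end

end Pool.Agent.Tach
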