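import Pool.Agent.Work.MP_cd91b4_al.SymRank

/-! # Gradings of modules and of tensor products over the graded ring -/

namespace Pool.Agent.Tach

open TensorProduct Module

variable {k : Type} [Field k]

/-- A grading of an `R`-module compatible with the grading `𝒜` of `R`. -/
structure IsGrMod {R : Type} [CommRing R] [Algebra k R] (𝒜 : ℕ → Submodule k R)
    {M : Type} [AddCommGroup M] [Module k M] [Module R M] (P : ℕ → M →ₗ[k] M) : Prop
    extends IsGr P where
  smul : ∀ d (r : R), r ∈ 𝒜 d → ∀ j m, P j (r • m) = if d ≤ j then r • P (j - d) m else 0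

/-- Shift of an antidiagonal sum. -/
theorem antidiag_shift {A : Type} [AddCommMonoid A] (g : ℕ → ℕ → A) (d j : ℕ) :
    ∑ p ∈ Finset.HasAntidiagonal.antidiagonal j, (if d ≤ p.1 then g (p.1 - d) p.2 else 0) =
      if d ≤ j then ∑ p ∈ Finset.HasAntidiagonal.antidiagonal (j - d), g p.1 p.2 else 0 := by
  split_ifs with h
  · rw [← Finset.sum_filter]
    refine Finset.sum_bij (fun p _ => (p.1 - d, p.2)) ?_ ?_ ?_ ?_
    · rintro ⟨a, b⟩ hp
      rw [Finset.mem_filter, Finset.HasAntidiagonal.mem_antidiagonal] at hp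
      rw [Finset.HasAntidiagonal.mem_antidiagonal]
      simp only at hp ⊢
      omega
    · rintro ⟨a, b⟩ hp ⟨a', b'⟩ hp' he
      rw [Finset.mem_filter, Finset.HasAntidiagonal.mem_antidiagonal] at hp hp'
      simp only at hp hp' he
      obtain ⟨e1, e2⟩ := Prod.mk.inj he
      exact Prod.ext (by simp only; omega) e2
    · rintro ⟨a, b⟩ hp
      rw [Finset.HasAntidiagonal.mem_antidiagonal] at hp
      simp only at hp
      refine ⟨(a + d, b), ?_, ?_⟩
      · rw [Finset.mem_filter, Finset.HasAntidiagonal.mem_antidiagonal]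
        simp only
        omega
      · simp
    · rintro ⟨a, b⟩ _
      rfl
  · refine Finset.sum_eq_zero ?_
    rintro ⟨a, b⟩ hp
    rw [Finset.HasAntidiagonal.mem_antidiagonal] at hp
    simp only at hp ⊢
    rw [if_neg (by omega)]

theorem antidiag_shift' {A : Type} [AddCommMonoid A] (g : ℕ → ℕ → A) (d j : ℕ) :
    ∑ p ∈ Finset.HasAntidiagonal.antidiagonal j, (if d ≤ p.2 then g p.1 (p.2 - d) else 0) =
      if d ≤ j then ∑ p ∈ Finset.HasAntidiagonal.antidiagonal (j - d), g p.1 p.2 else 0 := by
  have h := antidiag_shift (fun a b => g b a) d j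
  rw [← Finset.Nat.sum_antidiagonal_swap] at h
  simp only [Prod.fst_swap, Prod.snd_swap] at h
  rw [h]
  split_ifs
  · rw [← Finset.Nat.sum_antidiagonal_swap]
    rfl
  · rfl

section

variable {R : Type} [CommRing R] [Algebra k R] {𝒜 : ℕ → Submodule k R} [GradedAlgebra 𝒜]
  {M N : Type} [AddCommGroup M] [Module k M] [Module R M] [IsScalarTower k R M]
  [AddCommGroup N] [Module k N] [Module R N] [IsScalarTower k R N]
  {P : ℕ → M →ₗ[k] M} {Q : ℕ → N →ₗ[k] N}

/-- The degree `j` projection on `M ⊗[R] N`, as an additive map. -/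
noncomputable def rTadd (hP : IsGrMod 𝒜 P) (hQ : IsGrMod 𝒜 Q) (j : ℕ) :
    M ⊗[R] N →+ M ⊗[R] N :=
  TensorProduct.liftAddHom
    (AddMonoidHom.mk' (fun m => AddMonoidHom.mk'
      (fun n => ∑ p ∈ Finset.HasAntidiagonal.antidiagonal j, P p.1 m ⊗ₜ[R] Q p.2 n)
      (fun a b => by simp only [map_add, TensorProduct.tmul_add, Finset.sum_add_distrib]))
      (fun a b => by
        ext n
        simp only [map_add, TensorProduct.add_tmul, Finset.sum_add_distrib,
          AddMonoidHom.mk'_apply, AddMonoidHom.add_apply]))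
    (by
      intro r m n
      simp only [AddMonoidHom.mk'_apply]
      induction r using DirectSum.Decomposition.inductionOn 𝒜 with
      | zero => simp
      | @homogeneous d r =>
        simp only [hP.smul d r.1 r.2, hQ.smul d r.1 r.2]
        have e1 : ∀ p : ℕ × ℕ, (if d ≤ p.1 then (r : R) • P (p.1 - d) m else 0) ⊗ₜ[R] Q p.2 n =
            if d ≤ p.1 then ((r : R) • P (p.1 - d) m) ⊗ₜ[R] Q p.2 n else 0 := by
          intro p; split_ifs <;> simp
        have e2 : ∀ p : ℕ × ℕ, P p.1 m ⊗ₜ[R] (if d ≤ p.2 then (r : R) • Q (p.2 - d) n else 0) =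
            if d ≤ p.2 then P p.1 m ⊗ₜ[R] ((r : R) • Q (p.2 - d) n) else 0 := by
          intro p; split_ifs <;> simp
        simp only [e1, e2]
        rw [antidiag_shift (fun a b => ((r : R) • P a m) ⊗ₜ[R] Q b n),
          antidiag_shift' (fun a b => P a m ⊗ₜ[R] ((r : R) • Q b n))]
        simp only [TensorProduct.smul_tmul]
      | add r s hr hs =>
        simp only [add_smul, map_add, TensorProduct.add_tmul, TensorProduct.tmul_add,
          Finset.sum_add_distrib, hr, hs])

theorem rTadd_tmul (hP : IsGrMod 𝒜 P) (hQ : IsGrMod 𝒜 Q) (j : ℕ) (m : M) (n : N) :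
    rTadd hP hQ j (m ⊗ₜ n) =
      ∑ p ∈ Finset.HasAntidiagonal.antidiagonal j, P p.1 m ⊗ₜ[R] Q p.2 n := by
  simp only [rTadd, TensorProduct.liftAddHom_tmul, AddMonoidHom.mk'_apply]

/-- The degree `j` projection on `M ⊗[R] N`. -/
noncomputable def rT (hP : IsGrMod 𝒜 P) (hQ : IsGrMod 𝒜 Q) (j : ℕ) :
    M ⊗[R] N →ₗ[k] M ⊗[R] N where
  toFun := rTadd hP hQ j
  map_add' := map_add _
  map_smul' := by
    intro c x
    simp only [RingHom.id_apply]
    induction x using TensorProduct.induction_on with
    | zero => simp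
    | add x y hx hy => rw [smul_add, map_add, hx, hy, map_add, smul_add]
    | tmul m n =>
      rw [TensorProduct.smul_tmul', rTadd_tmul, rTadd_tmul, Finset.smul_sum]
      refine Finset.sum_congr rfl fun p _ => ?_
      rw [map_smul, TensorProduct.smul_tmul']

theorem rT_tmul (hP : IsGrMod 𝒜 P) (hQ : IsGrMod 𝒜 Q) (j : ℕ) (m : M) (n : N) :
    rT hP hQ j (m ⊗ₜ n) =
      ∑ p ∈ Finset.HasAntidiagonal.antidiagonal j, P p.1 m ⊗ₜ[R] Q p.2 n :=
  rTadd_tmul hP hQ j m n

theorem rT_hom (hP : IsGrMod 𝒜 P) (hQ : IsGrMod 𝒜 Q) (a b j : ℕ) (v : M) (w : N) :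
    rT hP hQ j (P a v ⊗ₜ[R] Q b w) = if a + b = j then P a v ⊗ₜ[R] Q b w else 0 := by
  rw [rT_tmul]
  split_ifs with h
  · rw [Finset.sum_eq_single (a, b)]
    · rw [hP.same, hQ.same]
    · rintro ⟨c, d⟩ hcd hne
      rw [Finset.HasAntidiagonal.mem_antidiagonal] at hcd
      simp only at hcd ⊢
      by_cases hc : c = a
      · have hd : d ≠ b := by
          rintro rfl; exact hne (by rw [hc])
        rw [hQ.diff hd, TensorProduct.tmul_zero]
      · rw [hP.diff hc, TensorProduct.zero_tmul]
    · intro hn
      exact absurd (Finset.HasAntidiagonal.mem_antidiagonal.2 h) hn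
  · refine Finset.sum_eq_zero ?_
    rintro ⟨c, d⟩ hcd
    rw [Finset.HasAntidiagonal.mem_antidiagonal] at hcd
    simp only at hcd ⊢
    by_cases hc : c = a
    · have hd : d ≠ b := by
        rintro rfl; exact h (by rw [← hc, hcd])
      rw [hQ.diff hd, TensorProduct.tmul_zero]
    · rw [hP.diff hc, TensorProduct.zero_tmul]

theorem rT_isGr (hP : IsGrMod 𝒜 P) (hQ : IsGrMod 𝒜 Q) : IsGr (rT hP hQ) where
  orth := by
    intro i j x
    induction x using TensorProduct.induction_on with
    | zero => simp
    | add x y hx hy =>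
      rw [map_add, map_add, hx, hy]
      split_ifs <;> simp
    | tmul v w =>
      rw [rT_tmul hP hQ j, map_sum]
      have : ∀ p ∈ Finset.HasAntidiagonal.antidiagonal j, rT hP hQ i (P p.1 v ⊗ₜ[R] Q p.2 w) =
          if i = j then P p.1 v ⊗ₜ[R] Q p.2 w else 0 := by
        intro p hp
        rw [rT_hom hP hQ, Finset.HasAntidiagonal.mem_antidiagonal.1 hp]
        simp only [eq_comm]
      rw [Finset.sum_congr rfl this]
      split_ifs with h
      · rw [h, rT_tmul]
      · simp
  tot := by
    obtain ⟨n, hn0, hn⟩ := hP.tot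
    obtain ⟨m, hm0, hm⟩ := hQ.tot
    have hzero : ∀ a b v w, n < a ∨ m < b → P a v ⊗ₜ[R] Q b w = 0 := by
      rintro a b v w (h | h)
      · rw [hn0 a h]; simp
      · rw [hm0 b h]; simp
    refine ⟨n + m, fun j hj => ?_, fun x => ?_⟩
    · refine LinearMap.ext fun x => ?_
      rw [LinearMap.zero_apply]
      induction x using TensorProduct.induction_on with
      | zero => simp
      | add x y hx hy => rw [map_add, hx, hy, add_zero]
      | tmul v w =>
        rw [rT_tmul]
        refine Finset.sum_eq_zero ?_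
        rintro ⟨a, b⟩ hab
        rw [Finset.HasAntidiagonal.mem_antidiagonal] at hab
        simp only at hab
        exact hzero a b v w (by omega)
    · induction x using TensorProduct.induction_on with
      | zero => simp
      | add x y hx hy =>
        simp only [map_add, Finset.sum_add_distrib]
        rw [hx, hy]
      | tmul v w =>
        simp only [rT_tmul]
        have h1 : ∑ j ∈ Finset.range (n + m + 1), ∑ p ∈ Finset.HasAntidiagonal.antidiagonal j,
            P p.1 v ⊗ₜ[R] Q p.2 w =
            ∑ a ∈ Finset.range (n + m + 1), ∑ b ∈ Finset.range (n + m + 1),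
              P a v ⊗ₜ[R] Q b w := by
          rw [← Finset.sum_product', Finset.sum_sigma']
          refine Finset.sum_bij_ne_zero (fun x _ _ => x.2) ?_ ?_ ?_ ?_
          · rintro ⟨j, a, b⟩ h1 _
            simp only [Finset.mem_sigma, Finset.mem_range,
              Finset.HasAntidiagonal.mem_antidiagonal] at h1
            simp only [Finset.mem_product, Finset.mem_range]
            omega
          · rintro ⟨j, a, b⟩ h1 _ ⟨j', a', b'⟩ h1' _ h
            simp only [Finset.mem_sigma, Finset.mem_range,
              Finset.HasAntidiagonal.mem_antidiagonal] at h1 h1'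
            simp only at h
            obtain ⟨rfl, rfl⟩ := Prod.mk.inj h
            obtain ⟨_, rfl⟩ := h1
            obtain ⟨_, rfl⟩ := h1'
            rfl
          · rintro ⟨a, b⟩ _ hne
            have ha : a ≤ n := by
              by_contra hc
              exact hne (hzero a b v w (by omega))
            have hb : b ≤ m := by
              by_contra hc
              exact hne (hzero a b v w (by omega))
            refine ⟨⟨a + b, a, b⟩, ?_, hne, rfl⟩
            simp only [Finset.mem_sigma, Finset.mem_range,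
              Finset.HasAntidiagonal.mem_antidiagonal]
            exact ⟨by omega, trivial⟩
          · rintro ⟨j, a, b⟩ _ _
            rfl
        rw [h1]
        simp only [← TensorProduct.tmul_sum, ← TensorProduct.sum_tmul]
        have h2 : ∑ a ∈ Finset.range (n + m + 1), P a v = v := by
          rw [← Finset.sum_subset (s₁ := Finset.range (n + 1)) (Finset.range_mono (by omega))]
          · exact hn v
          · intro j _ hj
            rw [hn0 j (by simpa using hj)]
            rfl
        have h3 : ∑ a ∈ Finset.range (n + m + 1), Q a w = w := by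
          rw [← Finset.sum_subset (s₁ := Finset.range (m + 1)) (Finset.range_mono (by omega))]
          · exact hm w
          · intro j _ hj
            rw [hm0 j (by simpa using hj)]
            rfl
        rw [h2, h3]

/-- Functoriality of the projections. -/
theorem rT_map {M' N' : Type} [AddCommGroup M'] [Module k M'] [Module R M']
    [IsScalarTower k R M'] [AddCommGroup N'] [Module k N'] [Module R N'] [IsScalarTower k R N']
    {P' : ℕ → M' →ₗ[k] M'} {Q' : ℕ → N' →ₗ[k] N'}
    (hP : IsGrMod 𝒜 P) (hQ : IsGrMod 𝒜 Q) (hP' : IsGrMod 𝒜 P') (hQ' : IsGrMod 𝒜 Q')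
    (f : M →ₗ[R] M') (g : N →ₗ[R] N') (hf : ∀ j m, f (P j m) = P' j (f m))
    (hg : ∀ j m, g (Q j m) = Q' j (g m)) (j : ℕ) (x : M ⊗[R] N) :
    TensorProduct.map f g (rT hP hQ j x) = rT hP' hQ' j (TensorProduct.map f g x) := by
  induction x using TensorProduct.induction_on with
  | zero => simp
  | add x y hx hy => simp only [map_add, hx, hy]
  | tmul m n =>
    rw [rT_tmul, map_sum, TensorProduct.map_tmul, rT_tmul]
    refine Finset.sum_congr rfl fun p _ => ?_
    rw [TensorProduct.map_tmul, hf, hg]

theorem rT_comm (hP : IsGrMod 𝒜 P) (hQ : IsGrMod 𝒜 Q) (j : ℕ) (x : M ⊗[R] N) :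
    rT hQ hP j (TensorProduct.comm R M N x) = TensorProduct.comm R M N (rT hP hQ j x) := by
  induction x using TensorProduct.induction_on with
  | zero => simp
  | add x y hx hy => simp only [map_add, hx, hy]
  | tmul v w =>
    rw [TensorProduct.comm_tmul, rT_tmul, rT_tmul, map_sum,
      ← Finset.Nat.sum_antidiagonal_swap]
    refine Finset.sum_congr rfl fun p _ => ?_
    rw [TensorProduct.comm_tmul]
    rfl

/-- The swap as a `k`-linear map. -/
noncomputable def sw (k : Type) [Field k] (R : Type) [CommRing R] [Algebra k R] (M : Type)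
    [AddCommGroup M] [Module k M] [Module R M] [IsScalarTower k R M] :
    M ⊗[R] M →ₗ[k] M ⊗[R] M :=
  (TensorProduct.comm R M M).toLinearMap.restrictScalars k

theorem sw_apply (x : M ⊗[R] M) : sw k R M x = TensorProduct.comm R M M x := rfl

theorem sw_tmul (m n : M) : sw k R M (m ⊗ₜ n) = n ⊗ₜ m := rfl

theorem sw_sw (x : M ⊗[R] M) : sw k R M (sw k R M x) = x := by
  induction x using TensorProduct.induction_on with
  | zero => simp
  | add x y hx hy => simp only [map_add, hx, hy]
  | tmul v w => rfl

theorem rT_sw (hP : IsGrMod 𝒜 P) (j : ℕ) (x : M ⊗[R] M) :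
    rT hP hP j (sw k R M x) = sw k R M (rT hP hP j x) := rT_comm hP hP j x

end

end Pool.Agent.Tach
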