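import Mathlib

/-! # Rank lemmas over a field -/

namespace Pool.Agent.Tach

open TensorProduct Module

variable {k : Type} [Field k]

section

variable {V1 V2 V3 V4 : Type}
  [AddCommGroup V1] [Module k V1] [Module.Finite k V1]
  [AddCommGroup V2] [Module k V2] [Module.Finite k V2]
  [AddCommGroup V3] [Module k V3] [Module.Finite k V3]
  [AddCommGroup V4] [Module k V4] [Module.Finite k V4]

/-- Dimension count for a four term exact sequence. -/
theorem rank_four (U1 : Submodule k V1) (U2 : Submodule k V2) (U3 : Submodule k V3)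
    (U4 : Submodule k V4) (f1 : V1 →ₗ[k] V2) (f2 : V2 →ₗ[k] V3) (f3 : V3 →ₗ[k] V4)
    (h1 : ∀ v ∈ U1, f1 v ∈ U2) (h2 : ∀ v ∈ U2, f2 v ∈ U3) (h3 : ∀ v ∈ U3, f3 v ∈ U4)
    (inj : ∀ v ∈ U1, f1 v = 0 → v = 0)
    (c1 : ∀ v ∈ U1, f2 (f1 v) = 0) (e2 : ∀ v ∈ U2, f2 v = 0 → ∃ u ∈ U1, f1 u = v)
    (c2 : ∀ v ∈ U2, f3 (f2 v) = 0) (e3 : ∀ v ∈ U3, f3 v = 0 → ∃ u ∈ U2, f2 u = v)
    (surj : ∀ w ∈ U4, ∃ v ∈ U3, f3 v = w) :
    finrank k U1 + finrank k U3 = finrank k U2 + finrank k U4 := by
  -- restricted maps
  let g1 : U1 →ₗ[k] U2 := f1.restrict h1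
  let g2 : U2 →ₗ[k] U3 := f2.restrict h2
  let g3 : U3 →ₗ[k] U4 := f3.restrict h3
  have r3 := g3.finrank_range_add_finrank_ker
  have r2 := g2.finrank_range_add_finrank_ker
  have r1 := g1.finrank_range_add_finrank_ker
  have s3 : LinearMap.range g3 = ⊤ := by
    rw [LinearMap.range_eq_top]
    rintro ⟨w, hw⟩
    obtain ⟨v, hv, hvw⟩ := surj w hw
    exact ⟨⟨v, hv⟩, Subtype.ext hvw⟩
  have k1 : LinearMap.ker g1 = ⊥ := by
    rw [LinearMap.ker_eq_bot']
    rintro ⟨v, hv⟩ h
    exact Subtype.ext (inj v hv (congrArg Subtype.val h))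
  have k2 : LinearMap.ker g2 = LinearMap.range g1 := by
    ext ⟨v, hv⟩
    rw [LinearMap.mem_ker, LinearMap.mem_range]
    constructor
    · intro h
      obtain ⟨u, hu, huv⟩ := e2 v hv (congrArg Subtype.val h)
      exact ⟨⟨u, hu⟩, Subtype.ext huv⟩
    · rintro ⟨⟨u, hu⟩, h⟩
      have h' : f1 u = v := congrArg Subtype.val h
      refine Subtype.ext ?_
      change f2 v = 0
      rw [← h']
      exact c1 u hu
  have k3 : LinearMap.ker g3 = LinearMap.range g2 := by
    ext ⟨v, hv⟩
    rw [LinearMap.mem_ker, LinearMap.mem_range]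
    constructor
    · intro h
      obtain ⟨u, hu, huv⟩ := e3 v hv (congrArg Subtype.val h)
      exact ⟨⟨u, hu⟩, Subtype.ext huv⟩
    · rintro ⟨⟨u, hu⟩, h⟩
      have h' : f2 u = v := congrArg Subtype.val h
      refine Subtype.ext ?_
      change f3 v = 0
      rw [← h']
      exact c2 u hu
  rw [s3, finrank_top] at r3
  rw [k1, finrank_bot] at r1
  rw [k2] at r2
  rw [k3] at r3
  omega

end

section

variable {V W : Type} [AddCommGroup V] [Module k V] [Module.Finite k V]
  [AddCommGroup W] [Module k W] [Module.Finite k W]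

/-- Rank of a tensor product of linear maps. -/
theorem rank_map (e : V →ₗ[k] V) (f : W →ₗ[k] W) :
    finrank k (LinearMap.range (TensorProduct.map e f)) =
      finrank k (LinearMap.range e) * finrank k (LinearMap.range f) := by
  have h : TensorProduct.map e f =
      (TensorProduct.map (LinearMap.range e).subtype (LinearMap.range f).subtype) ∘ₗ
        (TensorProduct.map e.rangeRestrict f.rangeRestrict) := by
    rw [← TensorProduct.map_comp]
    rfl
  have hs : Function.Surjective (TensorProduct.map e.rangeRestrict f.rangeRestrict) :=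
    TensorProduct.map_surjective e.surjective_rangeRestrict f.surjective_rangeRestrict
  have hi : Function.Injective
      (TensorProduct.map (LinearMap.range e).subtype (LinearMap.range f).subtype) :=
    TensorProduct.map_injective_of_flat_flat _ _ (Submodule.injective_subtype _)
      (Submodule.injective_subtype _)
  rw [h, LinearMap.range_comp_of_range_eq_top _ (LinearMap.range_eq_top.2 hs),
    LinearMap.finrank_range_of_inj hi, Module.finrank_tensorProduct]

/-- Rank of the sum of two orthogonal idempotents. -/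
theorem rank_add (e f : V →ₗ[k] V) (he' : ∀ v, e (e v) = e v) (hf' : ∀ v, f (f v) = f v)
    (hef' : ∀ v, e (f v) = 0) (hfe' : ∀ v, f (e v) = 0) :
    finrank k (LinearMap.range (e + f)) =
      finrank k (LinearMap.range e) + finrank k (LinearMap.range f) := by
  have h1 : LinearMap.range (e + f) = LinearMap.range e ⊔ LinearMap.range f := by
    apply le_antisymm
    · rintro _ ⟨v, rfl⟩
      exact Submodule.add_mem_sup ⟨v, rfl⟩ ⟨v, rfl⟩
    · rw [sup_le_iff]
      constructor
      · rintro _ ⟨v, rfl⟩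
        exact ⟨e v, by simp [he', hfe']⟩
      · rintro _ ⟨v, rfl⟩
        exact ⟨f v, by simp [hf', hef']⟩
  have h2 : LinearMap.range e ⊓ LinearMap.range f = ⊥ := by
    rw [eq_bot_iff]
    rintro x ⟨⟨v, hv⟩, ⟨w, hw⟩⟩
    rw [Submodule.mem_bot, ← hv, ← he', hv, ← hw, hef']
  have h3 := Submodule.finrank_sup_add_finrank_inf_eq (LinearMap.range e) (LinearMap.range f)
  rw [h2, finrank_bot, add_zero, ← h1] at h3
  exact h3

/-- Rank of a sum of pairwise orthogonal idempotents. -/
theorem rank_sum {ι : Type} [DecidableEq ι] (s : Finset ι) (e : ι → V →ₗ[k] V)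
    (h : ∀ i ∈ s, ∀ j ∈ s, ∀ v, e i (e j v) = if i = j then e i v else 0) :
    finrank k (LinearMap.range (∑ i ∈ s, e i)) = ∑ i ∈ s, finrank k (LinearMap.range (e i)) := by
  induction s using Finset.induction_on with
  | empty => rw [Finset.sum_empty, Finset.sum_empty, LinearMap.range_zero, finrank_bot]
  | insert a s ha ih =>
    have hs : ∀ i ∈ s, ∀ j ∈ s, ∀ v, e i (e j v) = if i = j then e i v else 0 := fun i hi j hj =>
      h i (Finset.mem_insert_of_mem hi) j (Finset.mem_insert_of_mem hj)
    rw [Finset.sum_insert ha, Finset.sum_insert ha, ← ih hs]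
    apply rank_add
    · intro v
      have haa := h a (Finset.mem_insert_self _ _) a (Finset.mem_insert_self _ _) v
      rwa [if_pos rfl] at haa
    · intro v
      rw [LinearMap.sum_apply, LinearMap.sum_apply]
      refine Finset.sum_congr rfl fun i hi => ?_
      rw [map_sum, Finset.sum_eq_single i]
      · rw [hs i hi i hi, if_pos rfl]
      · intro j hj hji
        rw [hs i hi j hj, if_neg hji.symm]
      · intro h'; exact absurd hi h'
    · intro v
      rw [LinearMap.sum_apply, map_sum]
      refine Finset.sum_eq_zero fun i hi => ?_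
      rw [h a (Finset.mem_insert_self _ _) i (Finset.mem_insert_of_mem hi), if_neg]
      rintro rfl; exact ha hi
    · intro v
      rw [LinearMap.sum_apply]
      refine Finset.sum_eq_zero fun i hi => ?_
      rw [h i (Finset.mem_insert_of_mem hi) a (Finset.mem_insert_self _ _), if_neg]
      rintro rfl; exact ha hi

/-- Rank is invariant under conjugation by a linear equivalence. -/
theorem rank_conj (Θ : V ≃ₗ[k] W) (e : V →ₗ[k] V) (f : W →ₗ[k] W)
    (h : ∀ v, Θ (e v) = f (Θ v)) :
    finrank k (LinearMap.range e) = finrank k (LinearMap.range f) := by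
  have : LinearMap.range f = (LinearMap.range e).map Θ.toLinearMap := by
    ext w
    simp only [LinearMap.mem_range, Submodule.mem_map]
    constructor
    · rintro ⟨w', rfl⟩
      refine ⟨e (Θ.symm w'), ⟨_, rfl⟩, ?_⟩
      have := h (Θ.symm w')
      rw [Θ.apply_symm_apply] at this
      exact this
    · rintro ⟨_, ⟨v, rfl⟩, rfl⟩
      exact ⟨Θ v, (h v).symm⟩
  rw [this]
  exact (LinearEquiv.finrank_map_eq Θ _).symm

end

end Pool.Agent.Tach
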