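import Pool.Agent.Work.MP_cd91b4_al.Cov

/-! # Ranks of the graded pieces -/

namespace Pool.Agent.Tach

open TensorProduct Module

theorem anti_assoc {A : Type} [AddCommMonoid A] (f : ℕ → ℕ → ℕ → A) (j : ℕ) :
    ∑ p ∈ Finset.HasAntidiagonal.antidiagonal j,
      ∑ q ∈ Finset.HasAntidiagonal.antidiagonal p.1, f q.1 q.2 p.2 =
    ∑ p ∈ Finset.HasAntidiagonal.antidiagonal j,
      ∑ q ∈ Finset.HasAntidiagonal.antidiagonal p.2, f p.1 q.1 q.2 := by
  rw [Finset.sum_sigma', Finset.sum_sigma']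
  refine Finset.sum_bij' (fun x _ => ⟨(x.2.1, x.2.2 + x.1.2), (x.2.2, x.1.2)⟩)
    (fun x _ => ⟨(x.1.1 + x.2.1, x.2.2), (x.1.1, x.2.1)⟩) ?_ ?_ ?_ ?_ ?_
  · rintro ⟨⟨a, b⟩, ⟨c, d⟩⟩ h
    simp only [Finset.mem_sigma, Finset.HasAntidiagonal.mem_antidiagonal] at h ⊢
    exact ⟨by omega, trivial⟩
  · rintro ⟨⟨a, b⟩, ⟨c, d⟩⟩ h
    simp only [Finset.mem_sigma, Finset.HasAntidiagonal.mem_antidiagonal] at h ⊢
    exact ⟨by omega, trivial⟩
  · rintro ⟨⟨a, b⟩, ⟨c, d⟩⟩ h
    simp only [Finset.mem_sigma, Finset.HasAntidiagonal.mem_antidiagonal] at h ⊢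
    obtain ⟨h1, rfl⟩ := h
    rfl
  · rintro ⟨⟨a, b⟩, ⟨c, d⟩⟩ h
    simp only [Finset.mem_sigma, Finset.HasAntidiagonal.mem_antidiagonal] at h ⊢
    obtain ⟨h1, rfl⟩ := h
    rfl
  · rintro ⟨⟨a, b⟩, ⟨c, d⟩⟩ h
    rfl

variable {k : Type} [Field k]

section total

variable {V : Type} [AddCommGroup V] [Module k V] [Module.Finite k V]

theorem IsGr.rank_total {P : ℕ → V →ₗ[k] V} (h : IsGr P) {n : ℕ} (hn : ∀ j, n < j → P j = 0) :
    ∑ j ∈ Finset.range (n + 1), finrank k (LinearMap.range (P j)) = finrank k V := by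
  have e : ∑ j ∈ Finset.range (n + 1), P j = LinearMap.id := by
    refine LinearMap.ext fun v => ?_
    rw [LinearMap.sum_apply, LinearMap.id_apply]
    obtain ⟨N, hN⟩ := h.sum_large
    conv_rhs => rw [← hN (max n N) (le_max_right _ _) v]
    have hsub : Finset.range (n + 1) ⊆ Finset.range (max n N + 1) :=
      Finset.range_mono (Nat.succ_le_succ (le_max_left n N))
    refine Finset.sum_subset (f := fun j => P j v) hsub fun j _ hj => ?_
    rw [hn j (by simpa using hj)]
    rfl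
  rw [← rank_sum _ _ (fun i _ j _ v => h.orth i j v), e, LinearMap.range_id, finrank_top]

end total

section

variable {R : Type} [CommRing R] [Algebra k R] [Module.Finite k R]
  (𝒜 : ℕ → Submodule k R) [GradedAlgebra 𝒜]
  {M : Type} [AddCommGroup M] [Module k M] [Module R M] [IsScalarTower k R M]
  {P : ℕ → M →ₗ[k] M}

omit [Module.Finite k R] [Module R M] [IsScalarTower k R M] in
theorem kT_one (j : ℕ) (m : M) :
    kT (piR 𝒜) P j ((1 : R) ⊗ₜ[k] m) = 1 ⊗ₜ P j m := by
  rw [kT_tmul, Finset.sum_eq_single (0, j)]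
  · rw [piR_of_mem 𝒜 (SetLike.GradedOne.one_mem), if_pos rfl]
  · rintro ⟨a, b⟩ hab hne
    rw [Finset.HasAntidiagonal.mem_antidiagonal] at hab
    simp only at hab ⊢
    have : a ≠ 0 := by
      rintro rfl
      apply hne
      rw [zero_add] at hab
      rw [hab]
    rw [piR_of_mem 𝒜 (SetLike.GradedOne.one_mem), if_neg this, TensorProduct.zero_tmul]
  · intro hn
    exact absurd (Finset.HasAntidiagonal.mem_antidiagonal.2 (zero_add j)) hn

/-- Pure tensors in the cover. -/
def ct (k : Type) {R M : Type} [Field k] [CommRing R] [Algebra k R] [AddCommGroup M] [Module k M]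
    (r : R) (m : M) : Cov k R M := (r ⊗ₜ[k] m : R ⊗[k] M)

omit [Module.Finite k R] [Module R M] [IsScalarTower k R M] in
theorem cP_one (j : ℕ) (m : M) : cP 𝒜 P j (ct k 1 m) = ct k 1 (P j m) :=
  kT_one 𝒜 j m

omit [Module.Finite k R] [Module R M] [IsScalarTower k R M] in
theorem cP_ct (j : ℕ) (r : R) (m : M) : cP 𝒜 P j (ct k r m) =
    ∑ q ∈ Finset.HasAntidiagonal.antidiagonal j, ct k (piR 𝒜 q.1 r) (P q.2 m) :=
  kT_tmul j r m

omit [Module.Finite k R] [Module R M] [IsScalarTower k R M] in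
theorem ct_smul (r : R) (m : M) : ct k r m = r • ct k 1 m := by
  change (r ⊗ₜ[k] m : R ⊗[k] M) = r • ((1 : R) ⊗ₜ[k] m)
  rw [TensorProduct.smul_tmul', smul_eq_mul, mul_one]

/-- The equivalence `N ⊗[k] M ≃ N ⊗[R] Cov`. -/
noncomputable def eqNF (k R : Type) [Field k] [CommRing R] [Algebra k R] (N M : Type)
    [AddCommGroup N] [Module k N] [Module R N]
    [IsScalarTower k R N] [AddCommGroup M] [Module k M] : N ⊗[k] M ≃ₗ[k] N ⊗[R] Cov k R M :=
  ((AlgebraTensorModule.cancelBaseChange k R R N M).restrictScalars k).symm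

omit [Module.Finite k R] [Module R M] [IsScalarTower k R M] in
theorem eqNF_tmul {N : Type} [AddCommGroup N] [Module k N] [Module R N] [IsScalarTower k R N]
    (n : N) (m : M) : eqNF k R N M (n ⊗ₜ m) = n ⊗ₜ[R] ct k 1 m := rfl

omit [Module R M] [IsScalarTower k R M] in
/-- (A) rank of the degree `j` piece of `N ⊗[R] (R ⊗[k] M)`. -/
theorem rank_NF {N : Type} [AddCommGroup N] [Module k N] [Module R N] [IsScalarTower k R N]
    {Q : ℕ → N →ₗ[k] N} [Module.Finite k N] [Module.Finite k M]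
    (hN : IsGrMod 𝒜 Q) (hP : IsGr P)
    (hF : IsGrMod 𝒜 (M := Cov k R M) (cP 𝒜 P)) (j : ℕ) :
    finrank k (LinearMap.range (rT hN hF j)) =
      ∑ p ∈ Finset.HasAntidiagonal.antidiagonal j,
        finrank k (LinearMap.range (Q p.1)) * finrank k (LinearMap.range (P p.2)) := by
  rw [← kT_rank hN.toIsGr P hP.orth j]
  have := finite_tensor k R N (Cov k R M)
  symm
  refine rank_conj (eqNF k R N M) _ _ ?_
  intro x
  change eqNF k R N M (kT Q P j x) = _
  induction x using TensorProduct.induction_on with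
  | zero => simp
  | add x y hx hy => simp only [map_add, hx, hy]
  | tmul n m =>
    rw [eqNF_tmul, rT_tmul, kT_tmul, map_sum]
    refine Finset.sum_congr rfl fun p _ => ?_
    rw [eqNF_tmul, cP_one]

/-- The equivalence `R ⊗[k] (M ⊗[k] M) ≃ Cov ⊗[R] Cov`. -/
noncomputable def eqFF (k R : Type) [Field k] [CommRing R] [Algebra k R] (M : Type)
    [AddCommGroup M] [Module k M] :
    R ⊗[k] (M ⊗[k] M) ≃ₗ[k] Cov k R M ⊗[R] Cov k R M :=
  (AlgebraTensorModule.distribBaseChange k R M M).restrictScalars k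

omit [Module.Finite k R] [Module R M] [IsScalarTower k R M] in
theorem eqFF_tmul (r : R) (m m' : M) : eqFF k R M (r ⊗ₜ (m ⊗ₜ m')) =
    ct k r m ⊗ₜ[R] ct k 1 m' := rfl

omit [Module.Finite k R] [Module R M] [IsScalarTower k R M] in
theorem rT_FF (hF : IsGrMod 𝒜 (M := Cov k R M) (cP 𝒜 P)) (j : ℕ)
    (x : R ⊗[k] (M ⊗[k] M)) :
    eqFF k R M (kT (piR 𝒜) (kT P P) j x) = rT hF hF j (eqFF k R M x) := by
  induction x using TensorProduct.induction_on with
  | zero => simp
  | add x y hx hy => simp only [map_add, hx, hy]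
  | tmul r z =>
    induction z using TensorProduct.induction_on with
    | zero => simp
    | add x y hx hy => simp only [TensorProduct.tmul_add, map_add, hx, hy]
    | tmul m m' =>
      rw [eqFF_tmul, rT_tmul, kT_tmul, map_sum]
      simp only [cP_one]
      simp only [cP_ct, TensorProduct.sum_tmul]
      have e1 : ∀ p : ℕ × ℕ, eqFF k R M (piR 𝒜 p.1 r ⊗ₜ[k] kT P P p.2 (m ⊗ₜ[k] m')) =
          ∑ q ∈ Finset.HasAntidiagonal.antidiagonal p.2,
            ct k (piR 𝒜 p.1 r) (P q.1 m) ⊗ₜ[R] ct k 1 (P q.2 m') := by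
        intro p
        rw [kT_tmul, TensorProduct.tmul_sum, map_sum]
        exact Finset.sum_congr rfl fun q _ => eqFF_tmul _ _ _
      simp only [e1]
      exact (anti_assoc (fun a b c => ct k (piR 𝒜 a r) (P b m) ⊗ₜ[R]
        ct k (1 : R) (P c m')) j).symm

omit [Module.Finite k R] [Module R M] [IsScalarTower k R M] in
theorem sw_FF (x : R ⊗[k] (M ⊗[k] M)) :
    eqFF k R M (TensorProduct.map LinearMap.id (TensorProduct.comm k M M).toLinearMap x) =
      sw k R (Cov k R M) (eqFF k R M x) := by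
  induction x using TensorProduct.induction_on with
  | zero => simp
  | add x y hx hy => simp only [map_add, hx, hy]
  | tmul r z =>
    induction z using TensorProduct.induction_on with
    | zero => simp
    | add x y hx hy => simp only [TensorProduct.tmul_add, map_add, hx, hy]
    | tmul m m' =>
      rw [eqFF_tmul, sw_tmul]
      change eqFF k R M (r ⊗ₜ (m' ⊗ₜ m)) = _
      rw [eqFF_tmul]
      rw [ct_smul r m, ct_smul r m', TensorProduct.smul_tmul]

omit [Module R M] [IsScalarTower k R M] in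
/-- (B) rank of the `ε`-part of the degree `j` piece of `(R ⊗[k] M) ⊗[R] (R ⊗[k] M)`. -/
theorem rank_FF [Module.Finite k M] (h2 : (2 : k) ≠ 0) {c : ℕ} (hc : ∀ i, c < i → 𝒜 i = ⊥)
    (hP : IsGr P) (hF : IsGrMod 𝒜 (M := Cov k R M) (cP 𝒜 P)) {ε : k} (hε : ε * ε = 1)
    (j : ℕ) :
    finrank k (LinearMap.range (rT hF hF j ∘ₗ pm (sw k R (Cov k R M)) ε)) =
      ∑ p ∈ Finset.HasAntidiagonal.antidiagonal j,
        finrank k (LinearMap.range (piR 𝒜 p.1)) *
        finrank k (LinearMap.range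
          (kT P P p.2 ∘ₗ pm (TensorProduct.comm k M M).toLinearMap ε)) := by
  rw [← kT_rank (piR_isGrMod 𝒜 hc).toIsGr
    (fun b => kT P P b ∘ₗ pm (TensorProduct.comm k M M).toLinearMap ε)
    (fun i j x => pm_orth h2 comm_comm (kT_isGr hP hP) kT_comm hε i j x) j]
  have := finite_tensor k R (Cov k R M) (Cov k R M)
  symm
  refine rank_conj (eqFF k R M) _ _ ?_
  intro x
  rw [LinearMap.comp_apply]
  have e1 : eqFF k R M
      (pm (TensorProduct.map LinearMap.id (TensorProduct.comm k M M).toLinearMap) ε x) =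
      pm (sw k R (Cov k R M)) ε (eqFF k R M x) :=
    pm_comm (eqFF k R M).toLinearMap sw_FF ε x
  rw [← e1, ← rT_FF]
  clear e1
  congr 1
  induction x using TensorProduct.induction_on with
  | zero => simp
  | add x y hx hy => simp only [map_add, hx, hy]
  | tmul r z =>
    have e2 : pm (TensorProduct.map (LinearMap.id : R →ₗ[k] R)
        (TensorProduct.comm k M M).toLinearMap) ε (r ⊗ₜ z) =
        r ⊗ₜ pm (TensorProduct.comm k M M).toLinearMap ε z := by
      rw [pm_apply, pm_apply, TensorProduct.map_tmul, LinearMap.id_apply,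
        TensorProduct.tmul_smul, TensorProduct.tmul_add, TensorProduct.tmul_smul]
    rw [e2, kT_tmul, LinearMap.sum_apply]
    rfl

/-- (C) rank of the graded pieces of the syzygy. -/
theorem rank_syz [Module.Finite k M] (hP : IsGrMod 𝒜 P) {c : ℕ} (hc : ∀ i, c < i → 𝒜 i = ⊥)
    (j : ℕ) :
    ∑ p ∈ Finset.HasAntidiagonal.antidiagonal j,
      finrank k (LinearMap.range (piR 𝒜 p.1)) * finrank k (LinearMap.range (P p.2)) =
    finrank k (LinearMap.range (sQ 𝒜 hP j)) + finrank k (LinearMap.range (P j)) := by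
  rw [← kT_rank (piR_isGrMod 𝒜 hc).toIsGr P hP.orth j]
  change finrank k (LinearMap.range (cP 𝒜 P j)) = _
  have hsy := syz_isGr 𝒜 hc hP
  have hco := cov_isGr 𝒜 hc hP.toIsGr
  have h := rank_four (LinearMap.range (sQ 𝒜 hP j)) (LinearMap.range (cP 𝒜 P j))
    (LinearMap.range (P j)) (⊥ : Submodule k M)
    ((syzι k R M).restrictScalars k)
    ((covπ k R M).restrictScalars k) (0 : M →ₗ[k] M) ?_ ?_ ?_ ?_ ?_ ?_ ?_ ?_ ?_
  · rw [finrank_bot, add_zero] at h
    exact h.symm
  · rintro _ ⟨w, rfl⟩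
    exact ⟨syzι k R M w, (syzι_comm 𝒜 hP j w).symm⟩
  · rintro _ ⟨w, rfl⟩
    exact ⟨covπ k R M w, (covπ_comm 𝒜 hP j w).symm⟩
  · intro v _
    exact Submodule.zero_mem _
  · intro v _ hv
    apply syzι_injective k R M
    rw [map_zero]
    exact hv
  · rintro v _
    exact (cov_exact k R M _).2 ⟨v, rfl⟩
  · intro v hv hv0
    rw [mem_range_idem (fun x => hco.same j x)] at hv
    obtain ⟨u, hu⟩ := (cov_exact k R M v).1 hv0
    refine ⟨sQ 𝒜 hP j u, ⟨_, rfl⟩, ?_⟩
    change syzι k R M (sQ 𝒜 hP j u) = v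
    rw [syzι_comm, hu, hv]
  · intro v _
    rfl
  · intro v hv _
    rw [mem_range_idem (fun x => hP.same j x)] at hv
    obtain ⟨w, hw⟩ := covπ_surjective k R M v
    refine ⟨cP 𝒜 P j w, ⟨w, rfl⟩, ?_⟩
    change covπ k R M _ = v
    rw [covπ_comm 𝒜 hP, hw, hv]
  · intro w hw
    rw [Submodule.mem_bot] at hw
    exact ⟨0, Submodule.zero_mem _, by rw [hw]; rfl⟩

end

end Pool.Agent.Tach
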