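import Pool.Agent.Work.MP_cd91b4_al.Du

/-! # PART II SKELETON: reduction from `A` to `A ⧸ (rs)` through `Ext` over `A`.

Every `sorry` is to be replaced.  `EZ A X V j` means `Ext^j_A(X,V) = 0` (see Du.lean).
Blocks B1..B5 are independent of each other given the statements of the previous blocks. -/

namespace Pool.Agent.Tach

open CategoryTheory IsLocalRing RingTheory.Sequence

variable {A : Type} [CommRing A] [HasExt.{0} (ModuleCat.{0} A)]

/-! ## B1: basic long exact sequence lemmas -/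

section B1

variable {X X' V V' : Type} [AddCommGroup X] [Module A X] [AddCommGroup X'] [Module A X']
  [AddCommGroup V] [Module A V] [AddCommGroup V'] [Module A V']

theorem ez_congr (e : X ≃ₗ[A] X') (e' : V ≃ₗ[A] V') {j : ℕ} (h : EZ A X V j) :
    EZ A X' V' j := sorry

variable {V1 V2 V3 : Type} [AddCommGroup V1] [Module A V1] [AddCommGroup V2] [Module A V2]
  [AddCommGroup V3] [Module A V3] {f : V1 →ₗ[A] V2} {g : V2 →ₗ[A] V3}

theorem ez_co1 (hf : Function.Injective f) (hg : Function.Surjective g)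
    (he : Function.Exact f g) {j : ℕ} (h3 : EZ A X V3 j) (h2 : EZ A X V2 (j + 1)) :
    EZ A X V1 (j + 1) := sorry

theorem ez_co2 (hf : Function.Injective f) (hg : Function.Surjective g)
    (he : Function.Exact f g) {j : ℕ} (h1 : EZ A X V1 j) (h3 : EZ A X V3 j) :
    EZ A X V2 j := sorry

theorem ez_co3 (hf : Function.Injective f) (hg : Function.Surjective g)
    (he : Function.Exact f g) {j : ℕ} (h2 : EZ A X V2 j) (h1 : EZ A X V1 (j + 1)) :
    EZ A X V3 j := sorry

theorem ez_ct1 (hf : Function.Injective f) (hg : Function.Surjective g)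
    (he : Function.Exact f g) {j : ℕ} (h1 : EZ A V1 V j) (h2 : EZ A V2 V (j + 1)) :
    EZ A V3 V (j + 1) := sorry

theorem ez_ct2 (hf : Function.Injective f) (hg : Function.Surjective g)
    (he : Function.Exact f g) {j : ℕ} (h1 : EZ A V1 V j) (h3 : EZ A V3 V j) :
    EZ A V2 V j := sorry

theorem ez_ct3 (hf : Function.Injective f) (hg : Function.Surjective g)
    (he : Function.Exact f g) {j : ℕ} (h2 : EZ A V2 V j) (h3 : EZ A V3 V (j + 1)) :
    EZ A V1 V j := sorry

theorem ez_free [Module.Free A X] (j : ℕ) : EZ A X V (j + 1) := sorry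

/-- `x` kills `X` and is regular on `V`: `Ext^{j+1}(X,V)` is a quotient of `Ext^j(X,V/xV)`. -/
theorem ez_up {x : A} (hx : IsSMulRegular V x) (hk : ∀ y : X, x • y = 0) {j : ℕ}
    (h : EZ A X (QuotSMulTop x V) j) : EZ A X V (j + 1) := sorry

theorem ez_zero {x : A} (hx : IsSMulRegular V x) (hk : ∀ y : X, x • y = 0) : EZ A X V 0 := sorry

/-- `x` kills `X` and is regular on `V`: `Ext^j(X,V)` embeds in `Ext^j(X,V/xV)`. -/
theorem ez_same {x : A} (hx : IsSMulRegular V x) (hk : ∀ y : X, x • y = 0) {j : ℕ}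
    (h : EZ A X (QuotSMulTop x V) j) : EZ A X V j := sorry

/-- Nakayama. -/
theorem ez_nak [IsNoetherianRing A] [IsLocalRing A] [Module.Finite A X] [Module.Finite A V]
    {x : A} (hxm : x ∈ maximalIdeal A) (hx : IsSMulRegular X x) {j : ℕ}
    (h : EZ A (QuotSMulTop x X) V (j + 1)) : EZ A X V j := sorry

end B1

/-! ## B2: along a weakly regular sequence -/

section B2

variable {X W : Type} [AddCommGroup X] [Module A X] [AddCommGroup W] [Module A W]

/-- covariant: vanishing above `N` passes from `W` to `W/rsW` -/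
theorem ez_quot (rs : List A) (hw : IsWeaklyRegular W rs) {N : ℕ}
    (h : ∀ j, N < j → EZ A X W j) :
    ∀ j, N < j → EZ A X (W ⧸ (Ideal.ofList rs • (⊤ : Submodule A W))) j := sorry

/-- and back when `rs` kills `X` -/
theorem ez_of_quot (rs : List A) (hw : IsWeaklyRegular W rs)
    (hk : ∀ r ∈ rs, ∀ y : X, r • y = 0) {j : ℕ}
    (h : EZ A X (W ⧸ (Ideal.ofList rs • (⊤ : Submodule A W))) j) : EZ A X W j := sorry

/-- contravariant: `Ext^j(W,V)=0` for `N < j ≤ N'` gives `Ext^j(W/rsW,V)=0` for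
`N + length rs < j ≤ N'` -/
theorem ez_quot_left (rs : List A) (hw : IsWeaklyRegular W rs) {V : Type} [AddCommGroup V]
    [Module A V] {N N' : ℕ} (h : ∀ j, N < j → j ≤ N' → EZ A W V j) :
    ∀ j, N + rs.length < j → j ≤ N' →
      EZ A (W ⧸ (Ideal.ofList rs • (⊤ : Submodule A W))) V j := sorry

/-- depth: `Ext^i(X,W)=0` for `i < length rs` if `rs` kills `X` -/
theorem ez_depth (rs : List A) (hw : IsWeaklyRegular W rs)
    (hk : ∀ r ∈ rs, ∀ y : X, r • y = 0) {j : ℕ} (hj : j < rs.length) : EZ A X W j := sorry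

/-- `Hom(X,W/rsW) ≃ Ext^d(X,W)`, `A`-linearly -/
theorem hom_equiv_ext (rs : List A) (hw : IsWeaklyRegular W rs)
    (hk : ∀ r ∈ rs, ∀ y : X, r • y = 0) :
    Nonempty ((X →ₗ[A] (W ⧸ (Ideal.ofList rs • (⊤ : Submodule A W)))) ≃ₗ[A]
      (Abelian.Ext (ModuleCat.of A X) (ModuleCat.of A W) rs.length)) := sorry

variable {Y Z : Type} [AddCommGroup Y] [Module A Y] [AddCommGroup Z] [Module A Z]

/-- extension of homomorphisms (naturality in `X` of the connecting maps) -/
theorem surj_hom (rs : List A) (hw : IsWeaklyRegular W rs) (f : X →ₗ[A] Y) (g : Y →ₗ[A] Z)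
    (hf : Function.Injective f) (hg : Function.Surjective g) (he : Function.Exact f g)
    (hX : ∀ r ∈ rs, ∀ x : X, r • x = 0) (hY : ∀ r ∈ rs, ∀ y : Y, r • y = 0)
    (hZ : EZ A Z W (rs.length + 1))
    (u : X →ₗ[A] (W ⧸ (Ideal.ofList rs • (⊤ : Submodule A W)))) :
    ∃ v : Y →ₗ[A] (W ⧸ (Ideal.ofList rs • (⊤ : Submodule A W))), v ∘ₗ f = u := sorry

/-- finite free modules over `A/(rs)` -/
theorem ez_free_quot (rs : List A) (hw : IsWeaklyRegular A rs) {F : Type} [AddCommGroup F]
    [Module A F] [Module (A ⧸ Ideal.ofList rs) F] [IsScalarTower A (A ⧸ Ideal.ofList rs) F]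
    [Module.Free (A ⧸ Ideal.ofList rs) F] [Module.Finite (A ⧸ Ideal.ofList rs) F]
    {V : Type} [AddCommGroup V] [Module A V] {j : ℕ} (hj : rs.length < j) : EZ A F V j := sorry

end B2

/-! ## B3: finite length modules and the canonical module -/

section B3

variable [IsNoetherianRing A] [IsLocalRing A]

theorem ez_finiteLength {V : Type} [AddCommGroup V] [Module A V] {j : ℕ}
    (h : EZ A (ResidueField A) V j) {X : Type} [AddCommGroup X] [Module A X]
    (hX : IsFiniteLength A X) : EZ A X V j := sorry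

/-- the injective dimension is at most `length rs` -/
theorem ez_top (rs : List A) (hm : ∀ r ∈ rs, r ∈ maximalIdeal A) (hw : IsWeaklyRegular A rs)
    (hR : IsFiniteLength A (A ⧸ Ideal.ofList rs)) {V : Type} [AddCommGroup V] [Module A V]
    (hV : ∃ n : ℕ, ∀ i, n < i → EZ A (ResidueField A) V i) :
    ∀ i, rs.length < i → EZ A (ResidueField A) V i := sorry

/-- a maximal `A`-regular sequence is regular on maximal Cohen-Macaulay modules -/
theorem weaklyRegular_transfer (rs : List A) (hm : ∀ r ∈ rs, r ∈ maximalIdeal A)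
    (hw : IsWeaklyRegular A rs) (hR : IsFiniteLength A (A ⧸ Ideal.ofList rs))
    {V : Type} [AddCommGroup V] [Module A V] [Module.Finite A V]
    (hV : ∀ i, i < rs.length → EZ A (ResidueField A) V i) : IsWeaklyRegular V rs := sorry

end B3

/-! ## B4: `ω/rsω` is the dual module -/

section B4

variable [IsNoetherianRing A] [IsLocalRing A]

theorem finiteLength_of_algebra (rs : List A) {k : Type} [Field k]
    [Algebra k (A ⧸ Ideal.ofList rs)] [Module.Finite k (A ⧸ Ideal.ofList rs)]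
    {X : Type} [AddCommGroup X] [Module A X] [Module (A ⧸ Ideal.ofList rs) X]
    [IsScalarTower A (A ⧸ Ideal.ofList rs) X] [Module.Finite (A ⧸ Ideal.ofList rs) X] :
    IsFiniteLength A X := sorry

theorem dual_iso (rs : List A) (hm : ∀ r ∈ rs, r ∈ maximalIdeal A) (hw : IsWeaklyRegular A rs)
    {k : Type} [Field k] [Algebra k (A ⧸ Ideal.ofList rs)]
    [Module.Finite k (A ⧸ Ideal.ofList rs)]
    (hk : ∀ r : A ⧸ Ideal.ofList rs, ∃ c : k, ¬ IsUnit (r - algebraMap k _ c))
    {ω : Type} [AddCommGroup ω] [Module A ω] [Module.Finite A ω]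
    (xs : List A) (hxm : ∀ x ∈ xs, x ∈ maximalIdeal A) (hxw : IsWeaklyRegular ω xs)
    (hxl : xs.length = rs.length)
    (hx1 : Nonempty ((ResidueField A →ₗ[A] (ω ⧸ (Ideal.ofList xs • (⊤ : Submodule A ω))))
          ≃ₗ[A] ResidueField A))
    (hinj : ∃ n : ℕ, ∀ i : ℕ, n < i → EZ A (ResidueField A) ω i) :
    IsWeaklyRegular ω rs ∧
    Nonempty ((ω ⧸ (Ideal.ofList rs • (⊤ : Submodule A ω))) ≃ₗ[A]
      Du k (A ⧸ Ideal.ofList rs)) := sorry

end B4

/-! ## B5: the two statements used by the final assembly -/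

section B5

variable [IsNoetherianRing A] [IsLocalRing A]

theorem partII (rs : List A) (hm : ∀ r ∈ rs, r ∈ maximalIdeal A) (hw : IsWeaklyRegular A rs)
    {k : Type} [Field k] [Algebra k (A ⧸ Ideal.ofList rs)]
    [Module.Finite k (A ⧸ Ideal.ofList rs)]
    (hk : ∀ r : A ⧸ Ideal.ofList rs, ∃ c : k, ¬ IsUnit (r - algebraMap k _ c))
    {ω : Type} [AddCommGroup ω] [Module A ω] [Module.Finite A ω]
    (xs : List A) (hxm : ∀ x ∈ xs, x ∈ maximalIdeal A) (hxw : IsWeaklyRegular ω xs)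
    (hxl : xs.length = rs.length)
    (hx1 : Nonempty ((ResidueField A →ₗ[A] (ω ⧸ (Ideal.ofList xs • (⊤ : Submodule A ω))))
          ≃ₗ[A] ResidueField A))
    (hinj : ∃ n : ℕ, ∀ i : ℕ, n < i → EZ A (ResidueField A) ω i) (m : ℕ)
    (hext : ∀ j : ℕ, 0 < j → j ≤ rs.length + m → EZ A ω A j) :
    (∀ j, rs.length < j → j ≤ rs.length + m → EZ A (Du k (A ⧸ Ideal.ofList rs)) A j) ∧
    (Nonempty (Du k (A ⧸ Ideal.ofList rs) ≃ₗ[A] (A ⧸ Ideal.ofList rs)) →
      ∃ n : ℕ, ∀ i : ℕ, n < i → EZ A (ResidueField A) A i) := sorry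

/-- The syzygy step. -/
theorem step (rs : List A) (hw : IsWeaklyRegular A rs) {F M : Type}
    [AddCommGroup F] [Module A F] [Module (A ⧸ Ideal.ofList rs) F]
    [IsScalarTower A (A ⧸ Ideal.ofList rs) F]
    [Module.Free (A ⧸ Ideal.ofList rs) F] [Module.Finite (A ⧸ Ideal.ofList rs) F]
    [AddCommGroup M] [Module A M] [Module (A ⧸ Ideal.ofList rs) M]
    [IsScalarTower A (A ⧸ Ideal.ofList rs) M]
    (π : F →ₗ[A ⧸ Ideal.ofList rs] M) (hπ : Function.Surjective π) (m : ℕ)
    (h : ∀ j, rs.length < j → j ≤ rs.length + (m + 1) → EZ A M A j) :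
    (∀ j, rs.length < j → j ≤ rs.length + m → EZ A (LinearMap.ker π) A j) ∧
    ∀ u : LinearMap.ker π →ₗ[A ⧸ Ideal.ofList rs] (A ⧸ Ideal.ofList rs),
      ∃ v : F →ₗ[A ⧸ Ideal.ofList rs] (A ⧸ Ideal.ofList rs), ∀ x : LinearMap.ker π,
        v x = u x := sorry

end B5

end Pool.Agent.Tach
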