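import Pool.Agent.Work.MP_cd91b4_al.Stage
import Pool.Agent.Work.MP_cd91b4_al.Du

/-! # PART I SKELETON (remaining modules) -/

namespace Pool.Agent.Tach

open TensorProduct Module

/-! ## Balance.lean -/

section balance

variable {R : Type} [CommRing R]

/-- `Tor₁(M,X)=0` computed on either side -/
theorem balance {M' F M Y G X : Type} [AddCommGroup M'] [Module R M'] [AddCommGroup F] [Module R F]
    [AddCommGroup M] [Module R M] [AddCommGroup Y] [Module R Y] [AddCommGroup G] [Module R G]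
    [AddCommGroup X] [Module R X] [Module.Flat R F] [Module.Flat R G]
    (ι : M' →ₗ[R] F) (π : F →ₗ[R] M) (hι : Function.Injective ι) (hπ : Function.Surjective π)
    (e1 : Function.Exact ι π) (κ : Y →ₗ[R] G) (ρ : G →ₗ[R] X) (hκ : Function.Injective κ)
    (hρ : Function.Surjective ρ) (e2 : Function.Exact κ ρ)
    (h : Function.Injective (TensorProduct.map ι (LinearMap.id : X →ₗ[R] X))) :
    Function.Injective (TensorProduct.map (LinearMap.id : M →ₗ[R] M) κ) := by
  sorry

/-- from `Tor₁(M_a,M_0)=0`, `a ≤ m`, to `Tor₁(M_a,M_b)=0`, `a+b ≤ m`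
(induction on `b`; `Tor₁(M_{a+1},M_b)=0 → Tor₁(M_a,M_{b+1})=0` by `balance` and flatness of `F b`) -/
theorem T_all (M F : ℕ → Type) [∀ n, AddCommGroup (M n)] [∀ n, Module R (M n)]
    [∀ n, AddCommGroup (F n)] [∀ n, Module R (F n)] [∀ n, Module.Flat R (F n)]
    (ι : ∀ n, M (n + 1) →ₗ[R] F n) (π : ∀ n, F n →ₗ[R] M n)
    (hι : ∀ n, Function.Injective (ι n)) (hπ : ∀ n, Function.Surjective (π n))
    (he : ∀ n, Function.Exact (ι n) (π n)) (m : ℕ)
    (h : ∀ a, a ≤ m → Function.Injective (TensorProduct.map (ι a) (LinearMap.id : M 0 →ₗ[R] M 0))) :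
    ∀ b a, a + b ≤ m →
      Function.Injective (TensorProduct.map (ι a) (LinearMap.id : M b →ₗ[R] M b)) := by
  sorry

theorem T_swap {N F X : Type} [AddCommGroup N] [Module R N] [AddCommGroup F] [Module R F]
    [AddCommGroup X] [Module R X] (ι : N →ₗ[R] F)
    (h : Function.Injective (TensorProduct.map ι (LinearMap.id : X →ₗ[R] X))) :
    Function.Injective (TensorProduct.map (LinearMap.id : X →ₗ[R] X) ι) := by
  sorry

end balance

/-! ## Cyclic.lean -/

section cyclic

variable {R : Type} [CommRing R]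

/-- `x ⊗ y = y ⊗ x` on a finite module over a local ring implies cyclic
(pass to `M / mM` over the residue field; two independent vectors do not commute; Nakayama) -/
theorem cyclic_of_sw [IsLocalRing R] {M : Type} [AddCommGroup M] [Module R M] [Module.Finite R M]
    (h : ∀ x y : M, x ⊗ₜ[R] y = y ⊗ₜ[R] x) : ∃ m : M, Submodule.span R {m} = ⊤ := by
  sorry

theorem equiv_of_cyclic {k : Type} [Field k] [Algebra k R] [Module.Finite k R] {M : Type}
    [AddCommGroup M] [Module k M] [Module R M] [IsScalarTower k R M] [Module.Finite k M]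
    (h : finrank k M = finrank k R) (hc : ∃ m : M, Submodule.span R {m} = ⊤) :
    Nonempty (M ≃ₗ[R] R) := by
  sorry

end cyclic

/-! ## DualT.lean -/

section dual

variable {k R : Type} [Field k] [CommRing R] [Algebra k R] [Module.Finite k R]

/-- If every map `X → R` extends to `F → R` then `X ⊗ Hom_k(R,k) → F ⊗ Hom_k(R,k)` is injective.
(`z ≠ 0`: take a functional `λ` on `X ⊗ Du` with `λ z ≠ 0`; `f ↦ λ(x ⊗ f)` is evaluation at a unique
`g x ∈ R` since `R` is finite dimensional; `g` is `R`-linear; extend `g` to `G`;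
`y ⊗ f ↦ f (G y)` shows that the image of `z` is not zero.) -/
theorem dual_T {X F : Type} [AddCommGroup X] [Module R X] [AddCommGroup F] [Module R F]
    (ι : X →ₗ[R] F) (h : ∀ u : X →ₗ[R] R, ∃ v : F →ₗ[R] R, ∀ x, v (ι x) = u x) :
    Function.Injective (TensorProduct.map ι (LinearMap.id : Du k R →ₗ[R] Du k R)) := by
  sorry

theorem finrank_Du : finrank k (Du k R) = finrank k R := by
  sorry

variable (𝒜 : ℕ → Submodule k R) [GradedAlgebra 𝒜]

/-- The grading of the dual: `(P j f) x = f (piR (c - j) x)`. -/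
noncomputable def dP (c j : ℕ) : Du k R →ₗ[k] Du k R where
  toFun f := if j ≤ c then Du.mk (f.fn ∘ₗ piR 𝒜 (c - j)) else 0
  map_add' := by sorry
  map_smul' := by sorry

theorem dP_isGrMod {c : ℕ} (hc : ∀ i, c < i → 𝒜 i = ⊥) :
    IsGrMod 𝒜 (M := Du k R) (dP 𝒜 c) := by
  sorry

end dual

/-! ## Ranks.lean -/

section ranks

variable {k : Type} [Field k] {V : Type} [AddCommGroup V] [Module k V] [Module.Finite k V]

theorem IsGr.rank_total {P : ℕ → V →ₗ[k] V} (h : IsGr P) {n : ℕ} (hn : ∀ j, n < j → P j = 0) :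
    ∑ j ∈ Finset.range (n + 1), finrank k (LinearMap.range (P j)) = finrank k V := by
  sorry

end ranks

/-! ## Series.lean  (purely numerical) -/

section series

open Finset.HasAntidiagonal in
/-- `h` = Hilbert function of `R`, `g n` = Hilbert function of `M_n`, `wp n`, `wm n` = symmetric and
antisymmetric part of `M_n ⊗ M_n`, `sp n`, `sm n` = the same for `M_n ⊗[k] M_n`.
Proof: in `ℤ⟦X⟧` put `E n = (wp n + wm n) h - (g n)^2`, `Ψ n = (wp n - wm n) h(X²) - h (g n)(X²)`
(`PowerSeries.expand`-like substitution, or define the series `h(X²)` by its coefficients);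
`E (n+1) = E n`, `Ψ (n+1) = - Ψ n` for `n < S`; both are divisible by `X^(2n)`; `E 0`, `Ψ 0` have no
coefficients above `4c`: so `E 0 = Ψ 0 = 0` as `4c < 2S`. All series for `n=0` are
polynomials; evaluate at `1`: `(Wp + Wm) L = L^2`, `(Wp - Wm) L = L L`, `L = ∑ h > 0`; so the sum of all
`wm 0 j` is zero. -/
theorem series_key (c S : ℕ) (hS : 2 * c < S) (h : ℕ → ℕ) (g wp wm sp sm : ℕ → ℕ → ℕ)
    (h0 : h 0 = 1) (hc : ∀ j, c < j → h j = 0) (gc : ∀ j, c < j → g 0 j = 0)
    (wc : ∀ j, 2 * c < j → wp 0 j = 0 ∧ wm 0 j = 0)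
    (R1 : ∀ n < S, ∀ j, ∑ p ∈ antidiagonal j, h p.1 * g n p.2 = g (n + 1) j + g n j)
    (R2 : ∀ n < S, ∀ j, wm (n + 1) j + ∑ p ∈ antidiagonal j, h p.1 * sp n p.2 =
      ∑ p ∈ antidiagonal j, g (n + 1) p.1 * g n p.2 + wp n j)
    (R3 : ∀ n < S, ∀ j, wp (n + 1) j + ∑ p ∈ antidiagonal j, h p.1 * sm n p.2 =
      ∑ p ∈ antidiagonal j, g (n + 1) p.1 * g n p.2 + wm n j)
    (S1 : ∀ n j, sp n j + sm n j = ∑ p ∈ antidiagonal j, g n p.1 * g n p.2)
    (S2 : ∀ n j, (sp n j : ℤ) - sm n j = if 2 ∣ j then (g n (j / 2) : ℤ) else 0)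
    (V : ∀ n ≤ S, ∀ j < 2 * n, wp n j = 0 ∧ wm n j = 0)
    (htot : ∑ j ∈ Finset.range (c + 1), g 0 j = ∑ j ∈ Finset.range (c + 1), h j) :
    ∀ j, wm 0 j = 0 := by
  sorry

end series

end Pool.Agent.Tach
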