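import Pool.Agent.Work.MP_cd91b4_al.Cover

/-! # The four term exact sequences of symmetric and antisymmetric parts -/

namespace Pool.Agent.Tach

open TensorProduct Module

variable {k : Type} [Field k]

section

variable {R : Type} [CommRing R] [Algebra k R] [Module.Finite k R]

variable (k R) in
/-- Finite dimensionality of tensor products over `R`. -/
theorem finite_tensor (M N : Type) [AddCommGroup M] [Module k M] [Module R M]
    [IsScalarTower k R M] [AddCommGroup N] [Module k N] [Module R N] [IsScalarTower k R N]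
    [Module.Finite k M] [Module.Finite k N] : Module.Finite k (M ⊗[R] N) := by
  have := Module.Finite.of_restrictScalars_finite k R M
  have := Module.Finite.of_restrictScalars_finite k R N
  exact Module.Finite.trans R _

variable {𝒜 : ℕ → Submodule k R} [GradedAlgebra 𝒜]
  {N F M : Type} [AddCommGroup N] [Module k N] [Module R N] [IsScalarTower k R N]
  [AddCommGroup F] [Module k F] [Module R F] [IsScalarTower k R F]
  [AddCommGroup M] [Module k M] [Module R M] [IsScalarTower k R M]
  {Q : ℕ → N →ₗ[k] N} {PF : ℕ → F →ₗ[k] F} {P : ℕ → M →ₗ[k] M}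

/-- The `(1+εσ)` map on `N ⊗ F → F ⊗ F`. -/
noncomputable def stF (k : Type) [Field k] [Algebra k R] [Module k N] [IsScalarTower k R N]
    [Module k F] [IsScalarTower k R F] (ι : N →ₗ[R] F) (ε : k) : N ⊗[R] F →ₗ[k] F ⊗[R] F :=
  (2 : k) • (pm (sw k R F) ε ∘ₗ
    (TensorProduct.map ι (LinearMap.id : F →ₗ[R] F)).restrictScalars k)

omit [Module.Finite k R] in
theorem stF_apply (ι : N →ₗ[R] F) (ε : k) (x : N ⊗[R] F) :
    stF k ι ε x = (2 : k) • pm (sw k R F) ε (TensorProduct.map ι LinearMap.id x) := rfl

omit [Module.Finite k R] in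
theorem sw_map {M' : Type} [AddCommGroup M'] [Module k M'] [Module R M'] [IsScalarTower k R M']
    (f g : M →ₗ[R] M') (x : M ⊗[R] M) :
    sw k R M' (TensorProduct.map f g x) = TensorProduct.map g f (sw k R M x) := by
  induction x using TensorProduct.induction_on with
  | zero => simp
  | add x y hx hy => simp only [map_add, hx, hy]
  | tmul v w => rfl

omit [Module.Finite k R] in
theorem map_pm {M' : Type} [AddCommGroup M'] [Module k M'] [Module R M'] [IsScalarTower k R M']
    (f : M →ₗ[R] M') (ε : k) (x : M ⊗[R] M) :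
    TensorProduct.map f f (pm (sw k R M) ε x) = pm (sw k R M') ε (TensorProduct.map f f x) := by
  have := pm_comm (σ := sw k R M) (τ := sw k R M')
    ((TensorProduct.map f f).restrictScalars k) (fun y => (sw_map f f y).symm) ε x
  exact this

theorem mem_range_idem {V : Type} [AddCommGroup V] [Module k V] {e : V →ₗ[k] V}
    (he : ∀ v, e (e v) = e v) {v : V} : v ∈ LinearMap.range e ↔ e v = v := by
  constructor
  · rintro ⟨w, rfl⟩
    exact he w
  · intro h
    exact ⟨v, h⟩

theorem stage (hN : IsGrMod 𝒜 Q) (hF : IsGrMod 𝒜 PF) (hM : IsGrMod 𝒜 P)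
    [Module.Finite k N] [Module.Finite k F] [Module.Finite k M] [Module.Flat R F]
    (ι : N →ₗ[R] F) (π : F →ₗ[R] M) (hι : ∀ j x, ι (Q j x) = PF j (ι x))
    (hπ : ∀ j x, π (PF j x) = P j (π x)) (inj : Function.Injective ι)
    (surj : Function.Surjective π) (ex : Function.Exact ι π)
    (T1 : Function.Injective (TensorProduct.map ι (LinearMap.id : M →ₗ[R] M)))
    (T2 : Function.Injective (TensorProduct.map (LinearMap.id : N →ₗ[R] N) ι))
    (h2 : (2 : k) ≠ 0) (ε : k) (hε : ε * ε = 1) (j : ℕ) :
    finrank k (LinearMap.range (rT hN hN j ∘ₗ pm (sw k R N) (-ε))) +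
      finrank k (LinearMap.range (rT hF hF j ∘ₗ pm (sw k R F) ε)) =
    finrank k (LinearMap.range (rT hN hF j)) +
      finrank k (LinearMap.range (rT hM hM j ∘ₗ pm (sw k R M) ε)) := by
  have := finite_tensor k R N N
  have := finite_tensor k R N F
  have := finite_tensor k R F F
  have := finite_tensor k R M M
  -- idempotents
  have idN : ∀ v, (rT hN hN j ∘ₗ pm (sw k R N) (-ε)) ((rT hN hN j ∘ₗ pm (sw k R N) (-ε)) v) =
      (rT hN hN j ∘ₗ pm (sw k R N) (-ε)) v := fun v => by
    rw [pm_orth h2 sw_sw (rT_isGr hN hN) (rT_sw hN) (by rw [neg_mul_neg, hε]), if_pos rfl]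
  have idF : ∀ v, (rT hF hF j ∘ₗ pm (sw k R F) ε) ((rT hF hF j ∘ₗ pm (sw k R F) ε) v) =
      (rT hF hF j ∘ₗ pm (sw k R F) ε) v := fun v => by
    rw [pm_orth h2 sw_sw (rT_isGr hF hF) (rT_sw hF) hε, if_pos rfl]
  -- injectivity of `N ⊗ F → F ⊗ F`
  have injNF : Function.Injective (TensorProduct.map ι (LinearMap.id : F →ₗ[R] F)) :=
    Module.Flat.rTensor_preserves_injective_linearMap (M := F) ι inj
  have injNN : Function.Injective (TensorProduct.map ι ι) := by
    have e : TensorProduct.map ι ι = TensorProduct.map ι (LinearMap.id : F →ₗ[R] F) ∘ₗ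
        TensorProduct.map (LinearMap.id : N →ₗ[R] N) ι := by
      rw [← TensorProduct.map_comp]; rfl
    rw [e]
    exact injNF.comp T2
  -- compatibility with degrees
  have dNF : ∀ x, TensorProduct.map ι (LinearMap.id : F →ₗ[R] F) (rT hN hF j x) =
      rT hF hF j (TensorProduct.map ι LinearMap.id x) := fun x =>
    rT_map hN hF hF hF ι LinearMap.id hι (fun _ _ => rfl) j x
  have dNN : ∀ x, TensorProduct.map ι ι (rT hN hN j x) =
      rT hF hF j (TensorProduct.map ι ι x) := fun x =>
    rT_map hN hN hF hF ι ι hι hι j x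
  have dN1 : ∀ x, TensorProduct.map (LinearMap.id : N →ₗ[R] N) ι (rT hN hN j x) =
      rT hN hF j (TensorProduct.map LinearMap.id ι x) := fun x =>
    rT_map hN hN hN hF LinearMap.id ι (fun _ _ => rfl) hι j x
  have dFM : ∀ x, TensorProduct.map π π (rT hF hF j x) =
      rT hM hM j (TensorProduct.map π π x) := fun x =>
    rT_map hF hF hM hM π π hπ hπ j x
  have compNN : ∀ x, TensorProduct.map ι (LinearMap.id : F →ₗ[R] F)
      (TensorProduct.map (LinearMap.id : N →ₗ[R] N) ι x) = TensorProduct.map ι ι x := fun x => by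
    rw [← LinearMap.comp_apply, ← TensorProduct.map_comp]; rfl
  have pmrT : ∀ x, rT hF hF j (pm (sw k R F) ε x) = pm (sw k R F) ε (rT hF hF j x) := fun x =>
    pm_comm (rT hF hF j) (rT_sw hF j) ε x
  have hpi : ∀ x, π (ι x) = 0 := fun x => (ex (ι x)).2 ⟨x, rfl⟩
  refine rank_four _ _ _ _
    ((TensorProduct.map (LinearMap.id : N →ₗ[R] N) ι).restrictScalars k)
    (stF k ι ε) ((TensorProduct.map π π).restrictScalars k) ?_ ?_ ?_ ?_ ?_ ?_ ?_ ?_ ?_
  · -- h1
    rintro v ⟨w, rfl⟩
    exact ⟨TensorProduct.map LinearMap.id ι (pm (sw k R N) (-ε) w), (dN1 _).symm⟩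
  · -- h2
    rintro v ⟨w, rfl⟩
    rw [stF_apply, dNF]
    refine ⟨(2 : k) • TensorProduct.map ι LinearMap.id w, ?_⟩
    rw [LinearMap.comp_apply, map_smul, map_smul, pmrT]
  · -- h3
    rintro v ⟨w, rfl⟩
    refine ⟨TensorProduct.map π π w, ?_⟩
    change _ = TensorProduct.map π π _
    rw [LinearMap.comp_apply, LinearMap.comp_apply, dFM, map_pm]
  · -- inj
    intro v _ hv
    apply T2
    rw [map_zero]
    exact hv
  · -- c1
    rintro v ⟨w, rfl⟩
    change stF k ι ε (TensorProduct.map LinearMap.id ι _) = 0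
    rw [stF_apply, compNN, LinearMap.comp_apply, dNN, ← pmrT, map_pm, pm_anti sw_sw hε, map_zero,
      smul_zero]
  · -- e2
    intro v hv hv0
    rw [mem_range_idem (fun x => by rw [(rT_isGr hN hF).same])] at hv
    rw [stF_apply] at hv0
    have hv1 : pm (sw k R F) ε (TensorProduct.map ι LinearMap.id v) = 0 := by
      have := congrArg (fun z => (2 : k)⁻¹ • z) hv0
      simpa [smul_smul, inv_mul_cancel₀ h2] using this
    set y := TensorProduct.map ι (LinearMap.id : F →ₗ[R] F) v with hy
    have hy1 : y = (-ε) • sw k R F y := by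
      rw [pm_apply] at hv1
      have := congrArg (fun z => (2 : k) • z) hv1
      simp only [smul_smul, mul_inv_cancel₀ h2, one_smul, smul_zero] at this
      rw [neg_smul]
      exact eq_neg_of_add_eq_zero_left this
    -- `y` maps to zero in `F ⊗ M`
    have hz : TensorProduct.map (LinearMap.id : F →ₗ[R] F) π y = 0 := by
      have e1 : ∀ z : N ⊗[R] F, TensorProduct.map (LinearMap.id : F →ₗ[R] F) π
          (sw k R F (TensorProduct.map ι LinearMap.id z)) = 0 := by
        intro z
        induction z using TensorProduct.induction_on with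
        | zero => simp
        | add a b ha hb => simp only [map_add, ha, hb, add_zero]
        | tmul a b =>
          rw [TensorProduct.map_tmul, sw_tmul, TensorProduct.map_tmul, hpi,
            TensorProduct.tmul_zero]
      rw [hy1]
      have e2 : TensorProduct.map (LinearMap.id : F →ₗ[R] F) π ((-ε) • sw k R F y) =
          (-ε) • TensorProduct.map (LinearMap.id : F →ₗ[R] F) π (sw k R F y) :=
        ((TensorProduct.map (LinearMap.id : F →ₗ[R] F) π).restrictScalars k).map_smul _ _
      rw [e2, hy, e1, smul_zero]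
    have hz2 : TensorProduct.map (LinearMap.id : N →ₗ[R] N) π v = 0 := by
      apply T1
      rw [map_zero, ← hz, hy]
      rw [← LinearMap.comp_apply, ← LinearMap.comp_apply, ← TensorProduct.map_comp,
        ← TensorProduct.map_comp]
      rfl
    obtain ⟨u, hu⟩ := (lTensor_exact N ex surj v).1 hz2
    change TensorProduct.map (LinearMap.id : N →ₗ[R] N) ι u = v at hu
    refine ⟨u, ?_, hu⟩
    rw [mem_range_idem idN, LinearMap.comp_apply]
    apply injNN
    rw [dNN, map_pm]
    have e3 : TensorProduct.map ι ι u = y := by rw [← compNN, hu]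
    rw [e3]
    have e4 : pm (sw k R F) (-ε) y = y := by
      rw [pm_apply, ← hy1, ← two_smul k, smul_smul, inv_mul_cancel₀ h2, one_smul]
    rw [e4, hy, ← dNF, hv]
  · -- c2
    intro v _
    change TensorProduct.map π π (stF k ι ε v) = 0
    have e1 : TensorProduct.map π π (stF k ι ε v) = (2 : k) • TensorProduct.map π π
        (pm (sw k R F) ε (TensorProduct.map ι LinearMap.id v)) :=
      ((TensorProduct.map π π).restrictScalars k).map_smul _ _
    have e2 : ∀ z, TensorProduct.map π π
        (TensorProduct.map ι (LinearMap.id : F →ₗ[R] F) z) = 0 := by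
      intro z
      induction z using TensorProduct.induction_on with
      | zero => simp
      | add a b ha hb => simp only [map_add, ha, hb, add_zero]
      | tmul a b =>
        rw [TensorProduct.map_tmul, TensorProduct.map_tmul, hpi, TensorProduct.zero_tmul]
    rw [e1, map_pm, e2, map_zero, smul_zero]
  · -- e3
    intro v hv hv0
    change TensorProduct.map π π v = 0 at hv0
    rw [mem_range_idem idF, LinearMap.comp_apply] at hv
    have hk : v ∈ LinearMap.ker (TensorProduct.map π π) := hv0
    rw [TensorProduct.map_ker ex surj ex surj, Submodule.mem_sup] at hk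
    obtain ⟨_, ⟨b, rfl⟩, _, ⟨a, rfl⟩, hab⟩ := hk
    change TensorProduct.map (LinearMap.id : F →ₗ[R] F) ι b +
      TensorProduct.map ι (LinearMap.id : F →ₗ[R] F) a = v at hab
    set b' := TensorProduct.comm R F N b with hb'
    have e1 : TensorProduct.map (LinearMap.id : F →ₗ[R] F) ι b =
        sw k R F (TensorProduct.map ι LinearMap.id b') := by
      rw [hb']
      generalize b = z
      induction z using TensorProduct.induction_on with
      | zero => simp
      | add x y hx hy => simp only [map_add, hx, hy]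
      | tmul x y => rfl
    refine ⟨rT hN hF j ((2 : k)⁻¹ • (a + ε • b')), ⟨_, rfl⟩, ?_⟩
    rw [stF_apply, dNF]
    have e2 : TensorProduct.map ι (LinearMap.id : F →ₗ[R] F) ((2 : k)⁻¹ • (a + ε • b')) =
        (2 : k)⁻¹ • (TensorProduct.map ι LinearMap.id a +
          ε • TensorProduct.map ι LinearMap.id b') := by
      have e : ∀ (c : k) (z : N ⊗[R] F), TensorProduct.map ι (LinearMap.id : F →ₗ[R] F) (c • z) =
          c • TensorProduct.map ι LinearMap.id z := fun c z =>
        ((TensorProduct.map ι (LinearMap.id : F →ₗ[R] F)).restrictScalars k).map_smul c z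
      rw [e, map_add, e]
    have e3 : ∀ x, pm (sw k R F) ε (sw k R F x) = ε • pm (sw k R F) ε x := by
      intro x
      rw [pm_apply, pm_apply, sw_sw, smul_comm ε, smul_add ε, smul_smul, hε, one_smul, add_comm]
    have e4 : pm (sw k R F) ε (TensorProduct.map ι (LinearMap.id : F →ₗ[R] F) a +
          ε • TensorProduct.map ι LinearMap.id b') = pm (sw k R F) ε v := by
      rw [← hab, e1, map_add, map_add, map_smul, e3, add_comm]
    rw [← pmrT, e2, map_smul, map_smul, smul_smul, mul_inv_cancel₀ h2, one_smul, e4, hv]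
  · -- surj
    rintro w ⟨w0, rfl⟩
    obtain ⟨v0, hv0⟩ := TensorProduct.map_surjective surj surj w0
    refine ⟨(rT hF hF j ∘ₗ pm (sw k R F) ε) v0, ⟨v0, rfl⟩, ?_⟩
    change TensorProduct.map π π _ = _
    rw [LinearMap.comp_apply, LinearMap.comp_apply, dFM, map_pm, hv0]

end

end Pool.Agent.Tach
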