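import Pool.Agent.Work.MP_cd91b4_al.Gr

/-! # Symmetric and antisymmetric parts of `V ⊗ V` -/

namespace Pool.Agent.Tach

open TensorProduct Module

variable {k : Type} [Field k]

section

variable {V : Type} [AddCommGroup V] [Module k V] {P : ℕ → V →ₗ[k] V}

/-- Independence and internal direct sum for a grading. -/
theorem IsGr.internal (h : IsGr P) : DirectSum.IsInternal fun j => LinearMap.range (P j) := by
  classical
  rw [DirectSum.isInternal_submodule_iff_iSupIndep_and_iSup_eq_top]
  constructor
  · intro i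
    rw [Submodule.disjoint_def]
    rintro x ⟨v, rfl⟩ hx
    have hk : (⨆ j, ⨆ _ : j ≠ i, LinearMap.range (P j)) ≤ LinearMap.ker (P i) := by
      refine iSup_le fun j => iSup_le fun hj => ?_
      rintro _ ⟨w, rfl⟩
      exact h.diff hj.symm w
    have := hk hx
    rw [LinearMap.mem_ker, h.same] at this
    exact this
  · rw [eq_top_iff]
    intro v _
    obtain ⟨n, _, hn⟩ := h.tot
    rw [← hn v]
    exact Submodule.sum_mem _ fun j _ => Submodule.mem_iSup_of_mem j ⟨v, rfl⟩

/-- Existence of a homogeneous basis. -/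
theorem IsGr.exists_basis [Module.Finite k V] (h : IsGr P) :
    ∃ (n : ℕ) (b : Basis (Fin n) k V) (d : Fin n → ℕ),
      ∀ i j, P j (b i) = if d i = j then b i else 0 := by
  classical
  let bs := h.internal.collectedBasis fun j => Module.finBasis k (LinearMap.range (P j))
  have hmem : ∀ x, bs x ∈ LinearMap.range (P x.1) := fun x =>
    h.internal.collectedBasis_mem _ x
  have : Finite (Σ j, Fin (finrank k (LinearMap.range (P j)))) := Module.Finite.finite_basis bs
  have := Fintype.ofFinite (Σ j, Fin (finrank k (LinearMap.range (P j))))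
  let e := Fintype.equivFin (Σ j, Fin (finrank k (LinearMap.range (P j))))
  refine ⟨_, bs.reindex e, fun i => (e.symm i).1, fun i j => ?_⟩
  rw [Basis.reindex_apply]
  obtain ⟨w, hw⟩ := hmem (e.symm i)
  rw [← hw, h.orth]
  by_cases hj : (e.symm i).1 = j
  · rw [if_pos hj, if_pos hj.symm, hj]
  · rw [if_neg hj, if_neg (Ne.symm hj)]

/-- Rank of a diagonal projection. -/
theorem rank_diag {ι : Type} [Fintype ι] (b : Basis ι k V) (f : V →ₗ[k] V) (s : Finset ι)
    (hf : ∀ i, f (b i) = open Classical in if i ∈ s then b i else 0) :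
    finrank k (LinearMap.range f) = s.card := by
  classical
  have h1 : LinearMap.range f = Submodule.span k (Set.range fun i : s => b i) := by
    apply le_antisymm
    · rintro _ ⟨v, rfl⟩
      rw [← b.sum_repr v, map_sum]
      refine Submodule.sum_mem _ fun i _ => ?_
      rw [map_smul, hf]
      split_ifs with hi
      · exact Submodule.smul_mem _ _ (Submodule.subset_span ⟨⟨i, hi⟩, rfl⟩)
      · rw [smul_zero]; exact Submodule.zero_mem _
    · rw [Submodule.span_le]
      rintro _ ⟨⟨i, hi⟩, rfl⟩
      exact ⟨b i, by rw [hf, if_pos hi]⟩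
  have h2 := finrank_span_eq_card (b.linearIndependent.comp (fun i : s => (i : ι))
    Subtype.val_injective)
  rw [h1]
  simpa [Function.comp_def] using h2

end

section

variable {V : Type} [AddCommGroup V] [Module k V]

/-- The `ε`-symmetric part with respect to an involution. -/
noncomputable def pm (σ : V →ₗ[k] V) (ε : k) : V →ₗ[k] V :=
  (2 : k)⁻¹ • (LinearMap.id + ε • σ)

theorem pm_apply (σ : V →ₗ[k] V) (ε : k) (x : V) :
    pm σ ε x = (2 : k)⁻¹ • (x + ε • σ x) := rfl

theorem pm_add (h2 : (2 : k) ≠ 0) (σ : V →ₗ[k] V) (x : V) : pm σ 1 x + pm σ (-1) x = x := by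
  rw [pm_apply, pm_apply, ← smul_add]
  have : x + (1 : k) • σ x + (x + (-1 : k) • σ x) = (2 : k) • x := by
    rw [one_smul, neg_smul, one_smul, two_smul]; abel
  rw [this, smul_smul, inv_mul_cancel₀ h2, one_smul]

theorem pm_sigma {σ : V →ₗ[k] V} (hσ : ∀ x, σ (σ x) = x) {ε : k}
    (hε : ε * ε = 1) (x : V) : σ (pm σ ε x) = ε • pm σ ε x := by
  rw [pm_apply, map_smul, map_add, map_smul, hσ, smul_comm ε, smul_add ε, smul_smul, hε, one_smul,
    add_comm]

theorem pm_idem (h2 : (2 : k) ≠ 0) {σ : V →ₗ[k] V} (hσ : ∀ x, σ (σ x) = x) {ε : k}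
    (hε : ε * ε = 1) (x : V) : pm σ ε (pm σ ε x) = pm σ ε x := by
  rw [pm_apply σ ε (pm σ ε x), pm_sigma hσ hε, smul_smul, hε, one_smul, ← two_smul k, smul_smul,
    inv_mul_cancel₀ h2, one_smul]

theorem pm_anti {σ : V →ₗ[k] V} (hσ : ∀ x, σ (σ x) = x) {ε : k}
    (hε : ε * ε = 1) (x : V) : pm σ ε (pm σ (-ε) x) = 0 := by
  rw [pm_apply σ ε (pm σ (-ε) x), pm_sigma hσ (by rw [neg_mul_neg, hε]), smul_smul, mul_neg, hε,
    neg_one_smul, add_neg_cancel, smul_zero]

theorem pm_comm {W : Type} [AddCommGroup W] [Module k W] {σ : V →ₗ[k] V} {τ : W →ₗ[k] W}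
    (f : V →ₗ[k] W) (h : ∀ x, f (σ x) = τ (f x)) (ε : k) (x : V) :
    f (pm σ ε x) = pm τ ε (f x) := by
  simp only [pm_apply, map_smul, map_add, h]

/-- Orthogonality of the pieces. -/
theorem pm_orth (h2 : (2 : k) ≠ 0) {σ : V →ₗ[k] V} (hσ : ∀ x, σ (σ x) = x) {P : ℕ → V →ₗ[k] V}
    (hP : IsGr P) (hc : ∀ j x, P j (σ x) = σ (P j x)) {ε : k} (hε : ε * ε = 1) (i j : ℕ) (x : V) :
    (P i ∘ₗ pm σ ε) ((P j ∘ₗ pm σ ε) x) = if i = j then (P i ∘ₗ pm σ ε) x else 0 := by
  simp only [LinearMap.comp_apply]
  rw [pm_comm (P i) (hc i) ε (P j (pm σ ε x)), hP.orth]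
  split_ifs with h
  · rw [pm_comm (P i) (hc i) ε x, pm_idem h2 hσ hε]
  · rw [map_zero]

/-- Ranks of the two parts add up. -/
theorem pm_rank [Module.Finite k V] (h2 : (2 : k) ≠ 0) {σ : V →ₗ[k] V} (hσ : ∀ x, σ (σ x) = x)
    {P : ℕ → V →ₗ[k] V} (hP : IsGr P) (hc : ∀ j x, P j (σ x) = σ (P j x)) (j : ℕ) :
    finrank k (LinearMap.range (P j ∘ₗ pm σ 1)) +
      finrank k (LinearMap.range (P j ∘ₗ pm σ (-1))) = finrank k (LinearMap.range (P j)) := by
  have e : P j ∘ₗ pm σ 1 + P j ∘ₗ pm σ (-1) = P j := by
    refine LinearMap.ext fun x => ?_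
    rw [LinearMap.add_apply, LinearMap.comp_apply, LinearMap.comp_apply, ← map_add, pm_add h2]
  rw [← rank_add, e]
  · intro v
    rw [pm_orth h2 hσ hP hc (by norm_num), if_pos rfl]
  · intro v
    rw [pm_orth h2 hσ hP hc (by norm_num), if_pos rfl]
  · intro v
    simp only [LinearMap.comp_apply]
    rw [pm_comm (P j) (hc j) (-1), pm_anti hσ (by norm_num), map_zero]
  · intro v
    simp only [LinearMap.comp_apply]
    have := pm_anti (k := k) hσ (ε := -1) (by norm_num) (P j v)
    rw [neg_neg] at this
    rw [pm_comm (P j) (hc j) 1, this, map_zero]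

end

section

variable {V : Type} [AddCommGroup V] [Module k V] {P : ℕ → V →ₗ[k] V}

theorem kT_comm (j : ℕ) (x : V ⊗[k] V) :
    kT P P j (TensorProduct.comm k V V x) = TensorProduct.comm k V V (kT P P j x) := by
  induction x using TensorProduct.induction_on with
  | zero => simp
  | add x y hx hy => simp only [map_add, hx, hy]
  | tmul v w =>
    rw [TensorProduct.comm_tmul, kT_tmul, kT_tmul, map_sum]
    simp only [TensorProduct.comm_tmul]
    rw [← Finset.sum_equiv (Equiv.prodComm ℕ ℕ) (s := Finset.HasAntidiagonal.antidiagonal j)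
      (t := Finset.HasAntidiagonal.antidiagonal j)
      (f := fun p => P p.2 w ⊗ₜ[k] P p.1 v)]
    · intro p
      simp only [Finset.HasAntidiagonal.mem_antidiagonal, Equiv.prodComm_apply, Prod.fst_swap,
        Prod.snd_swap]
      omega
    · intro p _
      rfl

theorem comm_comm (x : V ⊗[k] V) :
    (TensorProduct.comm k V V).toLinearMap ((TensorProduct.comm k V V).toLinearMap x) = x := by
  induction x using TensorProduct.induction_on with
  | zero => simp
  | add x y hx hy => simp only [map_add, hx, hy]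
  | tmul v w => simp

theorem kT_basis {n : ℕ} (b : Basis (Fin n) k V) (d : Fin n → ℕ)
    (hb : ∀ i j, P j (b i) = if d i = j then b i else 0) (j : ℕ) (p : Fin n × Fin n) :
    kT P P j (b.tensorProduct b p) =
      if d p.1 + d p.2 = j then b.tensorProduct b p else 0 := by
  obtain ⟨x, y⟩ := p
  rw [b.tensorProduct_apply' b, kT_tmul]
  simp only [hb]
  by_cases h : d x + d y = j
  · rw [if_pos h, Finset.sum_eq_single (d x, d y)]
    · simp
    · rintro ⟨u, v⟩ huv hne
      rw [Finset.HasAntidiagonal.mem_antidiagonal] at huv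
      simp only at huv ⊢
      by_cases hu : d x = u
      · have hv : ¬ d y = v := by
          rintro rfl; exact hne (by rw [hu])
        rw [if_neg hv, TensorProduct.tmul_zero]
      · rw [if_neg hu, TensorProduct.zero_tmul]
    · intro hn
      exact absurd (Finset.HasAntidiagonal.mem_antidiagonal.2 h) hn
  · rw [if_neg h]
    refine Finset.sum_eq_zero ?_
    rintro ⟨u, v⟩ huv
    rw [Finset.HasAntidiagonal.mem_antidiagonal] at huv
    simp only at huv ⊢
    by_cases hu : d x = u
    · have hv : ¬ d y = v := by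
        rintro rfl; exact h (by rw [hu, huv])
      rw [if_neg hv, TensorProduct.tmul_zero]
    · rw [if_neg hu, TensorProduct.zero_tmul]

theorem count_aux {n : ℕ} (d : Fin n → ℕ) (j : ℕ) :
    2 * (Finset.univ.filter fun p : Fin n × Fin n => p.1 ≤ p.2 ∧ d p.1 + d p.2 = j).card =
      (Finset.univ.filter fun p : Fin n × Fin n => d p.1 + d p.2 = j).card +
      (Finset.univ.filter fun x : Fin n => d x + d x = j).card := by
  classical
  set A := Finset.univ.filter fun p : Fin n × Fin n => p.1 ≤ p.2 ∧ d p.1 + d p.2 = j with hA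
  set A' := Finset.univ.filter fun p : Fin n × Fin n => p.2 ≤ p.1 ∧ d p.1 + d p.2 = j with hA'
  have h1 : A'.card = A.card := by
    refine Finset.card_bij (fun p _ => p.swap) ?_ ?_ ?_
    · intro p hp
      rw [hA', Finset.mem_filter] at hp
      rw [hA, Finset.mem_filter]
      exact ⟨Finset.mem_univ _, hp.2.1, by rw [← hp.2.2]; exact add_comm _ _⟩
    · intro p _ q _ h
      exact Prod.swap_injective h
    · intro p hp
      rw [hA, Finset.mem_filter] at hp
      refine ⟨p.swap, ?_, Prod.swap_swap p⟩
      rw [hA', Finset.mem_filter]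
      exact ⟨Finset.mem_univ _, hp.2.1, by rw [← hp.2.2]; exact add_comm _ _⟩
  have h2 := Finset.card_union_add_card_inter A A'
  have h3 : A ∪ A' = Finset.univ.filter fun p : Fin n × Fin n => d p.1 + d p.2 = j := by
    ext p
    rw [Finset.mem_union, hA, hA', Finset.mem_filter, Finset.mem_filter, Finset.mem_filter]
    constructor
    · rintro (h | h)
      · exact ⟨h.1, h.2.2⟩
      · exact ⟨h.1, h.2.2⟩
    · rintro ⟨h, h'⟩
      rcases le_total p.1 p.2 with hle | hle
      · exact Or.inl ⟨h, hle, h'⟩
      · exact Or.inr ⟨h, hle, h'⟩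
  have h4 : (A ∩ A').card = (Finset.univ.filter fun x : Fin n => d x + d x = j).card := by
    symm
    refine Finset.card_bij (fun x _ => (x, x)) ?_ ?_ ?_
    · intro x hx
      rw [Finset.mem_filter] at hx
      rw [Finset.mem_inter, hA, hA', Finset.mem_filter, Finset.mem_filter]
      exact ⟨⟨Finset.mem_univ _, le_rfl, hx.2⟩, ⟨Finset.mem_univ _, le_rfl, hx.2⟩⟩
    · intro x _ y _ h
      exact congrArg Prod.fst h
    · rintro ⟨x, y⟩ hp
      rw [Finset.mem_inter, hA, hA', Finset.mem_filter, Finset.mem_filter] at hp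
      have hxy : x = y := le_antisymm hp.1.2.1 hp.2.2.1
      subst hxy
      exact ⟨x, by rw [Finset.mem_filter]; exact ⟨Finset.mem_univ _, hp.1.2.2⟩, rfl⟩
  rw [h3, h4, h1] at h2
  omega

/-- Rank of the symmetric part of `V ⊗ V` in degree `j`, as a count over a basis. -/
theorem sym_count {n : ℕ} (b : Basis (Fin n) k V) (d : Fin n → ℕ)
    (hb : ∀ i j, P j (b i) = if d i = j then b i else 0) (h2 : (2 : k) ≠ 0) (j : ℕ) :
    finrank k (LinearMap.range (kT P P j ∘ₗ pm (TensorProduct.comm k V V).toLinearMap 1)) =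
      (Finset.univ.filter fun p : Fin n × Fin n => p.1 ≤ p.2 ∧ d p.1 + d p.2 = j).card := by
  classical
  set S := Finset.univ.filter fun p : Fin n × Fin n => p.1 ≤ p.2 ∧ d p.1 + d p.2 = j with hS
  set E := kT P P j ∘ₗ pm (TensorProduct.comm k V V).toLinearMap 1 with hE
  let B := b.tensorProduct b
  have hB : ∀ p : Fin n × Fin n, B p = b p.1 ⊗ₜ[k] b p.2 := fun p => b.tensorProduct_apply' b p
  have hkT : ∀ p : Fin n × Fin n, kT P P j (B p) = if d p.1 + d p.2 = j then B p else 0 :=
    fun p => kT_basis b d hb j p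
  have hcomm : ∀ p : Fin n × Fin n, TensorProduct.comm k V V (B p) = B p.swap := by
    rintro ⟨x, y⟩
    rw [hB, hB, TensorProduct.comm_tmul]
    rfl
  have hEB : ∀ p : Fin n × Fin n, E (B p) =
      if d p.1 + d p.2 = j then (2 : k)⁻¹ • (B p + B p.swap) else 0 := by
    intro p
    rw [hE, LinearMap.comp_apply, pm_apply, one_smul, LinearEquiv.coe_coe, hcomm, map_smul,
      map_add, hkT, hkT]
    have : d p.swap.1 + d p.swap.2 = d p.1 + d p.2 := add_comm _ _
    rw [this]
    split_ifs
    · rfl
    · rw [add_zero, smul_zero]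
  -- a spanning family indexed by `S`
  let F : S → V ⊗[k] V := fun p => B p.1 + B p.1.swap
  have hrange : LinearMap.range E = Submodule.span k (Set.range F) := by
    apply le_antisymm
    · rintro _ ⟨v, rfl⟩
      rw [← B.sum_repr v, map_sum]
      refine Submodule.sum_mem _ fun p _ => ?_
      rw [map_smul, hEB]
      refine Submodule.smul_mem _ _ ?_
      split_ifs with h
      · refine Submodule.smul_mem _ _ (Submodule.subset_span ?_)
        rcases le_total p.1 p.2 with hle | hle
        · exact ⟨⟨p, by rw [hS, Finset.mem_filter]; exact ⟨Finset.mem_univ _, hle, h⟩⟩, rfl⟩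
        · refine ⟨⟨p.swap, ?_⟩, ?_⟩
          · rw [hS, Finset.mem_filter]
            exact ⟨Finset.mem_univ _, hle, by rw [← h]; exact add_comm _ _⟩
          · change B p.swap + B p.swap.swap = B p + B p.swap
            rw [Prod.swap_swap, add_comm]
      · exact Submodule.zero_mem _
    · rw [Submodule.span_le]
      rintro _ ⟨⟨p, hp⟩, rfl⟩
      rw [hS, Finset.mem_filter] at hp
      refine ⟨(2 : k) • B p, ?_⟩
      rw [map_smul, hEB, if_pos hp.2.2, smul_smul, mul_inv_cancel₀ h2, one_smul]
  have hind : LinearIndependent k F := by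
    rw [Fintype.linearIndependent_iff]
    intro g hg p
    have h1 := congrArg (fun v => B.repr v p.1) hg
    simp only [map_sum, map_smul, map_zero, Finsupp.coe_zero, Pi.zero_apply,
      Finsupp.coe_finsetSum, Finset.sum_apply, Finsupp.smul_apply, smul_eq_mul, F, map_add,
      Finsupp.add_apply, B.repr_self] at h1
    rw [Finset.sum_eq_single p] at h1
    · rw [Finsupp.single_eq_same] at h1
      by_cases hs : p.1.swap = p.1
      · rw [hs, Finsupp.single_eq_same] at h1
        have : (1 : k) + 1 ≠ 0 := by rw [one_add_one_eq_two]; exact h2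
        exact (mul_eq_zero.1 h1).resolve_right this
      · rw [Finsupp.single_eq_of_ne (Ne.symm hs), add_zero, mul_one] at h1
        exact h1
    · rintro q _ hq
      have hp' := Finset.mem_filter.1 p.2
      have hq' := Finset.mem_filter.1 q.2
      have n1 : q.1 ≠ p.1 := fun h => hq (Subtype.ext h)
      have n2 : q.1.swap ≠ p.1 := by
        intro h
        apply hq
        apply Subtype.ext
        have e1 : q.1.2 = p.1.1 := congrArg Prod.fst h
        have e2 : q.1.1 = p.1.2 := congrArg Prod.snd h
        have l1 := hp'.2.1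
        have l2 := hq'.2.1
        rw [← e1, ← e2] at l1
        have l3 := le_antisymm l1 l2
        exact Prod.ext (by rw [← e1, ← l3]) (by rw [l3, e2])
      rw [Finsupp.single_eq_of_ne n1.symm, Finsupp.single_eq_of_ne n2.symm, add_zero, mul_zero]
    · intro h; exact absurd (Finset.mem_univ _) h
  rw [hrange, finrank_span_eq_card hind]
  simp

/-- The difference of the ranks of the symmetric and antisymmetric part. -/
theorem sym_rank [Module.Finite k V] (hP : IsGr P) (h2 : (2 : k) ≠ 0) (j : ℕ) :
    (finrank k (LinearMap.range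
        (kT P P j ∘ₗ pm (TensorProduct.comm k V V).toLinearMap 1)) : ℤ) -
      finrank k (LinearMap.range
        (kT P P j ∘ₗ pm (TensorProduct.comm k V V).toLinearMap (-1))) =
      if 2 ∣ j then (finrank k (LinearMap.range (P (j / 2))) : ℤ) else 0 := by
  classical
  obtain ⟨n, b, d, hb⟩ := hP.exists_basis
  have h1 := sym_count b d hb h2 j
  have h3 := pm_rank h2 (comm_comm (k := k) (V := V)) (kT_isGr hP hP)
    (fun i x => kT_comm i x) j
  -- total rank
  have h4 : finrank k (LinearMap.range (kT P P j)) =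
      (Finset.univ.filter fun p : Fin n × Fin n => d p.1 + d p.2 = j).card := by
    refine rank_diag (b.tensorProduct b) _ _ fun p => ?_
    rw [kT_basis b d hb]
    simp
  have h5 : ∀ i, finrank k (LinearMap.range (P i)) =
      (Finset.univ.filter fun x : Fin n => d x = i).card := by
    intro i
    refine rank_diag b (P i) _ fun x => ?_
    rw [hb]
    simp
  have h6 := count_aux d j
  have h7 : (Finset.univ.filter fun x : Fin n => d x + d x = j).card =
      if 2 ∣ j then (Finset.univ.filter fun x : Fin n => d x = j / 2).card else 0 := by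
    split_ifs with h
    · congr 1
      ext x
      simp only [Finset.mem_filter, Finset.mem_univ, true_and]
      omega
    · rw [Finset.card_eq_zero, Finset.filter_eq_empty_iff]
      intro x _
      omega
  rw [h1, h4] at h3
  rw [h1, h5]
  have h8 : (finrank k (LinearMap.range
        (kT P P j ∘ₗ pm (TensorProduct.comm k V V).toLinearMap (-1))) : ℤ) =
      (Finset.univ.filter fun p : Fin n × Fin n => d p.1 + d p.2 = j).card -
      (Finset.univ.filter fun p : Fin n × Fin n => p.1 ≤ p.2 ∧ d p.1 + d p.2 = j).card := by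
    have := congrArg (fun x : ℕ => (x : ℤ)) h3
    push_cast at this
    linarith
  rw [h8]
  have h9 := congrArg (fun x : ℕ => (x : ℤ)) h6
  have h10 := congrArg (fun x : ℕ => (x : ℤ)) h7
  push_cast at h9 h10
  rw [← h10]
  linarith

end

end Pool.Agent.Tach
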