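import Mathlib

/-! # Type two: the Artinian core (elementary, no grading, any characteristic) -/

set_option autoImplicit false

namespace Pool.Agent.Tach

open IsLocalRing

section Two

variable {R : Type} [CommRing R] [IsLocalRing R] [IsArtinianRing R]
variable {D : Type} [AddCommGroup D] [Module R D]

/-- `D` is injective with respect to finite modules. -/
def FInj (R D : Type) [CommRing R] [AddCommGroup D] [Module R D] : Prop :=
  ∀ (X : Type) [AddCommGroup X] [Module R X] [Module.Finite R X] (X' : Submodule R X)
    (u : X' →ₗ[R] D), ∃ v : X →ₗ[R] D, ∀ x : X', v x = u x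

omit [IsArtinianRing R] in
theorem two_cogen (hinj : FInj R D) (s : D) (hs0 : s ≠ 0)
    (hsm : ∀ a ∈ maximalIdeal R, a • s = 0) {Y : Type} [AddCommGroup Y] [Module R Y]
    [Module.Finite R Y] {y : Y} (hy : y ≠ 0) : ∃ θ : Y →ₗ[R] D, θ y ≠ 0 := by
  have hk : LinearMap.ker (LinearMap.toSpanSingleton R Y y) ≤
      LinearMap.ker (LinearMap.toSpanSingleton R D s) := by
    intro r hr
    rw [LinearMap.mem_ker, LinearMap.toSpanSingleton_apply] at hr ⊢
    refine hsm r ?_
    rw [mem_maximalIdeal, mem_nonunits_iff]
    intro hu
    exact hy (hu.smul_eq_zero.1 hr)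
  let φ : LinearMap.range (LinearMap.toSpanSingleton R Y y) →ₗ[R] D :=
    (Submodule.liftQ _ (LinearMap.toSpanSingleton R D s) hk) ∘ₗ
      (LinearMap.quotKerEquivRange (LinearMap.toSpanSingleton R Y y)).symm.toLinearMap
  obtain ⟨θ, hθ⟩ := hinj Y _ φ
  refine ⟨θ, ?_⟩
  have hy' : y ∈ LinearMap.range (LinearMap.toSpanSingleton R Y y) := ⟨1, by simp⟩
  have h1 := hθ ⟨y, hy'⟩
  have h2 : (LinearMap.quotKerEquivRange (LinearMap.toSpanSingleton R Y y)).symm ⟨y, hy'⟩ =
      Submodule.Quotient.mk 1 := by
    rw [LinearEquiv.symm_apply_eq]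
    apply Subtype.ext
    change y = LinearMap.toSpanSingleton R Y y 1
    simp
  have h3 : φ ⟨y, hy'⟩ = s := by
    change (Submodule.liftQ _ (LinearMap.toSpanSingleton R D s) hk)
      ((LinearMap.quotKerEquivRange (LinearMap.toSpanSingleton R Y y)).symm ⟨y, hy'⟩) = s
    rw [h2]
    change (Submodule.liftQ _ (LinearMap.toSpanSingleton R D s) hk) (Submodule.Quotient.mk 1) = s
    rw [Submodule.liftQ_apply]
    simp
  have h4 : θ y = s := by
    have : θ ((⟨y, hy'⟩ : LinearMap.range (LinearMap.toSpanSingleton R Y y)) : Y) = θ y := rfl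
    rw [← this, h1, h3]
  rw [h4]
  exact hs0

omit [IsArtinianRing R] in
theorem two_faithful (hinj : FInj R D) (s : D) (hs0 : s ≠ 0)
    (hsm : ∀ a ∈ maximalIdeal R, a • s = 0) {r : R} (hr : ∀ d : D, r • d = 0) : r = 0 := by
  by_contra h
  obtain ⟨θ, hθ⟩ := two_cogen hinj s hs0 hsm h
  apply hθ
  have : θ r = r • θ 1 := by rw [← map_smul, smul_eq_mul, mul_one]
  rw [this, hr]

omit [IsArtinianRing R] in
/-- length of the dual is at most the length -/
theorem two_length (s : D) (hs0 : s ≠ 0) (hsm : ∀ a ∈ maximalIdeal R, a • s = 0)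
    (hone : ∀ t : D, (∀ a ∈ maximalIdeal R, a • t = 0) → ∃ a : R, t = a • s)
    {X : Type} [AddCommGroup X] [Module R X] (hX : IsFiniteLength R X) :
    Module.length R (X →ₗ[R] D) ≤ Module.length R X := by
  induction hX with
  | of_subsingleton =>
    rename_i M _ _ _
    have : Subsingleton (M →ₗ[R] D) := ⟨fun f g => by
      ext x; rw [Subsingleton.elim x 0, map_zero, map_zero]⟩
    rw [Module.length_eq_zero]
    exact zero_le
  | of_simple_quotient hN ih =>
    rename_i M _ _ N hsimple
    -- exact 0 → Hom(M/N,D) → Hom(M,D) → Hom(N,D)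
    let f : ((M ⧸ N) →ₗ[R] D) →ₗ[R] (M →ₗ[R] D) := LinearMap.lcomp R D N.mkQ
    let g : (M →ₗ[R] D) →ₗ[R] (N →ₗ[R] D) := LinearMap.lcomp R D N.subtype
    have hf : Function.Injective f := by
      intro a b hab
      have : a ∘ₗ N.mkQ = b ∘ₗ N.mkQ := hab
      exact Submodule.linearMap_qext _ this
    have hex : Function.Exact f g.rangeRestrict := by
      intro φ
      constructor
      · intro hφ
        have h0 : g φ = 0 := by
          have := congrArg Subtype.val hφ
          exact this
        have hle : N ≤ LinearMap.ker φ := by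
          intro x hx
          have := LinearMap.congr_fun h0 ⟨x, hx⟩
          exact this
        exact ⟨N.liftQ φ hle, Submodule.liftQ_mkQ _ _ hle⟩
      · rintro ⟨ψ, rfl⟩
        apply Subtype.ext
        change g (f ψ) = 0
        ext x
        change ψ (N.mkQ x) = 0
        have : N.mkQ (x : M) = 0 := by
          rw [Submodule.mkQ_apply, Submodule.Quotient.mk_eq_zero]
          exact x.2
        rw [this, map_zero]
    have e1 := Module.length_eq_add_of_exact f g.rangeRestrict hf
      (LinearMap.surjective_rangeRestrict g) hex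
    have e2 := Module.length_eq_add_of_exact N.subtype N.mkQ N.subtype_injective
      N.mkQ_surjective (LinearMap.exact_subtype_mkQ N)
    have e3 : Module.length R (LinearMap.range g) ≤ Module.length R N :=
      (Module.length_le_of_injective (LinearMap.range g).subtype
        (LinearMap.range g).subtype_injective).trans ih
    have e4 : Module.length R ((M ⧸ N) →ₗ[R] D) ≤ Module.length R (M ⧸ N) := by
      have hn : Nontrivial (M ⧸ N) := IsSimpleModule.nontrivial R _
      obtain ⟨q, hq⟩ := exists_ne (0 : M ⧸ N)
      have hgen : ∀ x : M ⧸ N, ∃ r : R, x = r • q := by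
        intro x
        have h := IsSimpleModule.span_singleton_eq_top R hq
        have hx : x ∈ Submodule.span R {q} := by rw [h]; trivial
        obtain ⟨r, hr⟩ := Submodule.mem_span_singleton.1 hx
        exact ⟨r, hr.symm⟩
      have hm : ∀ a ∈ maximalIdeal R, a • q = 0 := by
        intro a ha
        by_contra hne
        have h := IsSimpleModule.span_singleton_eq_top R hne
        have hx : q ∈ Submodule.span R {a • q} := by rw [h]; trivial
        obtain ⟨b, hb⟩ := Submodule.mem_span_singleton.1 hx
        have h4 : (1 - b * a) • q = 0 := by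
          rw [sub_smul, one_smul, mul_smul, hb, sub_self]
        have h5 : IsUnit (1 - b * a) := by
          have : b * a ∈ maximalIdeal R := Ideal.mul_mem_left _ _ ha
          exact IsLocalRing.isUnit_one_sub_self_of_mem_nonunits _ this
        exact hq (h5.smul_eq_zero.1 h4)
      -- evaluation at q
      let ev : ((M ⧸ N) →ₗ[R] D) →ₗ[R] D := LinearMap.applyₗ q
      have hev : Function.Injective ev := by
        rw [← LinearMap.ker_eq_bot, LinearMap.ker_eq_bot']
        intro ψ hψ
        ext x
        obtain ⟨r, hr⟩ := hgen (N.mkQ x)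
        change ψ (N.mkQ x) = 0
        rw [hr, map_smul]
        have : ψ q = 0 := hψ
        rw [this, smul_zero]
      have hr : ∀ ψ, ev ψ ∈ Submodule.span R {s} := by
        intro ψ
        obtain ⟨a, ha⟩ := hone (ev ψ) (fun a ha => by
          change a • ψ q = 0
          rw [← map_smul, hm a ha, map_zero])
        rw [ha]
        exact Submodule.smul_mem _ _ (Submodule.mem_span_singleton_self s)
      have h6 : Module.length R ((M ⧸ N) →ₗ[R] D) ≤ Module.length R (Submodule.span R {s}) :=
        Module.length_le_of_injective (ev.codRestrict _ hr) (by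
          intro a b hab
          exact hev (congrArg Subtype.val hab))
      have hk : (LinearMap.ker (LinearMap.toSpanSingleton R D s)) = maximalIdeal R := by
        apply le_antisymm
        · apply IsLocalRing.le_maximalIdeal
          intro h
          apply hs0
          have : (1 : R) ∈ LinearMap.ker (LinearMap.toSpanSingleton R D s) := by
            rw [h]; trivial
          simpa using this
        · intro a ha
          rw [LinearMap.mem_ker, LinearMap.toSpanSingleton_apply]
          exact hsm a ha
      have h7 : Module.length R (Submodule.span R {s}) = 1 := by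
        have e : (R ⧸ (LinearMap.ker (LinearMap.toSpanSingleton R D s))) ≃ₗ[R]
            Submodule.span R {s} :=
          (LinearMap.quotKerEquivRange _).trans
            (LinearEquiv.ofEq _ _ (LinearMap.range_toSpanSingleton s))
        rw [← e.length_eq, hk]
        have : IsSimpleModule R (R ⧸ maximalIdeal R) :=
          isSimpleModule_iff_isCoatom.2 (maximalIdeal.isMaximal R).out
        exact Module.length_eq_one R _
      rw [h7] at h6
      have h8 : Module.length R (M ⧸ N) = 1 := Module.length_eq_one R _
      rw [h8]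
      exact h6
    rw [e1, e2, add_comm]
    exact add_le_add e3 e4

theorem two_socle : ∃ t : R, t ≠ 0 ∧ ∀ a ∈ maximalIdeal R, a * t = 0 := by
  have hN : (⊤ : Submodule R R) ≠ ⊥ := top_ne_bot
  obtain ⟨S, hS, hSN⟩ := (eq_bot_or_exists_atom_le (⊤ : Submodule R R)).resolve_left hN
  obtain ⟨t, htS, ht0⟩ := Submodule.exists_mem_ne_zero_of_ne_bot hS.1
  refine ⟨t, ht0, fun a ha => ?_⟩
  by_contra hat
  have h1 : Submodule.span R {a * t} ≤ S := by
    rw [Submodule.span_singleton_le_iff_mem]
    exact S.smul_mem a htS
  have h2 : Submodule.span R {a * t} = S := by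
    rcases hS.le_iff.1 h1 with h | h
    · exact absurd ((Submodule.span_singleton_eq_bot).1 h) hat
    · exact h
  have h3 : t ∈ Submodule.span R {a * t} := by rw [h2]; exact htS
  obtain ⟨b, hb⟩ := Submodule.mem_span_singleton.1 h3
  have h4 : (1 - b * a) * t = 0 := by
    rw [smul_eq_mul, ← mul_assoc] at hb
    rw [sub_mul, one_mul, hb, sub_self]
  have h5 : IsUnit (1 - b * a) := by
    have : b * a ∈ maximalIdeal R := Ideal.mul_mem_left _ _ ha
    exact IsLocalRing.isUnit_one_sub_self_of_mem_nonunits _ this
  exact ht0 ((h5.mul_right_eq_zero).1 h4)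

/-- endomorphisms are multiplications -/
theorem two_end (hinj : FInj R D) [Module.Finite R D] (s : D) (hs0 : s ≠ 0)
    (hsm : ∀ a ∈ maximalIdeal R, a • s = 0)
    (hone : ∀ t : D, (∀ a ∈ maximalIdeal R, a • t = 0) → ∃ a : R, t = a • s)
    (hlen : Module.length R D ≤ Module.length R R) (ε : D →ₗ[R] D) :
    ∃ r : R, ∀ d, ε d = r • d := by
  have hfl : IsFiniteLength R D := isFiniteLength_iff_isNoetherian_isArtinian.2
    ⟨inferInstance, inferInstance⟩
  have h1 := (two_length s hs0 hsm hone hfl).trans hlen
  let μ : R →ₗ[R] (D →ₗ[R] D) := LinearMap.lsmul R D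
  have hμ : Function.Injective μ := by
    rw [← LinearMap.ker_eq_bot, LinearMap.ker_eq_bot']
    intro r hr
    exact two_faithful hinj s hs0 hsm (fun d => LinearMap.congr_fun hr d)
  have h2 := Module.length_eq_add_of_exact μ (LinearMap.range μ).mkQ hμ
    (Submodule.mkQ_surjective _) (LinearMap.exact_map_mkQ_range μ)
  have hne : Module.length R R ≠ ⊤ := Module.length_ne_top
  have h3 : Module.length R ((D →ₗ[R] D) ⧸ LinearMap.range μ) = 0 := by
    rw [h2] at h1
    by_contra h0
    have : Module.length R R < Module.length R R +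
        Module.length R ((D →ₗ[R] D) ⧸ LinearMap.range μ) := by
      rcases eq_or_ne (Module.length R ((D →ₗ[R] D) ⧸ LinearMap.range μ)) ⊤ with h | h
      · rw [h, add_top]
        exact lt_top_iff_ne_top.2 hne
      · lift Module.length R ((D →ₗ[R] D) ⧸ LinearMap.range μ) to ℕ using h with m hm
        lift Module.length R R to ℕ using hne with n hn
        norm_cast
        have : m ≠ 0 := by
          rintro rfl
          exact h0 rfl
        omega
    exact absurd h1 (not_le.2 this)
  rw [Module.length_eq_zero_iff, Submodule.Quotient.subsingleton_iff] at h3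
  have h4 : ε ∈ LinearMap.range μ := by rw [h3]; trivial
  obtain ⟨r, hr⟩ := h4
  exact ⟨r, fun d => by rw [← hr]; rfl⟩

omit [IsLocalRing R] [IsArtinianRing R] in
/-- the linear map `R^n → N` given by a family -/
noncomputable def fam (R : Type) [CommRing R] {N : Type} [AddCommGroup N] [Module R N] {n : ℕ} (x : Fin n → N) :
    (Fin n → R) →ₗ[R] N := Fintype.linearCombination R x

omit [IsLocalRing R] [IsArtinianRing R] in
theorem fam_apply {N : Type} [AddCommGroup N] [Module R N] {n : ℕ} (x : Fin n → N)
    (w : Fin n → R) : fam R x w = ∑ k, w k • x k := Fintype.linearCombination_apply R x w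

omit [IsLocalRing R] [IsArtinianRing R] in
theorem fam_surj {N : Type} [AddCommGroup N] [Module R N] {n : ℕ} {x : Fin n → N}
    (hx : Submodule.span R (Set.range x) = ⊤) : Function.Surjective (fam R x) := by
  rw [← LinearMap.range_eq_top]
  rw [fam, Fintype.range_linearCombination]
  exact hx

omit [IsArtinianRing R] in
/-- in a minimal generating family relations have coefficients in the maximal ideal -/
theorem fam_ker {N : Type} [AddCommGroup N] [Module R N] {n : ℕ} {x : Fin n → N}
    (hx : Submodule.span R (Set.range x) = ⊤)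
    (hmin : ∀ m < n, ∀ y : Fin m → N, Submodule.span R (Set.range y) ≠ ⊤)
    {w : Fin n → R} (hw : fam R x w = 0) (i : Fin n) : w i ∈ maximalIdeal R := by
  by_contra h
  rw [mem_maximalIdeal, mem_nonunits_iff, not_not] at h
  obtain ⟨u, hu⟩ := h
  cases n with
  | zero => exact i.elim0
  | succ m =>
    apply hmin m (Nat.lt_succ_self m) (x ∘ i.succAbove)
    rw [eq_top_iff, ← hx, Submodule.span_le]
    have hother : ∀ j, j ≠ i → x j ∈ Submodule.span R (Set.range (x ∘ i.succAbove)) := by
      intro j hj
      obtain ⟨k, rfl⟩ := Fin.exists_succAbove_eq hj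
      exact Submodule.subset_span ⟨k, rfl⟩
    rintro _ ⟨j, rfl⟩
    by_cases hj : j = i
    · subst hj
      rw [fam_apply, Fin.sum_univ_succAbove _ j] at hw
      have h1 : x j = -((↑u⁻¹ : R) • ∑ k, w (j.succAbove k) • x (j.succAbove k)) := by
        have h2 : w j • x j = -∑ k, w (j.succAbove k) • x (j.succAbove k) :=
          eq_neg_of_add_eq_zero_left hw
        rw [← smul_neg, ← h2, ← hu, smul_smul, Units.inv_mul, one_smul]
      have h3 : x j ∈ Submodule.span R (Set.range (x ∘ j.succAbove)) := by
        rw [h1]
        refine Submodule.neg_mem _ (Submodule.smul_mem _ _ (Submodule.sum_mem _ fun k _ =>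
          Submodule.smul_mem _ _ (Submodule.subset_span ⟨k, rfl⟩)))
      exact h3
    · exact hother j hj

/-- **Core.**  A finite injective module `D` with simple socle, generated by two elements, such that
homomorphisms from the second syzygy to `R` extend, is free of rank one. -/
theorem two_core (hinj : FInj R D) (s : D) (hs0 : s ≠ 0)
    (hsm : ∀ a ∈ maximalIdeal R, a • s = 0)
    (hone : ∀ t : D, (∀ a ∈ maximalIdeal R, a • t = 0) → ∃ a : R, t = a • s)
    (d : Fin 2 → D) (hd : Submodule.span R (Set.range d) = ⊤)
    (hext : ∀ (n : ℕ) (π : (Fin n → R) →ₗ[R] LinearMap.ker (fam R d)),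
      Function.Surjective π → ∀ u : LinearMap.ker π →ₗ[R] R,
        ∃ v : (Fin n → R) →ₗ[R] R, ∀ x : LinearMap.ker π, v x = u x) :
    Nonempty (D ≃ₗ[R] R) := by
  have hfin : Module.Finite R D := Module.Finite.of_surjective (fam R d) (fam_surj hd)
  have hflR : IsFiniteLength R R := isFiniteLength_iff_isNoetherian_isArtinian.2
    ⟨inferInstance, inferInstance⟩
  -- length of `D`
  have hlen : Module.length R D ≤ Module.length R R := by
    have h1 := two_length s hs0 hsm hone hflR
    rwa [(LinearMap.ringLmapEquivSelf R R D).length_eq] at h1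
  have hfaith : ∀ r : R, (∀ x : D, r • x = 0) → r = 0 := fun r hr =>
    two_faithful hinj s hs0 hsm hr
  -- a cyclic `D` is free
  have hcyc : ∀ t : D, Submodule.span R {t} = ⊤ → Nonempty (D ≃ₗ[R] R) := by
    intro t ht
    refine ⟨(LinearEquiv.ofBijective (LinearMap.toSpanSingleton R D t) ⟨?_, ?_⟩).symm⟩
    · rw [← LinearMap.ker_eq_bot, LinearMap.ker_eq_bot']
      intro r hr
      apply hfaith
      intro x
      have hx : x ∈ Submodule.span R {t} := by rw [ht]; trivial
      obtain ⟨a, rfl⟩ := Submodule.mem_span_singleton.1 hx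
      rw [LinearMap.toSpanSingleton_apply] at hr
      rw [smul_comm, hr, smul_zero]
    · rw [← LinearMap.range_eq_top, LinearMap.range_toSpanSingleton]
      exact ht
  by_contra hcon
  have hd0 : Submodule.span R {d 0} ≠ ⊤ := fun h => hcon (hcyc _ h)
  have hd1 : Submodule.span R {d 1} ≠ ⊤ := fun h => hcon (hcyc _ h)
  have hp : ∀ x : Fin 2 → R, fam R d x = x 0 • d 0 + x 1 • d 1 := by
    intro x
    rw [fam_apply, Fin.sum_univ_two]
  have hps := fam_surj hd
  -- elements of the first syzygy have coordinates in the maximal ideal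
  have hNm : ∀ x : LinearMap.ker (fam R d), ∀ c, (x : Fin 2 → R) c ∈ maximalIdeal R := by
    intro x c
    by_contra h
    rw [mem_maximalIdeal, mem_nonunits_iff, not_not] at h
    have hx : (x : Fin 2 → R) 0 • d 0 + (x : Fin 2 → R) 1 • d 1 = 0 := by
      rw [← hp]; exact x.2
    have key : ∀ (r q : R) (a b : D), IsUnit r → r • a + q • b = 0 → a ∈ Submodule.span R {b} := by
      rintro r q a b ⟨u, rfl⟩ h
      rw [Submodule.mem_span_singleton]
      refine ⟨-((↑u⁻¹ : R) * q), ?_⟩
      have h2 : (u : R) • a = -(q • b) := eq_neg_of_add_eq_zero_left h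
      have h3 : a = (↑u⁻¹ : R) • (u : R) • a := by rw [smul_smul, Units.inv_mul, one_smul]
      rw [h3, h2, smul_neg, smul_smul, neg_smul]
    have hc : c = 0 ∨ c = 1 := by fin_cases c <;> simp
    rcases hc with rfl | rfl
    · apply hd1
      have h1 := key _ _ _ _ h hx
      rw [eq_top_iff, ← hd, Submodule.span_le]
      rintro _ ⟨i, rfl⟩
      have hi : i = 0 ∨ i = 1 := by fin_cases i <;> simp
      rcases hi with rfl | rfl
      · exact h1
      · exact Submodule.mem_span_singleton_self _
    · apply hd0
      have h1 := key _ _ _ _ h (by rw [add_comm]; exact hx)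
      rw [eq_top_iff, ← hd, Submodule.span_le]
      rintro _ ⟨i, rfl⟩
      have hi : i = 0 ∨ i = 1 := by fin_cases i <;> simp
      rcases hi with rfl | rfl
      · exact Submodule.mem_span_singleton_self _
      · exact h1
  -- determinants vanish
  have hdet : ∀ x y : LinearMap.ker (fam R d),
      (x : Fin 2 → R) 0 * (y : Fin 2 → R) 1 = (x : Fin 2 → R) 1 * (y : Fin 2 → R) 0 := by
    intro x y
    have hx : (x : Fin 2 → R) 0 • d 0 + (x : Fin 2 → R) 1 • d 1 = 0 := by
      rw [← hp]; exact x.2
    have hy : (y : Fin 2 → R) 0 • d 0 + (y : Fin 2 → R) 1 • d 1 = 0 := by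
      rw [← hp]; exact y.2
    have h0 : ((x : Fin 2 → R) 0 * (y : Fin 2 → R) 1 -
        (x : Fin 2 → R) 1 * (y : Fin 2 → R) 0) • d 0 = 0 := by
      have := congrArg (fun t => (y : Fin 2 → R) 1 • t) hx
      have h' := congrArg (fun t => (x : Fin 2 → R) 1 • t) hy
      simp only [smul_add, smul_zero, smul_smul] at this h'
      rw [sub_smul, sub_eq_zero, mul_comm ((x : Fin 2 → R) 0)]
      rw [mul_comm ((x : Fin 2 → R) 1) ((y : Fin 2 → R) 1)] at h'
      exact add_right_cancel (this.trans h'.symm)
    have h1 : ((x : Fin 2 → R) 0 * (y : Fin 2 → R) 1 -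
        (x : Fin 2 → R) 1 * (y : Fin 2 → R) 0) • d 1 = 0 := by
      have := congrArg (fun t => (y : Fin 2 → R) 0 • t) hx
      have h' := congrArg (fun t => (x : Fin 2 → R) 0 • t) hy
      simp only [smul_add, smul_zero, smul_smul] at this h'
      rw [sub_smul, sub_eq_zero]
      rw [mul_comm ((y : Fin 2 → R) 0) ((x : Fin 2 → R) 0),
        mul_comm ((y : Fin 2 → R) 0) ((x : Fin 2 → R) 1)] at this
      exact (add_left_cancel (this.trans h'.symm)).symm
    rw [← sub_eq_zero]
    apply hfaith
    intro t
    obtain ⟨z, rfl⟩ := hps t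
    rw [hp, smul_add, smul_comm _ (z 0), smul_comm _ (z 1), h0, h1, smul_zero, smul_zero, add_zero]
  -- nonzero socle element of `R`
  obtain ⟨t0, ht0, htm⟩ : ∃ t : R, t ≠ 0 ∧ ∀ a ∈ maximalIdeal R, a * t = 0 := two_socle
  -- minimal generating family of the syzygy
  have hex : ∃ n : ℕ, ∃ x : Fin n → LinearMap.ker (fam R d),
      Submodule.span R (Set.range x) = ⊤ := Module.Finite.exists_fin
  classical
  obtain ⟨n, ⟨x, hx⟩, hmin⟩ : ∃ n : ℕ, (∃ x : Fin n → LinearMap.ker (fam R d),
      Submodule.span R (Set.range x) = ⊤) ∧ ∀ m < n, ∀ y : Fin m → LinearMap.ker (fam R d),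
      Submodule.span R (Set.range y) ≠ ⊤ :=
    ⟨Nat.find hex, Nat.find_spec hex, fun m hm y hy => Nat.find_min hex hm ⟨y, hy⟩⟩
  have hπ := fam_surj hx
  have hkerm : ∀ {w : Fin n → R}, fam R x w = 0 → ∀ i, w i ∈ maximalIdeal R :=
    fun hw i => fam_ker hx hmin hw i
  rcases Nat.lt_or_ge n 2 with hn | hn
  · -- the syzygy is cyclic
    have hv : ∃ v : LinearMap.ker (fam R d), Submodule.span R {v} = ⊤ := by
      rcases Nat.eq_zero_or_pos n with h0 | h0
      · subst h0
        refine ⟨0, ?_⟩
        rw [eq_top_iff, ← hx, Submodule.span_le]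
        rintro _ ⟨i, rfl⟩
        exact i.elim0
      · obtain rfl : n = 1 := by omega
        refine ⟨x 0, ?_⟩
        rw [eq_top_iff, ← hx, Submodule.span_le]
        rintro _ ⟨i, rfl⟩
        rw [Subsingleton.elim i 0]
        exact Submodule.mem_span_singleton_self _
    obtain ⟨v, hv⟩ := hv
    let f := LinearMap.toSpanSingleton R (LinearMap.ker (fam R d)) v
    have hf : Function.Surjective f := by
      rw [← LinearMap.range_eq_top, LinearMap.range_toSpanSingleton]
      exact hv
    have e1 := Module.length_eq_add_of_exact (LinearMap.ker f).subtype f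
      (LinearMap.ker f).subtype_injective hf (LinearMap.exact_subtype_ker_map f)
    have e2 := Module.length_eq_add_of_exact (LinearMap.ker (fam R d)).subtype (fam R d)
      (LinearMap.ker (fam R d)).subtype_injective hps (LinearMap.exact_subtype_ker_map _)
    have e3 : Module.length R (Fin 2 → R) = Module.length R R + Module.length R R := by
      rw [Module.length_pi_of_fintype, Fin.sum_univ_two]
    have hne : Module.length R R ≠ ⊤ := Module.length_ne_top
    have e4 : 0 < Module.length R (LinearMap.ker f) := by
      rw [Module.length_pos_iff]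
      refine ⟨⟨t0, ?_⟩, 0, ?_⟩
      · rw [LinearMap.mem_ker]
        apply Subtype.ext
        funext c
        change t0 * (v : Fin 2 → R) c = 0
        rw [mul_comm]
        exact htm _ (hNm v c)
      · intro h
        exact ht0 (congrArg Subtype.val h)
    have e5 : Module.length R (LinearMap.ker (fam R d)) ≠ ⊤ := by
      intro h
      rw [h, add_top] at e1
      exact hne e1
    have e6 : Module.length R (LinearMap.ker f) ≠ ⊤ := by
      intro h
      rw [h, top_add] at e1
      exact hne e1
    have e7 : Module.length R D ≠ ⊤ := fun h => hne (top_le_iff.1 (h ▸ hlen))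
    rw [e3] at e2
    lift Module.length R R to ℕ using hne with a ha
    lift Module.length R (LinearMap.ker (fam R d)) to ℕ using e5 with b hb
    lift Module.length R (LinearMap.ker f) to ℕ using e6 with c hc
    lift Module.length R D to ℕ using e7 with e he
    norm_cast at e1 e2 e4 hlen
    omega
  · -- two independent elements of the syzygy
    let i : Fin n := ⟨0, by omega⟩
    let j : Fin n := ⟨1, by omega⟩
    have hij : i ≠ j := by
      intro h
      have := congrArg Fin.val h
      simp [i, j] at this
    have hκ0 : ∀ c : Fin 2, fam R x ((x j : Fin 2 → R) c • Pi.single i (1 : R) -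
        (x i : Fin 2 → R) c • Pi.single j (1 : R)) = 0 := by
      intro c
      rw [map_sub, map_smul, map_smul]
      have hs : ∀ k : Fin n, fam R x (Pi.single k (1 : R)) = x k := by
        intro k
        rw [fam_apply, Finset.sum_eq_single k]
        · rw [Pi.single_eq_same, one_smul]
        · intro l _ hl
          rw [Pi.single_eq_of_ne hl, zero_smul]
        · intro h
          exact absurd (Finset.mem_univ _) h
      rw [hs, hs, sub_eq_zero]
      apply Subtype.ext
      funext c'
      change (x j : Fin 2 → R) c * (x i : Fin 2 → R) c' = (x i : Fin 2 → R) c *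
        (x j : Fin 2 → R) c'
      have h1 := hdet (x i) (x j)
      have hc : c = 0 ∨ c = 1 := by fin_cases c <;> simp
      have hc' : c' = 0 ∨ c' = 1 := by fin_cases c' <;> simp
      rcases hc with rfl | rfl <;> rcases hc' with rfl | rfl
      · ring
      · rw [h1]; ring
      · rw [← h1]; ring
      · ring
    let κ : Fin 2 → LinearMap.ker (fam R x) := fun c =>
      ⟨(x j : Fin 2 → R) c • Pi.single i (1 : R) - (x i : Fin 2 → R) c • Pi.single j (1 : R),
        hκ0 c⟩
    let Ψ : (Fin n → LinearMap.ker (fam R x)) →ₗ[R] (Fin 2 → LinearMap.ker (fam R x)) :=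
      LinearMap.pi (fun c => ∑ k, (x k : Fin 2 → R) c • LinearMap.proj k)
    have hΨ : ∀ w c, Ψ w c = ∑ k, (x k : Fin 2 → R) c • w k := by
      intro w c
      simp [Ψ, LinearMap.pi_apply, LinearMap.sum_apply]
    have hmem : κ ∈ LinearMap.range Ψ := by
      by_contra hnot
      have hy : (LinearMap.range Ψ).mkQ κ ≠ 0 := by
        rw [Submodule.mkQ_apply, ne_eq, Submodule.Quotient.mk_eq_zero]
        exact hnot
      obtain ⟨θ, hθ⟩ := two_cogen hinj s hs0 hsm hy
      have hr : ∀ w : LinearMap.ker (fam R x), ∃ r : R, ∀ c,
          θ ((LinearMap.range Ψ).mkQ (Pi.single c w)) = r • d c := by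
        intro w
        let g : (Fin 2 → R) →ₗ[R] D :=
          fam R (fun c => θ ((LinearMap.range Ψ).mkQ (Pi.single c w)))
        have hgx : ∀ k, g (x k : Fin 2 → R) = 0 := by
          intro k
          have h1 : g (x k : Fin 2 → R) = θ ((LinearMap.range Ψ).mkQ (Ψ (Pi.single k w))) := by
            have h2 : Ψ (Pi.single k w) = ∑ c, (x k : Fin 2 → R) c •
                (Pi.single c w : Fin 2 → LinearMap.ker (fam R x)) := by
              funext c
              rw [hΨ, Finset.sum_eq_single k, Finset.sum_apply, Finset.sum_eq_single c]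
              · rw [Pi.single_eq_same, Pi.smul_apply, Pi.single_eq_same]
              · intro l _ hl
                rw [Pi.smul_apply, Pi.single_eq_of_ne hl.symm, smul_zero]
              · intro h
                exact absurd (Finset.mem_univ _) h
              · intro l _ hl
                rw [Pi.single_eq_of_ne hl, smul_zero]
              · intro h
                exact absurd (Finset.mem_univ _) h
            rw [h2, map_sum, map_sum]
            change fam R (fun c => θ ((LinearMap.range Ψ).mkQ (Pi.single c w)))
              (x k : Fin 2 → R) = _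
            rw [fam_apply]
            refine Finset.sum_congr rfl fun c _ => ?_
            rw [map_smul, map_smul]
          have h3 : (LinearMap.range Ψ).mkQ (Ψ (Pi.single k w)) = 0 := by
            rw [Submodule.mkQ_apply, Submodule.Quotient.mk_eq_zero]
            exact ⟨_, rfl⟩
          rw [h1, h3, map_zero]
        have hg : LinearMap.ker (fam R d) ≤ LinearMap.ker g := by
          intro z hz
          obtain ⟨α, hα⟩ := hπ ⟨z, hz⟩
          have h1 : z = ∑ k, α k • (x k : Fin 2 → R) := by
            have h2 := congrArg Subtype.val hα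
            rw [fam_apply, Submodule.coe_sum] at h2
            exact h2.symm
          rw [LinearMap.mem_ker, h1, map_sum]
          refine Finset.sum_eq_zero fun k _ => ?_
          rw [map_smul, hgx, smul_zero]
        let ε : D →ₗ[R] D := (Submodule.liftQ _ g hg) ∘ₗ
          (LinearMap.quotKerEquivOfSurjective (fam R d) hps).symm.toLinearMap
        have hε : ∀ z, ε (fam R d z) = g z := by
          intro z
          change Submodule.liftQ _ g hg
            ((LinearMap.quotKerEquivOfSurjective (fam R d) hps).symm (fam R d z)) = g z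
          have h1 : (LinearMap.quotKerEquivOfSurjective (fam R d) hps).symm (fam R d z) =
              Submodule.Quotient.mk z := by
            rw [LinearEquiv.symm_apply_eq]
            rfl
          rw [h1, Submodule.liftQ_apply]
        obtain ⟨r, hr⟩ := two_end hinj s hs0 hsm hone hlen ε
        refine ⟨r, fun c => ?_⟩
        have hs : ∀ {N : Type} [AddCommGroup N] [Module R N] (y : Fin 2 → N) (k : Fin 2),
            fam R y (Pi.single k (1 : R)) = y k := by
          intro N _ _ y k
          rw [fam_apply, Finset.sum_eq_single k]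
          · rw [Pi.single_eq_same, one_smul]
          · intro l _ hl
            rw [Pi.single_eq_of_ne hl, zero_smul]
          · intro h
            exact absurd (Finset.mem_univ _) h
        have h1 := hε (Pi.single c 1)
        rw [hs d c, hr] at h1
        have h2 : g (Pi.single c 1) = θ ((LinearMap.range Ψ).mkQ (Pi.single c w)) :=
          hs (fun c => θ ((LinearMap.range Ψ).mkQ (Pi.single c w))) c
        rw [← h2, ← h1]
      choose u0 hu0 using hr
      have huniq : ∀ r r' : R, (∀ c, r • d c = r' • d c) → r = r' := by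
        intro r r' h
        rw [← sub_eq_zero]
        apply hfaith
        intro t
        obtain ⟨z, rfl⟩ := hps t
        rw [hp, smul_add, smul_comm _ (z 0), smul_comm _ (z 1), sub_smul, sub_smul, h 0, h 1,
          sub_self, sub_self, smul_zero, smul_zero, add_zero]
      let u : LinearMap.ker (fam R x) →ₗ[R] R :=
        { toFun := u0
          map_add' := by
            intro w w'
            apply huniq
            intro c
            rw [← hu0, Pi.single_add, map_add, map_add, hu0, hu0, add_smul]
          map_smul' := by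
            intro r w
            apply huniq
            intro c
            rw [← hu0, Pi.single_smul, map_smul, map_smul, hu0, RingHom.id_apply, smul_eq_mul,
              mul_smul] }
      obtain ⟨v, hv⟩ := hext n (fam R x) hπ u
      apply hθ
      have h1 : κ = ∑ c, Pi.single c (κ c) := by
        rw [Finset.univ_sum_single]
      rw [h1, map_sum, map_sum, Fin.sum_univ_two, hu0, hu0]
      have h2 : ∀ c, u0 (κ c) = (x j : Fin 2 → R) c * v (Pi.single i 1) -
          (x i : Fin 2 → R) c * v (Pi.single j 1) := by
        intro c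
        have h3 : u (κ c) = v (κ c : Fin n → R) := (hv (κ c)).symm
        change u (κ c) = _
        rw [h3]
        change v ((x j : Fin 2 → R) c • Pi.single i (1 : R) - (x i : Fin 2 → R) c •
          Pi.single j (1 : R)) = _
        rw [map_sub, map_smul, map_smul, smul_eq_mul, smul_eq_mul]
      have hxj : (x j : Fin 2 → R) 0 • d 0 + (x j : Fin 2 → R) 1 • d 1 = 0 := by
        rw [← hp]; exact (x j).2
      have hxi : (x i : Fin 2 → R) 0 • d 0 + (x i : Fin 2 → R) 1 • d 1 = 0 := by
        rw [← hp]; exact (x i).2
      rw [h2, h2]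
      have h4 : ((x j : Fin 2 → R) 0 * v (Pi.single i 1) -
          (x i : Fin 2 → R) 0 * v (Pi.single j 1)) • d 0 +
          ((x j : Fin 2 → R) 1 * v (Pi.single i 1) -
          (x i : Fin 2 → R) 1 * v (Pi.single j 1)) • d 1 =
          v (Pi.single i 1) • ((x j : Fin 2 → R) 0 • d 0 + (x j : Fin 2 → R) 1 • d 1) -
          v (Pi.single j 1) • ((x i : Fin 2 → R) 0 • d 0 + (x i : Fin 2 → R) 1 • d 1) := by
        module
      rw [h4, hxj, hxi, smul_zero, smul_zero, sub_zero]
    obtain ⟨w, hw⟩ := hmem
    obtain ⟨z, hz⟩ : ∃ z : Fin n → R, ∀ k, z k = (Pi.single j (1 : R) : Fin n → R) k -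
        (w k : Fin n → R) i := ⟨_, fun _ => rfl⟩
    have hrel : fam R x z = 0 := by
      apply Subtype.ext
      funext c
      rw [fam_apply]
      have h1 : (Ψ w c : Fin n → R) i = (κ c : Fin n → R) i :=
        congrArg (fun t : LinearMap.ker (fam R x) => (t : Fin n → R) i) (congrFun hw c)
      rw [hΨ] at h1
      have h2 : ((∑ k, (x k : Fin 2 → R) c • w k : LinearMap.ker (fam R x)) : Fin n → R) i =
          ∑ k, (x k : Fin 2 → R) c * (w k : Fin n → R) i := by
        rw [Submodule.coe_sum, Finset.sum_apply]
        rfl
      have h3 : (κ c : Fin n → R) i = (x j : Fin 2 → R) c := by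
        change ((x j : Fin 2 → R) c • Pi.single i (1 : R) - (x i : Fin 2 → R) c •
          Pi.single j (1 : R) : Fin n → R) i = _
        rw [Pi.sub_apply, Pi.smul_apply, Pi.smul_apply, Pi.single_eq_same,
          Pi.single_eq_of_ne hij, smul_zero, sub_zero, smul_eq_mul, mul_one]
      rw [h2, h3] at h1
      have h4 : ((∑ k, z k • x k : LinearMap.ker (fam R d)) : Fin 2 → R) c =
          ∑ k, z k * (x k : Fin 2 → R) c := by
        rw [Submodule.coe_sum, Finset.sum_apply]
        rfl
      rw [h4]
      have h5 : ∑ k, z k * (x k : Fin 2 → R) c = (x j : Fin 2 → R) c -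
            ∑ k, (x k : Fin 2 → R) c * (w k : Fin n → R) i := by
        have : ∀ k, z k * (x k : Fin 2 → R) c =
            (Pi.single j (1 : R) : Fin n → R) k * (x k : Fin 2 → R) c -
            (x k : Fin 2 → R) c * (w k : Fin n → R) i := by
          intro k
          rw [hz, sub_mul, mul_comm ((w k : Fin n → R) i)]
        rw [Finset.sum_congr rfl (fun k _ => this k), Finset.sum_sub_distrib,
          Finset.sum_eq_single j]
        · rw [Pi.single_eq_same, one_mul]
        · intro l _ hl
          rw [Pi.single_eq_of_ne hl, zero_mul]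
        · intro h
          exact absurd (Finset.mem_univ _) h
      rw [h5, h1, sub_self]
      rfl
    have h1 := hkerm hrel j
    have h2 : (w j : Fin n → R) i ∈ maximalIdeal R := hkerm (w j).2 i
    rw [hz, Pi.single_eq_same] at h1
    have h3 : (1 : R) ∈ maximalIdeal R := by
      have := Ideal.add_mem _ h1 h2
      rwa [sub_add_cancel] at this
    exact (Ideal.ne_top_iff_one _).1 (maximalIdeal.isMaximal R).ne_top h3

end Two

end Pool.Agent.Tach
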