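import Pool.Agent.Work.MP_cd91b4_al.B5
import Pool.Agent.Work.MP_cd91b4_al.TwoCore

/-! # Type two: from the Artinian core to Cohen-Macaulay local rings -/

set_option autoImplicit false

namespace Pool.Agent.Tach

open CategoryTheory IsLocalRing RingTheory.Sequence

theorem two_artinian {A : Type} [CommRing A] [IsNoetherianRing A] [IsLocalRing A] (rs : List A)
    (hm : ∀ r ∈ rs, r ∈ maximalIdeal A) (hw : IsWeaklyRegular A rs)
    (hdim : ringKrullDim A = ((rs.length : ℕ) : WithBot ℕ∞)) :
    IsArtinianRing (A ⧸ Ideal.ofList rs) := by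
  have hreg := (IsLocalRing.isRegular_iff_isWeaklyRegular_of_subset_maximalIdeal hm).2 hw
  have h1 := ringKrullDim_add_length_eq_ringKrullDim_of_isRegular rs hreg
  rw [isArtinianRing_iff_krullDimLE_zero, Ring.krullDimLE_iff]
  rw [hdim] at h1
  by_contra hcon
  rw [not_le] at hcon
  have h2 : ringKrullDim (A ⧸ Ideal.ofList rs) ≠ ⊥ := by
    intro h
    rw [h] at hcon
    exact absurd hcon (by simp)
  lift ringKrullDim (A ⧸ Ideal.ofList rs) to ℕ∞ using h2 with x hx
  norm_cast at h1 hcon
  have h3 : x ≠ ⊤ := by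
    rintro rfl
    rw [top_add] at h1
    exact ENat.top_ne_natCast _ h1
  lift x to ℕ using h3 with y hy
  norm_cast at h1 hcon
  omega

theorem two_main (A : Type) [CommRing A] [IsNoetherianRing A] [IsLocalRing A]
    [HasExt.{0} (ModuleCat.{0} A)] (rs : List A) (hm : ∀ r ∈ rs, r ∈ maximalIdeal A)
    (hw : IsWeaklyRegular A rs)
    (hdim : ringKrullDim A = ((rs.length : ℕ) : WithBot ℕ∞))
    (ω : Type) [AddCommGroup ω] [Module A ω] [Module.Finite A ω]
    (xs : List A) (hxm : ∀ x ∈ xs, x ∈ maximalIdeal A) (hxw : IsWeaklyRegular ω xs)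
    (hxl : xs.length = rs.length)
    (hx1 : Nonempty ((ResidueField A →ₗ[A] (ω ⧸ (Ideal.ofList xs • (⊤ : Submodule A ω))))
          ≃ₗ[A] ResidueField A))
    (hinj : ∃ n : ℕ, ∀ i : ℕ, n < i → EZ A (ResidueField A) ω i)
    (g : Fin 2 → ω) (hg : Submodule.span A (Set.range g) = ⊤)
    (hext : ∀ j : ℕ, 1 < j → j ≤ rs.length + 2 → EZ A ω A j) :
    ∃ n : ℕ, ∀ i : ℕ, n < i → EZ A (ResidueField A) A i := by
  have hI : Ideal.ofList rs ≤ maximalIdeal A := by
    rw [Ideal.ofList, Ideal.span_le]
    exact hm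
  have : Nontrivial (A ⧸ Ideal.ofList rs) :=
    Ideal.Quotient.nontrivial_iff.2 fun h => (maximalIdeal.isMaximal A).ne_top
      (top_le_iff.1 (h ▸ hI))
  have : IsLocalRing (A ⧸ Ideal.ofList rs) :=
    IsLocalRing.of_surjective' (Ideal.Quotient.mk _) Ideal.Quotient.mk_surjective
  have hart : IsArtinianRing (A ⧸ Ideal.ofList rs) := two_artinian rs hm hw hdim
  -- finite modules over the quotient have finite length over `A`
  have hfl : ∀ (X : Type) [AddCommGroup X] [Module A X] [Module (A ⧸ Ideal.ofList rs) X]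
      [IsScalarTower A (A ⧸ Ideal.ofList rs) X] [Module.Finite (A ⧸ Ideal.ofList rs) X],
      IsFiniteLength A X := by
    intro X _ _ _ _ _
    rw [isFiniteLength_iff_isNoetherian_isArtinian]
    have h2 : Module.Finite A X := Module.Finite.trans (A ⧸ Ideal.ofList rs) X
    exact ⟨inferInstance, isArtinian_of_surjective_algebraMap (R := A ⧸ Ideal.ofList rs)
      Ideal.Quotient.mk_surjective⟩
  have hkill : ∀ a ∈ maximalIdeal A, ∀ y : ResidueField A, a • y = 0 := by
    intro a ha y
    rw [Algebra.smul_def]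
    have : algebraMap A (ResidueField A) a = 0 := (IsLocalRing.residue_eq_zero_iff a).2 ha
    rw [this, zero_mul]
  have hfinR : IsFiniteLength A (A ⧸ Ideal.ofList rs) := hfl _
  have hV : ∀ i, i < rs.length → EZ A (ResidueField A) ω i := fun i hi =>
    ez_depth xs hxw (fun r hr => hkill r (hxm r hr)) (by rw [hxl]; exact hi)
  have hwω : IsWeaklyRegular ω rs := weaklyRegular_transfer rs hm hw hfinR hV
  obtain ⟨e1⟩ := hom_equiv_ext (X := ResidueField A) rs hwω (fun r hr => hkill r (hm r hr))
  obtain ⟨e2⟩ := hom_equiv_ext (X := ResidueField A) xs hxw (fun r hr => hkill r (hxm r hr))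
  obtain ⟨e3⟩ := hx1
  rw [hxl] at e2
  have e : (ResidueField A →ₗ[A] (ω ⧸ (Ideal.ofList rs • (⊤ : Submodule A ω)))) ≃ₗ[A]
      ResidueField A := e1.trans (e2.symm.trans e3)
  obtain ⟨⟨s, hs0, hsm⟩, hone⟩ := b4_one e
  have htop := ez_top rs hm hw hfinR hinj
  -- `rs` kills modules over the quotient
  have kill : ∀ (X : Type) [AddCommGroup X] [Module A X] [Module (A ⧸ Ideal.ofList rs) X]
      [IsScalarTower A (A ⧸ Ideal.ofList rs) X], ∀ r ∈ rs, ∀ x : X, r • x = 0 := by
    intro X _ _ _ _ r hr x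
    rw [← algebraMap_smul (A ⧸ Ideal.ofList rs) r x]
    have : algebraMap A (A ⧸ Ideal.ofList rs) r = 0 := by
      rw [Ideal.Quotient.algebraMap_eq, Ideal.Quotient.eq_zero_iff_mem]
      exact Ideal.subset_span hr
    rw [this, zero_smul]
  -- maximal ideals
  have hmax : ∀ a : A, a ∈ maximalIdeal A →
      algebraMap A (A ⧸ Ideal.ofList rs) a ∈ maximalIdeal (A ⧸ Ideal.ofList rs) := by
    intro a ha
    rw [mem_maximalIdeal, mem_nonunits_iff] at ha ⊢
    intro hu
    apply ha
    obtain ⟨b, hb⟩ := hu.exists_right_inv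
    obtain ⟨b, rfl⟩ := Ideal.Quotient.mk_surjective b
    rw [Ideal.Quotient.algebraMap_eq, ← map_mul, ← map_one (Ideal.Quotient.mk _),
      Ideal.Quotient.eq] at hb
    have h1 := hI hb
    by_contra hna
    have h2 : a * b ∈ maximalIdeal A := Ideal.mul_mem_right _ _ hna
    have h3 : (1 : A) ∈ maximalIdeal A := by
      have := Ideal.sub_mem _ h2 h1
      rwa [sub_sub_cancel] at this
    exact (Ideal.ne_top_iff_one _).1 (maximalIdeal.isMaximal A).ne_top h3
  have hmax' : ∀ a : A, algebraMap A (A ⧸ Ideal.ofList rs) a ∈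
      maximalIdeal (A ⧸ Ideal.ofList rs) → a ∈ maximalIdeal A := by
    intro a ha
    rw [mem_maximalIdeal, mem_nonunits_iff] at ha ⊢
    exact fun hu => ha (hu.map _)
  have hsm' : ∀ a ∈ maximalIdeal (A ⧸ Ideal.ofList rs), a • s = 0 := by
    intro a ha
    obtain ⟨a, rfl⟩ := Ideal.Quotient.mk_surjective a
    rw [← Ideal.Quotient.algebraMap_eq, algebraMap_smul]
    exact hsm a (hmax' a ha)
  have hone' : ∀ t : ω ⧸ (Ideal.ofList rs • (⊤ : Submodule A ω)),
      (∀ a ∈ maximalIdeal (A ⧸ Ideal.ofList rs), a • t = 0) →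
      ∃ a : A ⧸ Ideal.ofList rs, t = a • s := by
    intro t ht
    obtain ⟨a, ha⟩ := hone s t hs0 hsm (fun a ha => by
      rw [← algebraMap_smul (A ⧸ Ideal.ofList rs) a t]
      exact ht _ (hmax a ha))
    exact ⟨algebraMap A _ a, by rw [algebraMap_smul]; exact ha⟩
  -- injectivity
  have hFI : FInj (A ⧸ Ideal.ofList rs) (ω ⧸ (Ideal.ofList rs • (⊤ : Submodule A ω))) := by
    intro X _ _ _ X' u
    let : Module A X := Module.compHom X (algebraMap A (A ⧸ Ideal.ofList rs))
    have : IsScalarTower A (A ⧸ Ideal.ofList rs) X :=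
      IsScalarTower.of_algebraMap_smul fun _ _ => rfl
    have hinj' : Function.Injective (X'.subtype.restrictScalars A) := Subtype.val_injective
    have hsur' : Function.Surjective (X'.mkQ.restrictScalars A) := X'.mkQ_surjective
    have hex' : Function.Exact (X'.subtype.restrictScalars A) (X'.mkQ.restrictScalars A) := by
      intro x
      constructor
      · intro hx
        have h1 : X'.mkQ x = 0 := hx
        rw [Submodule.mkQ_apply, Submodule.Quotient.mk_eq_zero] at h1
        exact ⟨⟨x, h1⟩, rfl⟩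
      · rintro ⟨y, rfl⟩
        have h1 : X'.mkQ (y : X) = 0 := by
          rw [Submodule.mkQ_apply, Submodule.Quotient.mk_eq_zero]
          exact y.2
        exact h1
    have hZ : EZ A (X ⧸ X') ω (rs.length + 1) :=
      ez_finiteLength (htop _ (Nat.lt_succ_self _)) (hfl _)
    obtain ⟨v, hv⟩ := surj_hom rs hwω (X'.subtype.restrictScalars A) (X'.mkQ.restrictScalars A)
      hinj' hsur' hex' (kill _) (kill _) hZ (u.restrictScalars A)
    refine ⟨{ toFun := v, map_add' := map_add v, map_smul' := ?_ }, ?_⟩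
    · intro r x
      obtain ⟨a, rfl⟩ := Ideal.Quotient.mk_surjective r
      rw [← Ideal.Quotient.algebraMap_eq, algebraMap_smul, map_smul, RingHom.id_apply,
        algebraMap_smul]
    · intro x
      exact LinearMap.congr_fun hv x
  -- generators
  let d : Fin 2 → (ω ⧸ (Ideal.ofList rs • (⊤ : Submodule A ω))) :=
    fun c => (Ideal.ofList rs • (⊤ : Submodule A ω)).mkQ (g c)
  have hd : Submodule.span (A ⧸ Ideal.ofList rs) (Set.range d) = ⊤ := by
    rw [eq_top_iff]
    intro y _
    obtain ⟨z, rfl⟩ := Submodule.mkQ_surjective _ y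
    have hz : z ∈ Submodule.span A (Set.range g) := by rw [hg]; trivial
    induction hz using Submodule.span_induction with
    | mem x hx =>
      obtain ⟨c, rfl⟩ := hx
      exact Submodule.subset_span ⟨c, rfl⟩
    | zero => rw [map_zero]; exact Submodule.zero_mem _
    | add x y _ _ h1 h2 => rw [map_add]; exact Submodule.add_mem _ (h1 trivial) (h2 trivial)
    | smul a x _ h1 =>
      rw [map_smul, ← algebraMap_smul (A ⧸ Ideal.ofList rs) a]
      exact Submodule.smul_mem _ _ (h1 trivial)
  -- the Ext condition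
  have hD : EZ A (ω ⧸ (Ideal.ofList rs • (⊤ : Submodule A ω))) A (rs.length + 2) :=
    ez_quot_left rs hwω (N := 1) (N' := rs.length + 2) hext _ (by omega) le_rfl
  have hker : EZ A (LinearMap.ker (fam (A ⧸ Ideal.ofList rs) d)) A (rs.length + 1) := by
    have hinj' : Function.Injective
        ((LinearMap.ker (fam (A ⧸ Ideal.ofList rs) d)).subtype.restrictScalars A) :=
      Subtype.val_injective
    have hsur' : Function.Surjective ((fam (A ⧸ Ideal.ofList rs) d).restrictScalars A) :=
      fam_surj hd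
    have hex' : Function.Exact
        ((LinearMap.ker (fam (A ⧸ Ideal.ofList rs) d)).subtype.restrictScalars A)
        ((fam (A ⧸ Ideal.ofList rs) d).restrictScalars A) := by
      intro x
      constructor
      · intro hx
        exact ⟨⟨x, hx⟩, rfl⟩
      · rintro ⟨y, rfl⟩
        exact y.2
    exact ez_ct3 hinj' hsur' hex' (ez_free_quot rs hw (Nat.lt_succ_self _)) hD
  obtain ⟨E⟩ := two_core hFI s hs0 hsm' hone' d hd (fun n π hπ u =>
    (step rs hw π hπ 0 (fun j hj hj' => by
      obtain rfl : j = rs.length + 1 := by omega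
      exact hker)).2 u)
  -- conclusion
  obtain ⟨n, hn⟩ := hinj
  refine ⟨n, fun i hi => ?_⟩
  have h1 := ez_quot rs hwω hn i hi
  refine ez_of_quot rs hw ?_ (ez_congr (LinearEquiv.refl A _)
    ((E.restrictScalars A).trans (b5_equiv (Ideal.ofList rs)).symm) h1)
  intro r hr y
  exact hkill r (hm r hr) y

end Pool.Agent.Tach
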